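import Pool.Agent.H63.RK.Defs

/-!
# Extensions: reduction to cyclic subgroups

Module H63 RK EXC (MP_2a547c_gt). Complete proof. `ext_cyc`: apply `hE`. If `V ≤ Q` is virtually cyclic, `v : V` with
`(Subgroup.zpowers v).FiniteIndex`, then `((Subgroup.zpowers (v : Q)).comap p).subgroupOf (V.comap p)` has finite index in
`V.comap p` (it is the preimage of `zpowers v` under the homomorphism `V.comap p → V`), so `hC.index` applies; it is
isomorphic to `(Subgroup.zpowers (v : Q)).comap p` (`zpowers (v : Q) ≤ V`; use `hC.of_injective`, inclusion).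
`abx`: let `P = p.range` and `p' : G → P` (`p.rangeRestrict`), surjective, `C P` by `hC.sub`. By `ext_cyc` it suffices that
`E = (Subgroup.zpowers v).comap p'` is in the class: it is solvable: the restriction of `p'` to `E` has commutative kernel
and cyclic image (`solvable_of_ker_le_range`, or `isSolvable` of the derived series: `⁅E, E⁆ ≤ ker`, `ker` is commutative).
So `hS` applies. `locNil_mem`: `N` is the directed union of the subgroups `Subgroup.closure s`, `s : Finset N`
(`hC.union`), which are nilpotent, hence solvable.
`ext_sd`: replace `Q` by `p.range` (`ker` of `p.rangeRestrict` is `p.ker`) or use that `ext_cyc` needs a surjective map.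
Let `v` be an element of the range, `E = (zpowers v).comap p` and `g` with `p g = v`. If `v` has finite order, then
`p.ker` (as a subgroup of `E`) has finite index in `E` (the quotient embeds in the finite group `zpowers v`) and `hC.index`
applies. If `v` has infinite order, let `τ` be the conjugation by `g` on `p.ker`; the map
`SD τ → G`, `(x, n) ↦ x * g ^ n` (`SemidirectProduct.lift p.ker.subtype (zpowersHom G g) _`) is injective (apply `p`:
`v ^ n = 1` gives `n = 0`) and has image `E` (if `p y = v ^ n` then `y * g ^ (-n) ∈ p.ker`): so `E` embeds in `SD τ` and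
`hC.of_injective`/`hC.iso` apply.
-/

set_option autoImplicit false

namespace Pool.Agent.H63.RK

open Pool.Agent.H98.FJ

variable {C : (G : Type) → [Group G] → Prop}

theorem ext_cyc (hC : Inherits C) (hE : Extension C) {G Q : Type} [Group G] [Group Q]
    (p : G →* Q) (hp : Function.Surjective p) (hQ : C Q)
    (h : ∀ v : Q, C ((Subgroup.zpowers v).comap p)) : C G := by
  refine hE G Q p hp hQ ?_
  rintro V ⟨v, hv⟩
  have hr := MonoidHom.subgroupComap_surjective_of_surjective p V hp
  have hK : ((Subgroup.zpowers v).comap (p.subgroupComap V)).FiniteIndex := by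
    refine ⟨?_⟩
    rw [Subgroup.index_comap_of_surjective _ hr]
    exact hv.index_ne_zero
  refine hC.index _ _ hK ?_
  have hmem : ∀ x : ((Subgroup.zpowers v).comap (p.subgroupComap V)),
      (x.1 : G) ∈ (Subgroup.zpowers (v : Q)).comap p := by
    rintro ⟨x, hx⟩
    obtain ⟨n, hn⟩ := Subgroup.mem_zpowers_iff.mp (Subgroup.mem_comap.mp hx)
    refine Subgroup.mem_comap.2 (Subgroup.mem_zpowers_iff.mpr ⟨n, ?_⟩)
    exact congrArg (Subtype.val : V → Q) hn
  let φ : ((Subgroup.zpowers v).comap (p.subgroupComap V)) →* ((Subgroup.zpowers (v : Q)).comap p) :=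
    { toFun := fun x => ⟨(x.1 : G), hmem x⟩
      map_one' := rfl
      map_mul' := fun _ _ => rfl }
  refine hC.of_injective φ ?_ (h v)
  intro x y hxy
  exact Subtype.ext (Subtype.ext (congrArg (fun z : (Subgroup.zpowers (v : Q)).comap p => (z : G)) hxy))

theorem abx (hC : Inherits C) (hE : Extension C) (hS : Solv C) {G Q : Type} [Group G] [Group Q]
    (p : G →* Q) (hQ : C Q) (hab : ∀ x y : G, p x = 1 → p y = 1 → x * y = y * x) : C G := by
  refine ext_cyc hC hE p.rangeRestrict p.rangeRestrict_surjective (hC.sub Q p.range hQ) ?_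
  intro v
  refine hS _ ?_
  let g : ((Subgroup.zpowers v).comap p.rangeRestrict) →* Subgroup.zpowers v :=
    p.rangeRestrict.subgroupComap (Subgroup.zpowers v)
  have h1 : Group.IsSolvable g.ker := by
    refine Group.isSolvable_of_comm ?_
    have hk : ∀ x : g.ker, p (x.1 : G) = 1 := by
      rintro ⟨x, hx⟩
      have h2 : p.rangeRestrict (x : G) = 1 := congrArg (Subtype.val : Subgroup.zpowers v → p.range) hx
      exact congrArg (Subtype.val : p.range → Q) h2
    intro a b
    exact Subtype.ext (Subtype.ext (hab _ _ (hk a) (hk b)))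
  have h3 : Group.IsSolvable (Subgroup.zpowers v) :=
    Group.isSolvable_of_comm (fun a b => (Subgroup.zpowers_isMulCommutative v).is_comm.comm a b)
  exact Group.isSolvable_of_ker_le_range g.ker.subtype g (by rw [Subgroup.range_subtype])

theorem locNil_mem (hC : Inherits C) (hS : Solv C) {N : Type} [Group N] (hN : LocNil N) : C N := by
  refine hC.union (ι := Finset N) (fun s => Subgroup.closure (s : Set N)) ?_ ?_ ?_
  · intro s t hst
    exact Subgroup.closure_mono (by exact_mod_cast hst)
  · intro g
    exact ⟨{g}, Subgroup.subset_closure (by simp)⟩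
  · intro s
    have h1 : Group.IsNilpotent (Subgroup.closure (s : Set N)) := hN _ ⟨s, rfl⟩
    exact hS _ inferInstance

theorem ext_sd (hC : Inherits C) (hE : Extension C) {G Q : Type} [Group G] [Group Q]
    (p : G →* Q) (hQ : C Q) (hK : C p.ker) (hSD : ∀ τ : p.ker ≃* p.ker, C (SD τ)) : C G := by
  refine ext_cyc hC hE p.rangeRestrict p.rangeRestrict_surjective (hC.sub Q p.range hQ) ?_
  intro v
  by_cases hfin : IsOfFinOrder v
  · have hz : Finite (Subgroup.zpowers v) := Set.Finite.to_subtype (finite_zpowers.mpr hfin)
    let g : ((Subgroup.zpowers v).comap p.rangeRestrict) →* Subgroup.zpowers v :=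
      p.rangeRestrict.subgroupComap (Subgroup.zpowers v)
    have hrf : Finite g.range := Subtype.finite
    refine hC.index _ g.ker (Subgroup.finiteIndex_ker _) ?_
    have hk : ∀ x : g.ker, (x.1 : G) ∈ p.ker := by
      rintro ⟨x, hx⟩
      have h2 : p.rangeRestrict (x : G) = 1 := congrArg (Subtype.val : Subgroup.zpowers v → p.range) hx
      exact congrArg (Subtype.val : p.range → Q) h2
    let φ : g.ker →* p.ker :=
      { toFun := fun x => ⟨(x.1 : G), hk x⟩
        map_one' := rfl
        map_mul' := fun _ _ => rfl }
    refine hC.of_injective φ ?_ hK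
    intro x y hxy
    exact Subtype.ext (Subtype.ext (congrArg (fun z : p.ker => (z : G)) hxy))
  · obtain ⟨g, hg⟩ := p.rangeRestrict_surjective v
    have hvz : ∀ n : ℤ, v ^ n = 1 → n = 0 := by
      intro n hn
      have h3 := injective_zpow_iff_not_isOfFinOrder.mpr hfin
      exact h3 (by simpa using hn)
    let τ : p.ker ≃* p.ker := MulAut.conjNormal g
    have hcomp : ∀ n : Multiplicative ℤ,
        p.ker.subtype.comp ((zpowersHom (MulAut p.ker) τ) n).toMonoidHom =
          (MulAut.conj ((zpowersHom G g) n)).toMonoidHom.comp p.ker.subtype := by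
      intro n
      ext x
      have h4 : (zpowersHom (MulAut p.ker) τ) n = MulAut.conjNormal ((zpowersHom G g) n) := by
        rw [zpowersHom_apply, zpowersHom_apply, map_zpow]
      rw [h4]
      rfl
    let θ : SD τ →* G := SemidirectProduct.lift p.ker.subtype (zpowersHom G g) hcomp
    have hθ : ∀ x : SD τ, θ x = (x.left : G) * g ^ (Multiplicative.toAdd x.right) := fun x => rfl
    have hinj : Function.Injective θ := by
      rw [injective_iff_map_eq_one]
      intro x hx
      rw [hθ] at hx
      have h5 : v ^ (Multiplicative.toAdd x.right) = 1 := by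
        have h6 := congrArg p.rangeRestrict hx
        rw [map_mul, map_zpow, hg, map_one] at h6
        have h7 : p.rangeRestrict (x.left : G) = 1 := Subtype.ext x.left.2
        rw [h7, one_mul] at h6
        exact h6
      have h8 := hvz _ h5
      rw [h8, zpow_zero, mul_one] at hx
      apply SemidirectProduct.ext
      · exact Subtype.ext hx
      · exact h8
    have hle : (Subgroup.zpowers v).comap p.rangeRestrict ≤ θ.range := by
      intro y hy
      obtain ⟨n, hn⟩ := Subgroup.mem_zpowers_iff.mp (Subgroup.mem_comap.mp hy)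
      have ha : y * (g ^ n)⁻¹ ∈ p.ker := by
        have h9 : p.rangeRestrict (y * (g ^ n)⁻¹) = 1 := by
          rw [map_mul, map_inv, map_zpow, hg, ← hn, mul_inv_cancel]
        exact congrArg (Subtype.val : p.range → Q) h9
      refine ⟨⟨⟨_, ha⟩, Multiplicative.ofAdd n⟩, ?_⟩
      rw [hθ]
      change y * (g ^ n)⁻¹ * g ^ n = y
      rw [inv_mul_cancel_right]
    exact hC.of_injective (Subgroup.inclusion hle) (Subgroup.inclusion_injective hle)
      (hC.iso (SD τ) θ.range (MonoidHom.ofInjective hinj) (hSD τ))

end Pool.Agent.H63.RK
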