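import Pool.Agent.H63.RK.RQ

/-!
# Invariant quotients

Module H63 RK QUO (MP_2a547c_gt). Complete proof. `exists_quot`: `N' = N ⧸ S`, `τ' = QuotientGroup.congr S S τ _`,
`f = QuotientGroup.mk' S`. `LocNil.of_surj`: a finitely generated subgroup of `N'` is the closure of a finite set, lift
the elements to `N`: it is the image of a finitely generated subgroup `L` of `N`, and the image of a nilpotent group is
nilpotent (`Group.nilpotent_of_surjective` with `f.subgroupMap L`). `TF.of_surj`: if `(f x) ^ k = 1` then `x ^ k ∈ f.ker`, so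
`x ∈ f.ker`. `rf_map`, `rf_map_succ`: use `RF.of_surj` and `RF.of_surj_succ` for `f.subgroupMap H : H →* H.map f`. The rest
is bookkeeping (`Isol (S.map f)`: if `y ^ k ∈ S.map f`, `y = f x`, then `f (x ^ k) = f s`, `x ^ k = s * z`, `z ∈ f.ker ≤ S`).
-/

set_option autoImplicit false

namespace Pool.Agent.H63.RK

open Pool.Agent.H98.FJ

theorem exists_quot {N : Type} [Group N] (τ : N ≃* N) (S : Subgroup N) (hS : Inv τ S) :
    ∃ (N' : Type) (_ : Group N') (τ' : N' ≃* N') (f : N →* N'), Function.Surjective f ∧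
      (∀ x, f (τ x) = τ' (f x)) ∧ f.ker = S := by
  have hn : S.Normal := hS.normal
  have he : S.map (τ : N →* N) = S := by
    ext y
    rw [Subgroup.mem_map]
    constructor
    · rintro ⟨x, hx, rfl⟩
      exact (hS.inv x).2 hx
    · intro hy
      refine ⟨τ.symm y, ?_, ?_⟩
      · rw [← hS.inv, MulEquiv.apply_symm_apply]
        exact hy
      · change τ (τ.symm y) = y
        rw [MulEquiv.apply_symm_apply]
  exact ⟨N ⧸ S, inferInstance, QuotientGroup.congr S S τ he, QuotientGroup.mk' S,
    QuotientGroup.mk'_surjective S, fun x => rfl, QuotientGroup.ker_mk' S⟩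

section

variable {N N' : Type} [Group N] [Group N'] (f : N →* N')

theorem LocNil.of_surj (hN : LocNil N) (hf : Function.Surjective f) : LocNil N' := by
  intro H hH
  obtain ⟨s, hs⟩ := hH
  choose g hg using hf
  classical
  have h1 : (Subgroup.closure (g '' (s : Set N'))).FG :=
    ⟨s.image g, by rw [Finset.coe_image]⟩
  have h2 : (Subgroup.closure (g '' (s : Set N'))).map f = H := by
    rw [MonoidHom.map_closure, ← hs]
    congr 1
    rw [← Set.image_comp]
    have : (fun x => f (g x)) = id := funext hg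
    change (fun x => f (g x)) '' (s : Set N') = s
    rw [this, Set.image_id]
  have h3 := hN _ h1
  rw [← h2]
  exact Group.nilpotent_of_surjective _ (f.subgroupMap_surjective _)

theorem LocNil.subgroup (hN : LocNil N) (L : Subgroup N) : LocNil L := by
  intro K hK
  have e : K ≃* K.map L.subtype := K.equivMapOfInjective L.subtype L.subtype_injective
  have h1 : Group.FG K := (Group.fg_iff_subgroup_fg K).2 hK
  have h2 : Group.FG (K.map L.subtype) :=
    Group.fg_of_surjective (f := e.toMonoidHom) e.surjective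
  have h3 := hN _ ((Group.fg_iff_subgroup_fg _).1 h2)
  exact Group.nilpotent_of_mulEquiv e.symm

theorem TF.of_surj (hf : Function.Surjective f) (hk : Isol f.ker) : TF N' := by
  intro y k hk0 hy
  obtain ⟨x, rfl⟩ := hf y
  rw [← map_pow] at hy
  exact hk x k hk0 hy

theorem TF.subgroup (hN : TF N) (L : Subgroup N) : TF L := by
  intro x k hk hx
  apply Subtype.ext
  apply hN x.1 k hk
  rw [← Subgroup.coe_pow, hx]
  rfl

theorem rf_map (H : Subgroup N) {k : ℕ} (hr : RF H k) : RF (H.map f) k :=
  RF.of_surj hr (f.subgroupMap H) (f.subgroupMap_surjective H)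

theorem rf_map_succ (hT : TF N) (H : Subgroup N) {k : ℕ} (hr : RF H (k + 1))
    (hk : H ⊓ f.ker ≠ ⊥) : RF (H.map f) k := by
  refine RF.of_surj_succ hr (TF.subgroup hT H) (f.subgroupMap H) (f.subgroupMap_surjective H) ?_
  intro h
  apply hk
  rw [eq_bot_iff]
  intro x hx
  have h1 : (⟨x, hx.1⟩ : H) ∈ (f.subgroupMap H).ker := by
    rw [MonoidHom.mem_ker]
    apply Subtype.ext
    exact hx.2
  rw [h, Subgroup.mem_bot] at h1
  rw [Subgroup.mem_bot]
  exact congrArg Subtype.val h1

theorem Inv.comap {τ : N ≃* N} {τ' : N' ≃* N'} (hf : ∀ x, f (τ x) = τ' (f x)) {S : Subgroup N'}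
    (hS : Inv τ' S) : Inv τ (S.comap f) := by
  have hn : S.Normal := hS.normal
  refine ⟨inferInstance, ?_, ?_⟩
  · intro x k hk hx
    rw [Subgroup.mem_comap, map_pow] at hx
    exact hS.isol _ k hk hx
  · intro x
    rw [Subgroup.mem_comap, Subgroup.mem_comap, hf]
    exact hS.inv _

private theorem quo_mem (S : Subgroup N) (hk : f.ker ≤ S) (z : N) : f z ∈ S.map f ↔ z ∈ S := by
  rw [← Subgroup.mem_comap, Subgroup.comap_map_eq_self hk]

theorem Inv.map {τ : N ≃* N} {τ' : N' ≃* N'} (hf : ∀ x, f (τ x) = τ' (f x))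
    (hs : Function.Surjective f) {S : Subgroup N} (hS : Inv τ S) (hk : f.ker ≤ S) :
    Inv τ' (S.map f) := by
  refine ⟨hS.normal.map f hs, ?_, ?_⟩
  · intro y k hk0 hy
    obtain ⟨x, rfl⟩ := hs y
    rw [← map_pow, quo_mem f S hk] at hy
    rw [quo_mem f S hk]
    exact hS.isol x k hk0 hy
  · intro y
    obtain ⟨x, rfl⟩ := hs y
    rw [← hf, quo_mem f S hk, quo_mem f S hk]
    exact hS.inv x

end

end Pool.Agent.H63.RK
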