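import Pool.Agent.H63.RK.Defs

/-!
# Torsion in nilpotent groups

Module H63 RK NIL (MP_2a547c_gt). Complete proof.

`tors_of_comm`: write `γ i = (⊤ : Subgroup X).lowerCentralSeries i`; `γ 0 = ⊤`, `γ 1 = commutator X`, `γ (i + 1)` is
generated by the commutators `⁅a, b⁆`, `a ∈ γ i`, and `⁅γ i, ⊤⁆ = γ (i + 1)`. Claim: for all `i` every `x ∈ γ i` has a power
`x ^ k ∈ γ (i + 1)`, `k ≠ 0`. For `i = 0` this is the hypothesis. Suppose it holds for `i`. Modulo `γ (i + 2)` all the
elements of `γ (i + 1)` are central. If `a ∈ γ i`, `b : X` then `⁅a, b⁆` is central modulo `γ (i + 2)`, so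
`⁅a ^ k, b⁆ ≡ ⁅a, b⁆ ^ k` modulo `γ (i + 2)` (induct on `k` with `⁅a * a', b⁆ = a * ⁅a', b⁆ * a⁻¹ * ⁅a, b⁆`). With
`a ^ k ∈ γ (i + 1)` this gives `⁅a, b⁆ ^ k ∈ γ (i + 2)`. The elements `x` of `γ (i + 1)` with a power in `γ (i + 2)` form a
subgroup (`(x * y) ^ m ≡ x ^ m * y ^ m` since they commute modulo `γ (i + 2)`), it contains the generators. Now every `x`
has a power in `γ i` for all `i` (induction), and `γ n = ⊥` for some `n` (`Subgroup.nilpotent_iff_lowerCentralSeries`).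
It may be convenient to work in the group `X ⧸ γ (i + 2)`.

`tors_of_gen`: `Abelianization X` is commutative and generated by elements of finite order, so all its elements have
finite order; so every `x : X` has a power in `commutator X`; use `tors_of_comm`.
-/

set_option autoImplicit false

namespace Pool.Agent.H63.RK

open Pool.Agent.H98.FJ

open scoped commutatorElement in
private theorem nil_pow {Q : Type} [Group Q] (a b : Q) (h : Commute ⁅a, b⁆ a) (k : ℕ) :
    ⁅a ^ k, b⁆ = ⁅a, b⁆ ^ k := by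
  induction k with
  | zero => simp
  | succ k ih =>
    have e : ⁅a * a ^ k, b⁆ = a * ⁅a ^ k, b⁆ * a⁻¹ * ⁅a, b⁆ := by
      simp only [commutatorElement_def]
      group
    rw [pow_succ', e, ih]
    have h2 : Commute (⁅a, b⁆ ^ k) a := h.pow_left k
    rw [← h2.eq, mul_assoc (⁅a, b⁆ ^ k) a a⁻¹, mul_inv_cancel, mul_one, ← pow_succ]

open scoped commutatorElement in
private theorem nil_step {X : Type} [Group X] (i : ℕ)
    (h : ∀ x ∈ (⊤ : Subgroup X).lowerCentralSeries i, ∃ k : ℕ, k ≠ 0 ∧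
      x ^ k ∈ (⊤ : Subgroup X).lowerCentralSeries (i + 1)) (x : X)
    (hx : x ∈ (⊤ : Subgroup X).lowerCentralSeries (i + 1)) :
    ∃ k : ℕ, k ≠ 0 ∧ x ^ k ∈ (⊤ : Subgroup X).lowerCentralSeries (i + 2) := by
  let N : Subgroup X := (⊤ : Subgroup X).lowerCentralSeries (i + 2)
  have hN : N.Normal := Subgroup.lowerCentralSeries_normal _ _
  let π : X →* X ⧸ N := QuotientGroup.mk' N
  have hπ : ∀ y : X, π y = 1 ↔ y ∈ N := fun y => QuotientGroup.eq_one_iff y
  have hsurj : Function.Surjective π := QuotientGroup.mk'_surjective N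
  have hcen : ∀ y ∈ (⊤ : Subgroup X).lowerCentralSeries (i + 1),
      ∀ g : X ⧸ N, Commute (π y) g := by
    intro y hy g
    obtain ⟨g, rfl⟩ := hsurj g
    rw [← commutatorElement_eq_one_iff_commute, ← map_commutatorElement, hπ]
    exact Subgroup.commutator_mem_commutator hy (Subgroup.mem_top g)
  have key : (∀ g : X ⧸ N, Commute (π x) g) ∧ ∃ k : ℕ, k ≠ 0 ∧ (π x) ^ k = 1 := by
    rw [Subgroup.mem_lowerCentralSeries_succ_iff] at hx
    induction hx using Subgroup.closure_induction with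
    | mem y hy =>
      obtain ⟨a, ha, b, -, rfl⟩ := hy
      have hc : ⁅a, b⁆ ∈ (⊤ : Subgroup X).lowerCentralSeries (i + 1) :=
        Subgroup.commutator_mem_commutator ha (Subgroup.mem_top b)
      obtain ⟨k, hk, hk1⟩ := h a ha
      refine ⟨hcen _ hc, k, hk, ?_⟩
      rw [map_commutatorElement, ← nil_pow]
      · rw [← map_pow, ← map_commutatorElement, hπ]
        exact Subgroup.commutator_mem_commutator hk1 (Subgroup.mem_top b)
      · rw [← map_commutatorElement]
        exact hcen _ hc _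
    | one => exact ⟨fun g => by rw [map_one]; exact Commute.one_left g, 1, one_ne_zero, by simp⟩
    | mul y z hy hz ihy ihz =>
      obtain ⟨h1, k, hk, hk1⟩ := ihy
      obtain ⟨h2, l, hl, hl1⟩ := ihz
      refine ⟨fun g => ?_, k * l, mul_ne_zero hk hl, ?_⟩
      · rw [map_mul]
        exact (h1 g).mul_left (h2 g)
      · rw [map_mul, (h1 _).mul_pow, pow_mul, hk1, one_pow, mul_comm k l, pow_mul, hl1, one_pow,
          mul_one]
    | inv y hy ihy =>
      obtain ⟨h1, k, hk, hk1⟩ := ihy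
      refine ⟨fun g => ?_, k, hk, ?_⟩
      · rw [map_inv]
        exact (h1 g).inv_left
      · rw [map_inv, inv_pow, hk1, inv_one]
  obtain ⟨-, k, hk, hk1⟩ := key
  refine ⟨k, hk, ?_⟩
  rw [← map_pow, hπ] at hk1
  exact hk1

theorem tors_of_comm {X : Type} [Group X] (hX : Group.IsNilpotent X)
    (h : ∀ x : X, ∃ k : ℕ, k ≠ 0 ∧ x ^ k ∈ commutator X) (x : X) :
    ∃ k : ℕ, k ≠ 0 ∧ x ^ k = 1 := by
  have h1 : ∀ i : ℕ, ∀ x ∈ (⊤ : Subgroup X).lowerCentralSeries i, ∃ k : ℕ, k ≠ 0 ∧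
      x ^ k ∈ (⊤ : Subgroup X).lowerCentralSeries (i + 1) := by
    intro i
    induction i with
    | zero =>
      intro x _
      obtain ⟨k, hk, hk1⟩ := h x
      exact ⟨k, hk, by rw [zero_add, Subgroup.top_lowerCentralSeries_one]; exact hk1⟩
    | succ i ih => exact fun x hx => nil_step i ih x hx
  have h2 : ∀ i : ℕ, ∀ x : X, ∃ k : ℕ, k ≠ 0 ∧
      x ^ k ∈ (⊤ : Subgroup X).lowerCentralSeries i := by
    intro i
    induction i with
    | zero => exact fun x => ⟨1, one_ne_zero, Subgroup.mem_top _⟩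
    | succ i ih =>
      intro x
      obtain ⟨k, hk, hk1⟩ := ih x
      obtain ⟨l, hl, hl1⟩ := h1 i _ hk1
      exact ⟨k * l, mul_ne_zero hk hl, by rw [pow_mul]; exact hl1⟩
  obtain ⟨n, hn⟩ := Subgroup.nilpotent_iff_lowerCentralSeries.1 hX
  obtain ⟨k, hk, hk1⟩ := h2 n x
  rw [hn, Subgroup.mem_bot] at hk1
  exact ⟨k, hk, hk1⟩

open scoped commutatorElement in
theorem tors_of_gen {X : Type} [Group X] (hX : Group.IsNilpotent X) (s : Set X)
    (hs : Subgroup.closure s = ⊤) (h : ∀ x ∈ s, ∃ k : ℕ, k ≠ 0 ∧ x ^ k = 1) (x : X) :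
    ∃ k : ℕ, k ≠ 0 ∧ x ^ k = 1 := by
  refine tors_of_comm hX (fun y => ?_) x
  have hy : y ∈ Subgroup.closure s := by rw [hs]; exact Subgroup.mem_top y
  have h0 : ∀ z : X, (QuotientGroup.mk' (commutator X)) z = 1 ↔ z ∈ commutator X :=
    fun z => QuotientGroup.eq_one_iff z
  have hcm : ∀ z w : X, Commute ((QuotientGroup.mk' (commutator X)) z)
      ((QuotientGroup.mk' (commutator X)) w) := by
    intro z w
    rw [← commutatorElement_eq_one_iff_commute, ← map_commutatorElement, h0]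
    exact Subgroup.commutator_mem_commutator (Subgroup.mem_top z) (Subgroup.mem_top w)
  have key : ∃ k : ℕ, k ≠ 0 ∧ ((QuotientGroup.mk' (commutator X)) y) ^ k = 1 := by
    induction hy using Subgroup.closure_induction with
    | mem z hz =>
      obtain ⟨k, hk, hk1⟩ := h z hz
      exact ⟨k, hk, by rw [← map_pow, hk1, map_one]⟩
    | one => exact ⟨1, one_ne_zero, by simp⟩
    | mul z w hz hw ihz ihw =>
      obtain ⟨k, hk, hk1⟩ := ihz
      obtain ⟨l, hl, hl1⟩ := ihw
      refine ⟨k * l, mul_ne_zero hk hl, ?_⟩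
      rw [map_mul, (hcm z w).mul_pow, pow_mul, hk1, one_pow, mul_comm k l, pow_mul, hl1, one_pow,
        mul_one]
    | inv z hz ihz =>
      obtain ⟨k, hk, hk1⟩ := ihz
      exact ⟨k, hk, by rw [map_inv, inv_pow, hk1, inv_one]⟩
  obtain ⟨k, hk, hk1⟩ := key
  exact ⟨k, hk, by rw [← map_pow, h0] at hk1; exact hk1⟩

end Pool.Agent.H63.RK
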