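import Pool.Agent.H63.RK.Nil

/-!
# Finitely generated nilpotent torsion groups are finite

Module H63 RK TFIN (MP_2a547c_gt). Complete proof: induct on `n` with `(⊤ : Subgroup H).lowerCentralSeries n = ⊥`, for all
`H`. For `n = 0` the group is trivial. For `n + 1`: `Z = (⊤ : Subgroup H).lowerCentralSeries n` is central
(`⁅Z, ⊤⁆ = lowerCentralSeries (n + 1) = ⊥`), finitely generated (`fg_lcs` of FGZ.lean) and torsion, so it is a finitely
generated commutative torsion group, which is finite (for example `CommGroup.finite_of_fg_torsion`). `H ⧸ Z` is finitely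
generated, torsion and its `lowerCentralSeries n` is trivial (`Subgroup.map_lowerCentralSeries`), so it is finite by
induction, and `H` is finite (`Finite.of_finite_quot_finite_subgroup` or similar).
-/

set_option autoImplicit false

namespace Pool.Agent.H63.RK

open Pool.Agent.H98.FJ
open scoped commutatorElement

private theorem fin_aux (n : ℕ) : ∀ (H : Type) [Group H],
    (⊤ : Subgroup H).lowerCentralSeries n = ⊥ → Group.FG H →
    (∀ x : H, ∃ k : ℕ, k ≠ 0 ∧ x ^ k = 1) → Finite H := by
  induction n with
  | zero =>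
    intro H _ h0 _ _
    rw [Subgroup.lowerCentralSeries_zero] at h0
    have : Subsingleton H := by
      rw [← Subgroup.subsingleton_iff]
      exact subsingleton_of_bot_eq_top h0.symm
    infer_instance
  | succ n ih =>
    intro H _ h0 hfg ht
    let Z : Subgroup H := (⊤ : Subgroup H).lowerCentralSeries n
    have hZc : ∀ a ∈ Z, ∀ b : H, a * b = b * a := by
      intro a ha b
      have h1 : ⁅a, b⁆ ∈ (⊤ : Subgroup H).lowerCentralSeries (n + 1) := by
        rw [Subgroup.lowerCentralSeries_succ]
        exact Subgroup.commutator_mem_commutator ha (Subgroup.mem_top b)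
      rw [h0, Subgroup.mem_bot] at h1
      exact commutatorElement_eq_one_iff_mul_comm.1 h1
    have hq0 : (⊤ : Subgroup (H ⧸ Z)).lowerCentralSeries n = ⊥ := by
      have h1 := Subgroup.map_lowerCentralSeries (⊤ : Subgroup H) (QuotientGroup.mk' Z) n
      rw [Subgroup.map_top_of_surjective _ (QuotientGroup.mk'_surjective Z)] at h1
      rw [← h1]
      exact (Subgroup.map_eq_bot_iff _).2 (by rw [QuotientGroup.ker_mk'])
    have hqfg : Group.FG (H ⧸ Z) := by
      have := hfg
      infer_instance
    have hqt : ∀ x : H ⧸ Z, ∃ k : ℕ, k ≠ 0 ∧ x ^ k = 1 := by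
      intro x
      obtain ⟨y, rfl⟩ := QuotientGroup.mk'_surjective Z x
      obtain ⟨k, hk, hy⟩ := ht y
      refine ⟨k, hk, ?_⟩
      rw [← map_pow, hy, map_one]
    have hqf : Finite (H ⧸ Z) := ih (H ⧸ Z) hq0 hqfg hqt
    have : Z.FiniteIndex := Subgroup.finiteIndex_of_finite_quotient
    have := hfg
    have hZfg : Group.FG Z := inferInstance
    let : CommGroup Z :=
      { (inferInstance : Group Z) with
        mul_comm := fun a b => Subtype.ext (hZc a.1 a.2 b.1) }
    have hZf : Finite Z := by
      refine CommGroup.finite_of_fg_isMulTorsion Z ?_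
      intro a
      obtain ⟨k, hk, ha⟩ := ht a.1
      rw [isOfFinOrder_iff_pow_eq_one]
      exact ⟨k, Nat.pos_of_ne_zero hk, Subtype.ext (by simpa using ha)⟩
    exact Finite.of_equiv _ (Subgroup.groupEquivQuotientProdSubgroup (s := Z)).symm

theorem finite_of_torsion {H : Type} [Group H] (hH : Group.IsNilpotent H) (hfg : Group.FG H)
    (h : ∀ x : H, ∃ k : ℕ, k ≠ 0 ∧ x ^ k = 1) : Finite H := by
  obtain ⟨n, hn⟩ := Subgroup.nilpotent_iff_lowerCentralSeries.1 hH
  exact fin_aux n H hn hfg h

end Pool.Agent.H63.RK
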