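import Pool.Agent.H63.RK.Defs

/-!
# The semidirect product as a colimit of HNN extensions

Module H63 RK COL (MP_2a547c_gt). Complete proof. `mv H H' h : D τ H →* D τ H'` is the map induced by the inclusion
(`dmap` with `f = id`). Functoriality: `HNNExtension.hom_ext`. `comm_t`: let `n ∈ H` and `k : ℤ`; there is a finitely
generated `H' ≥ H` such that `it τ k n ∈ H'` and `t ^ k * of n = of (it τ k n) * t ^ k` in `D τ H'`: add to `H` the finitely
many elements `it τ i n`, `|i| ≤ |k|`, and use `HNNExtension.t_mul_of` (induction on `k`, for example over `ℕ` for `t` and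
for `t⁻¹` separately). Claim: for `d : D τ H` there are a finitely generated `H' ≥ H`, `n ∈ H'` and `k : ℤ` with
`mv d = of n * t ^ k` in `D τ H'`. `HNNExtension.induction_on`: `of`, `t` clear; products:
`of n * t ^ k * (of n' * t ^ k') = of (n * it τ k n') * t ^ (k + k')` in a larger `D τ H''`; inverses:
`(of n * t ^ k)⁻¹ = t ^ (-k) * of n⁻¹`. Note that an equation in `D τ H'` remains true in `D τ H''` for `H' ≤ H''`.
`col`: apply `hC.cocone` (or `hC.colim`) to the index set `{H : Subgroup N // H.FG}` (ordered by inclusion, directed by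
`⊔`), `G H = D τ H`, the maps `mv`, and `φ H = dpi τ H : D τ H →* SD τ`. Surjective: `SD τ ∋ y = inl y.left * st ^ j`, take
`H = Subgroup.zpowers y.left`, `d = of y.left * t ^ j`. Kernel: if `dpi τ H d = 1`, take `H'`, `n`, `k` as in the claim:
`1 = dpi (mv d) = inl n * st ^ k`, so `k = 0`, `n = 1` and `mv d = 1`.
-/

/-!
# The semidirect product as a colimit of HNN extensions

Module H63 RK COL (MP_2a547c_gt). Complete proof. `mv H H' h : D τ H →* D τ H'` is the map induced by the inclusion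
(`dmap` with `f = id`). Functoriality: `HNNExtension.hom_ext`. `comm_t`: let `n ∈ H` and `k : ℤ`; there is a finitely
generated `H' ≥ H` such that `it τ k n ∈ H'` and `t ^ k * of n = of (it τ k n) * t ^ k` in `D τ H'`: add to `H` the finitely
many elements `it τ i n`, `|i| ≤ |k|`, and use `HNNExtension.t_mul_of` (induction on `k`, for example over `ℕ` for `t` and
for `t⁻¹` separately). Claim: for `d : D τ H` there are a finitely generated `H' ≥ H`, `n ∈ H'` and `k : ℤ` with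
`mv d = of n * t ^ k` in `D τ H'`. `HNNExtension.induction_on`: `of`, `t` clear; products:
`of n * t ^ k * (of n' * t ^ k') = of (n * it τ k n') * t ^ (k + k')` in a larger `D τ H''`; inverses:
`(of n * t ^ k)⁻¹ = t ^ (-k) * of n⁻¹`. Note that an equation in `D τ H'` remains true in `D τ H''` for `H' ≤ H''`.
`col`: apply `hC.cocone` (or `hC.colim`) to the index set `{H : Subgroup N // H.FG}` (ordered by inclusion, directed by
`⊔`), `G H = D τ H`, the maps `mv`, and `φ H = dpi τ H : D τ H →* SD τ`. Surjective: `SD τ ∋ y = inl y.left * st ^ j`, take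
`H = Subgroup.zpowers y.left`, `d = of y.left * t ^ j`. Kernel: if `dpi τ H d = 1`, take `H'`, `n`, `k` as in the claim:
`1 = dpi (mv d) = inl n * st ^ k`, so `k = 0`, `n = 1` and `mv d = 1`.
-/

set_option autoImplicit false

namespace Pool.Agent.H63.RK

open Pool.Agent.H98.FJ

section aux

variable {N : Type} [Group N] (τ : N ≃* N)

/-- the map induced by the inclusion -/
private def mv {H H' : Subgroup N} (h : H ≤ H') : D τ H →* D τ H' :=
  dmap τ τ (MonoidHom.id N) (fun _ => rfl) H H' (fun _ hx => h hx)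

private theorem mv_of {H H' : Subgroup N} (h : H ≤ H') (x : N) (hx : x ∈ H) :
    mv τ h (dof τ H ⟨x, hx⟩) = dof τ H' ⟨x, h hx⟩ := dmap_of _ _ _ _ _ _ _ _

private theorem mv_t {H H' : Subgroup N} (h : H ≤ H') : mv τ h (dt τ H) = dt τ H' :=
  dmap_t _ _ _ _ _ _ _

private theorem mv_id {H : Subgroup N} (h : H ≤ H) (d : D τ H) : mv τ h d = d := by
  have h1 : mv τ h = MonoidHom.id (D τ H) := by
    apply HNNExtension.hom_ext
    · ext x
      exact mv_of τ h x.1 x.2
    · exact mv_t τ h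
  rw [h1]
  rfl

private theorem mv_mv {H H' H'' : Subgroup N} (h : H ≤ H') (h' : H' ≤ H'') (d : D τ H) :
    mv τ h' (mv τ h d) = mv τ (h.trans h') d := by
  have h1 : (mv τ h').comp (mv τ h) = mv τ (h.trans h') := by
    apply HNNExtension.hom_ext
    · ext x
      rw [MonoidHom.comp_apply, MonoidHom.comp_apply, MonoidHom.comp_apply]
      have e1 := mv_of τ h x.1 x.2
      have e2 := mv_of τ h' x.1 (h x.2)
      have e3 := mv_of τ (h.trans h') x.1 x.2
      exact (congrArg (mv τ h') e1).trans (e2.trans e3.symm)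
    · rw [MonoidHom.comp_apply]
      exact (congrArg (mv τ h') (mv_t τ h)).trans ((mv_t τ h').trans (mv_t τ _).symm)
  exact DFunLike.congr_fun h1 d

private theorem dpi_mv {H H' : Subgroup N} (h : H ≤ H') (d : D τ H) :
    dpi τ H' (mv τ h d) = dpi τ H d := by
  have h1 : (dpi τ H').comp (mv τ h) = dpi τ H := by
    apply HNNExtension.hom_ext
    · ext1 x
      rw [MonoidHom.comp_apply, MonoidHom.comp_apply, MonoidHom.comp_apply]
      have e1 := mv_of τ h x.1 x.2
      exact (congrArg (dpi τ H') e1).trans ((dpi_of τ H' ⟨x.1, h x.2⟩).trans (dpi_of τ H x).symm)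
    · rw [MonoidHom.comp_apply]
      exact (congrArg (dpi τ H') (mv_t τ h)).trans ((dpi_t τ H').trans (dpi_t τ H).symm)
  exact DFunLike.congr_fun h1 d

private theorem t_of (H : Subgroup N) (a : N) (ha : a ∈ H) (ha' : τ a ∈ H) :
    dt τ H * dof τ H ⟨a, ha⟩ = dof τ H ⟨τ a, ha'⟩ * dt τ H :=
  HNNExtension.t_mul_of (A := dA τ H) (B := dB τ H) (φ := dphi τ H) ⟨⟨a, ha⟩, ha'⟩

private theorem ti_of (H : Subgroup N) (a : N) (ha : a ∈ H) (ha' : τ.symm a ∈ H) :
    (dt τ H)⁻¹ * dof τ H ⟨a, ha⟩ = dof τ H ⟨τ.symm a, ha'⟩ * (dt τ H)⁻¹ := by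
  have h1 : τ (τ.symm a) ∈ H := by
    rw [MulEquiv.apply_symm_apply]
    exact ha
  have h2 := t_of τ H (τ.symm a) ha' h1
  have h3 : (⟨τ (τ.symm a), h1⟩ : H) = ⟨a, ha⟩ := Subtype.ext (MulEquiv.apply_symm_apply τ a)
  rw [h3] at h2
  rw [inv_mul_eq_iff_eq_mul, ← mul_assoc, h2, mul_inv_cancel_right]

private theorem zp_fg (x : N) : (Subgroup.zpowers x).FG :=
  ⟨{x}, by simp [Subgroup.zpowers_eq_closure]⟩

private theorem comm_t (k : ℤ) : ∀ (H : Subgroup N), H.FG → ∀ (n : N) (hn : n ∈ H),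
    ∃ H' : Subgroup N, H'.FG ∧ ∃ hH : H ≤ H', ∃ m, ∃ hm : m ∈ H',
      ∀ (H'' : Subgroup N) (h : H' ≤ H''),
        dt τ H'' ^ k * dof τ H'' ⟨n, h (hH hn)⟩ = dof τ H'' ⟨m, h hm⟩ * dt τ H'' ^ k := by
  induction k using Int.induction_on with
  | zero =>
    intro H hF n hn
    exact ⟨H, hF, le_rfl, n, hn, fun H'' h => by rw [zpow_zero, one_mul, mul_one]⟩
  | succ i ih =>
    intro H hF n hn
    obtain ⟨H1, hF1, hH1, m, hm, h1⟩ := ih H hF n hn
    have hτ : τ m ∈ H1 ⊔ Subgroup.zpowers (τ m) :=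
      (le_sup_right : Subgroup.zpowers (τ m) ≤ _) (Subgroup.mem_zpowers _)
    refine ⟨H1 ⊔ Subgroup.zpowers (τ m), hF1.sup (zp_fg _), hH1.trans le_sup_left, τ m, hτ,
      fun H'' h => ?_⟩
    have h2 := h1 H'' (le_sup_left.trans h)
    have h3 := t_of τ H'' m (h (Subgroup.mem_sup_left hm)) (h hτ)
    have e1 : dt τ H'' ^ ((i : ℤ) + 1) = dt τ H'' * dt τ H'' ^ (i : ℤ) := by
      rw [add_comm, zpow_add, zpow_one]
    rw [e1, mul_assoc, h2, ← mul_assoc, h3, mul_assoc]
  | pred i ih =>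
    intro H hF n hn
    obtain ⟨H1, hF1, hH1, m, hm, h1⟩ := ih H hF n hn
    have hτ : τ.symm m ∈ H1 ⊔ Subgroup.zpowers (τ.symm m) :=
      (le_sup_right : Subgroup.zpowers (τ.symm m) ≤ _) (Subgroup.mem_zpowers _)
    refine ⟨H1 ⊔ Subgroup.zpowers (τ.symm m), hF1.sup (zp_fg _), hH1.trans le_sup_left,
      τ.symm m, hτ, fun H'' h => ?_⟩
    have h2 := h1 H'' (le_sup_left.trans h)
    have h3 := ti_of τ H'' m (h (Subgroup.mem_sup_left hm)) (h hτ)
    have e1 : dt τ H'' ^ (-(i : ℤ) - 1) = (dt τ H'')⁻¹ * dt τ H'' ^ (-(i : ℤ)) := by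
      rw [sub_eq_add_neg, add_comm, zpow_add, zpow_neg_one]
    rw [e1, mul_assoc, h2, ← mul_assoc, h3, mul_assoc]

private theorem nf_mono {H H' H'' : Subgroup N} (h : H ≤ H') (h' : H' ≤ H'') (d : D τ H) (m : N)
    (hm : m ∈ H') (k : ℤ) (hd : mv τ h d = dof τ H' ⟨m, hm⟩ * dt τ H' ^ k) :
    mv τ (h.trans h') d = dof τ H'' ⟨m, h' hm⟩ * dt τ H'' ^ k := by
  rw [← mv_mv τ h h' d, hd, map_mul, map_zpow, mv_of, mv_t]

private theorem norm_form (H : Subgroup N) (hF : H.FG) (d : D τ H) :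
    ∃ H' : Subgroup N, H'.FG ∧ ∃ h : H ≤ H', ∃ m, ∃ hm : m ∈ H', ∃ k : ℤ,
      mv τ h d = dof τ H' ⟨m, hm⟩ * dt τ H' ^ k := by
  induction d using HNNExtension.induction_on with
  | of g =>
    refine ⟨H, hF, le_rfl, g.1, g.2, 0, ?_⟩
    rw [zpow_zero, mul_one, mv_id]
  | t =>
    refine ⟨H, hF, le_rfl, 1, H.one_mem, 1, ?_⟩
    have h1 : (⟨1, H.one_mem⟩ : H) = 1 := rfl
    rw [zpow_one, mv_id, h1, map_one, one_mul]
  | mul x y hx hy =>
    obtain ⟨H1, hF1, h1, m1, hm1, k1, e1⟩ := hx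
    obtain ⟨H2, hF2, h2, m2, hm2, k2, e2⟩ := hy
    obtain ⟨H3, hF3, h3, m3, hm3, hc⟩ := comm_t τ k1 (H1 ⊔ H2) (hF1.sup hF2) m2
      (Subgroup.mem_sup_right hm2)
    have h13 : H1 ≤ H3 := le_sup_left.trans h3
    have h23 : H2 ≤ H3 := le_sup_right.trans h3
    have hc' := hc H3 le_rfl
    have f1 := nf_mono τ h1 h13 x m1 hm1 k1 e1
    have f2 := nf_mono τ h2 h23 y m2 hm2 k2 e2
    refine ⟨H3, hF3, h1.trans h13, m1 * m3, H3.mul_mem (h13 hm1) hm3, k1 + k2, ?_⟩
    have f3 : (⟨m1 * m3, H3.mul_mem (h13 hm1) hm3⟩ : H3) = ⟨m1, h13 hm1⟩ * ⟨m3, hm3⟩ := rfl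
    rw [map_mul, f1, f2, f3, map_mul, zpow_add, mul_assoc, ← mul_assoc (dt τ H3 ^ k1), hc']
    simp only [mul_assoc]
  | inv x hx =>
    obtain ⟨H1, hF1, h1, m1, hm1, k1, e1⟩ := hx
    obtain ⟨H3, hF3, h3, m3, hm3, hc⟩ := comm_t τ (-k1) H1 hF1 m1⁻¹ (H1.inv_mem hm1)
    have f1 := nf_mono τ h1 h3 x m1 hm1 k1 e1
    have hc' := hc H3 le_rfl
    refine ⟨H3, hF3, h1.trans h3, m3, hm3, -k1, ?_⟩
    have f3 : (⟨m1⁻¹, h3 (H1.inv_mem hm1)⟩ : H3) = (⟨m1, h3 hm1⟩ : H3)⁻¹ := rfl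
    rw [map_inv, f1, mul_inv_rev, ← zpow_neg, ← hc', f3, map_inv]

end aux

theorem col {C : (G : Type) → [Group G] → Prop} (hC : Inherits C) {N : Type} [Group N]
    (τ : N ≃* N) (h : ∀ H : Subgroup N, H.FG → C (D τ H)) : C (SD τ) := by
  haveI : IsDirectedOrder {H : Subgroup N // H.FG} :=
    ⟨fun a b => ⟨⟨a.1 ⊔ b.1, a.2.sup b.2⟩, show a.1 ≤ a.1 ⊔ b.1 from le_sup_left,
      show b.1 ≤ a.1 ⊔ b.1 from le_sup_right⟩⟩
  haveI : Nonempty {H : Subgroup N // H.FG} := ⟨⟨Subgroup.zpowers 1, zp_fg 1⟩⟩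
  haveI : DirectedSystem (fun H : {H : Subgroup N // H.FG} => D τ H.1)
      (fun a b hab => mv τ (show a.1 ≤ b.1 from hab)) :=
    { map_self := fun a x => mv_id τ _ x
      map_map := fun a b c hab hbc x => mv_mv τ _ _ x }
  refine hC.cocone (ι := {H : Subgroup N // H.FG}) (G := fun H => D τ H.1)
    (fun a b hab => mv τ (show a.1 ≤ b.1 from hab)) (fun a => dpi τ a.1) ?_ ?_ ?_
    (fun a => h a.1 a.2)
  · intro a b hab x
    exact dpi_mv τ _ x
  · intro y
    refine ⟨⟨Subgroup.zpowers y.left, zp_fg _⟩,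
      dof τ _ ⟨y.left, Subgroup.mem_zpowers _⟩ * dt τ _ ^ (Multiplicative.toAdd y.right), ?_⟩
    rw [map_mul, map_zpow, dpi_of, dpi_t]
    have h1 : st τ ^ (Multiplicative.toAdd y.right) = SemidirectProduct.inr y.right := by
      unfold st
      rw [← map_zpow, ← ofAdd_zsmul]
      congr 1
      change Multiplicative.ofAdd ((Multiplicative.toAdd y.right) • (1 : ℤ)) = y.right
      rw [smul_eq_mul, mul_one]
      rfl
    rw [h1]
    exact SemidirectProduct.inl_left_mul_inr_right y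
  · intro a x hx
    obtain ⟨H', hF', hH, m, hm, k, e⟩ := norm_form τ a.1 a.2 x
    refine ⟨⟨H', hF'⟩, hH, ?_⟩
    have h1 : dpi τ H' (mv τ hH x) = 1 := by
      rw [dpi_mv]
      exact hx
    have h2 := h1
    rw [e, map_mul, map_zpow, dpi_of, dpi_t] at h1
    have h3 := congrArg SemidirectProduct.rightHom h1
    rw [map_mul, map_zpow, map_one, SemidirectProduct.rightHom_inl, one_mul] at h3
    have h4 : SemidirectProduct.rightHom (st τ) = Multiplicative.ofAdd (1 : ℤ) := rfl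
    rw [h4, ← ofAdd_zsmul, smul_eq_mul, mul_one] at h3
    have h5 : k = 0 := by
      have := congrArg Multiplicative.toAdd h3
      simpa using this
    subst h5
    rw [zpow_zero, mul_one] at h1
    have h6 : m = 1 := by
      apply SemidirectProduct.inl_injective (φ := zpowersHom (MulAut N) τ)
      rw [h1, map_one]
    subst h6
    have h7 : (⟨1, hm⟩ : H') = 1 := rfl
    change mv τ hH x = 1
    rw [e, zpow_zero, mul_one, h7, map_one]

end Pool.Agent.H63.RK
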