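import Pool.Agent.H63.RK.PF
import Pool.Agent.H63.RK.Col
import Pool.Agent.H63.RK.Exc

/-!
# Locally finite kernels

Module H63 RK LFX (MP_2a547c_gt). Complete proof. `lf_mem`: `hC.locallyFinite` (the subgroup generated by a finite set).
`lf_ext`: `ext_sd` (Exc.lean) with `C p.ker` by `lf_mem` and, for `τ : p.ker ≃* p.ker`, `C (SD τ)` by `col` and `fin_hnn`.
-/

set_option autoImplicit false

namespace Pool.Agent.H63.RK

open Pool.Agent.H98.FJ

variable {C : (G : Type) → [Group G] → Prop}

theorem lf_mem (hC : Inherits C) {G : Type} [Group G] (hG : LocFin G) : C G := by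
  refine hC.locallyFinite ?_
  intro s
  exact ⟨Subgroup.closure (s : Set G), hG _ ⟨s, rfl⟩, Subgroup.subset_closure⟩

theorem lf_ext (hC : Inherits C) (hE : Extension C) {G Q : Type} [Group G] [Group Q]
    (p : G →* Q) (hQ : C Q) (hK : LocFin p.ker) : C G :=
  ext_sd hC hE p hQ (lf_mem hC hK) fun τ => col hC τ fun H hH => fin_hnn hC hE τ H (hK H hH)

end Pool.Agent.H63.RK
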