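import Pool.Agent.H63.RK.Exc

/-!
# Solvable groups from abelian-by-cyclic groups
-/

set_option autoImplicit false

namespace Pool.Agent.H63.RK

open Pool.Agent.H98.FJ

open scoped commutatorElement

variable {C : (G : Type) → [Group G] → Prop}

theorem solv_of (hC : Inherits C) (hE : Extension C) (hA : AbCyc C) : Solv C := by
  have key : ∀ (n : ℕ) (G : Type) [Group G], derivedSeries G n = ⊥ → C G := by
    intro n
    induction n with
    | zero =>
      intro G _ h
      have h1 : Subsingleton G := by
        constructor
        intro a b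
        have ha : a ∈ derivedSeries G 0 := Subgroup.mem_top a
        have hb : b ∈ derivedSeries G 0 := Subgroup.mem_top b
        rw [h, Subgroup.mem_bot] at ha hb
        rw [ha, hb]
      exact hC.fin G inferInstance
    | succ n ih =>
      intro G _ h
      have hab : ∀ x ∈ derivedSeries G n, ∀ y ∈ derivedSeries G n, x * y = y * x := by
        intro x hx y hy
        have h1 : ⁅x, y⁆ ∈ derivedSeries G (n + 1) := by
          rw [derivedSeries_succ]
          exact Subgroup.commutator_mem_commutator hx hy
        rw [h, Subgroup.mem_bot] at h1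
        exact commutatorElement_eq_one_iff_mul_comm.1 h1
      have hQ : C (G ⧸ derivedSeries G n) := by
        refine ih _ ?_
        have h1 := map_derivedSeries_eq (QuotientGroup.mk'_surjective (derivedSeries G n)) n
        rw [← h1]
        exact (Subgroup.map_eq_bot_iff _).2 (by rw [QuotientGroup.ker_mk'])
      refine ext_cyc hC hE (QuotientGroup.mk' (derivedSeries G n))
        (QuotientGroup.mk'_surjective _) hQ ?_
      intro v
      obtain ⟨g, rfl⟩ := QuotientGroup.mk'_surjective (derivedSeries G n) v
      have hgE : g ∈ (Subgroup.zpowers (QuotientGroup.mk' (derivedSeries G n) g)).comap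
          (QuotientGroup.mk' (derivedSeries G n)) := Subgroup.mem_zpowers _
      refine hA _ ((derivedSeries G n).subgroupOf _) ⟨g, hgE⟩ inferInstance ?_ ?_
      · intro x hx y hy
        exact Subtype.ext (hab _ hx _ hy)
      · rw [eq_top_iff]
        rintro ⟨x, hx⟩ _
        obtain ⟨i, hi⟩ := Subgroup.mem_zpowers_iff.1
          (show QuotientGroup.mk' (derivedSeries G n) x ∈ _ from hx)
        have h1 : x * (g ^ i)⁻¹ ∈ derivedSeries G n := by
          rw [← QuotientGroup.eq_one_iff]
          change QuotientGroup.mk' (derivedSeries G n) (x * (g ^ i)⁻¹) = 1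
          rw [map_mul, map_inv, map_zpow, ← hi, mul_inv_cancel]
        have h2 : (⟨x, hx⟩ : (Subgroup.zpowers (QuotientGroup.mk' (derivedSeries G n) g)).comap
            (QuotientGroup.mk' (derivedSeries G n))) =
            (⟨x, hx⟩ * (⟨g, hgE⟩ ^ i)⁻¹) * ⟨g, hgE⟩ ^ i := by
          rw [inv_mul_cancel_right]
        rw [h2]
        refine Subgroup.mul_mem_sup ?_ (Subgroup.zpow_mem_zpowers _ i)
        rw [Subgroup.mem_subgroupOf]
        exact h1
  intro G _ hG
  obtain ⟨n, hn⟩ := hG.solvable
  exact key n G hn

end Pool.Agent.H63.RK
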