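import Pool.Agent.H63.RK.LNX

/-!
# Hyper-(locally nilpotent or locally finite) kernels

Module H63 RK ZORN (MP_2a547c_gt). Complete proof. Let `𝒫` be the set of the normal subgroups `S ≤ K` of `G` with
`C (S ⊔ Subgroup.zpowers v)` for all `v : G`. `⊥ ∈ 𝒫`: cyclic groups are in the class (an infinite one is isomorphic to
`Multiplicative ℤ`, a finite one is finite; or: a quotient of `Multiplicative ℤ`). If `c ⊆ 𝒫` is a nonempty chain then
`S = sSup c` is normal, `≤ K`, and for `v : G` the group `S ⊔ zpowers v` is the directed union of the subgroups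
`S' ⊔ zpowers v`, `S' ∈ c` (`hC.union` in the group `S ⊔ zpowers v`, index set `c`; an element of `S ⊔ zpowers v` is
`s * v ^ n` with `s ∈ S`: `Subgroup.mem_sup_of_normal_left`-like). So by Zorn's lemma there is a maximal `S ∈ 𝒫`. Suppose
`S ≠ K`. By `hK` there is a normal subgroup `L ≠ ⊥` of `G ⧸ S` in `K.map (QuotientGroup.mk' S)`, locally nilpotent or
locally finite. Let `S' = L.comap (QuotientGroup.mk' S)`: normal, `S < S' ≤ K` (as `S ≤ K`). Claim: `S' ∈ 𝒫`. Let `v : G` and
`E = S' ⊔ zpowers v`. Let `q : E →* G ⧸ S` be the restriction of `mk' S` and `R = q.range`. First `C R`: let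
`p : R →* (G ⧸ S) ⧸ L` be the natural map; its range is cyclic (generated by the image of `v`), so it is in the class;
its kernel is isomorphic to a subgroup of `L` (`R ⊓ L`), so it is locally nilpotent or locally finite; apply `ln_ext` or
`lf_ext` (with `Q` the range of `p`). Now apply `ext_cyc` to `q.rangeRestrict : E → R`: for `w : R`, `w = q e`, the preimage
of `zpowers w` is contained in `S ⊔ zpowers e` (if `q x = w ^ n` then `x * e ^ (-n) ∈ S`), which is in the class as
`S ∈ 𝒫`; use `hC.of_injective`. So `C E`. This contradicts the maximality of `S`. So `K ∈ 𝒫`, and `ext_cyc` for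
`QuotientGroup.mk' K : G → G ⧸ K` (the preimage of `zpowers v`, `v = mk g`, is in `K ⊔ zpowers g`) gives `C G`.
-/

set_option autoImplicit false

namespace Pool.Agent.H63.RK

open Pool.Agent.H98.FJ

variable {C : (G : Type) → [Group G] → Prop}

private theorem cyc_mem (hS : Solv C) {G : Type} [Group G] (v : G)
    (h : ∀ x : G, x ∈ Subgroup.zpowers v) : C G := by
  refine hS G (Group.isSolvable_of_comm fun a b => ?_)
  obtain ⟨m, hm⟩ := Subgroup.mem_zpowers_iff.1 (h a)
  obtain ⟨n, hn⟩ := Subgroup.mem_zpowers_iff.1 (h b)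
  rw [← hm, ← hn, ← zpow_add, ← zpow_add, add_comm]

private theorem lf_inj {N N' : Type} [Group N] [Group N'] (f : N →* N')
    (hf : Function.Injective f) (h : LocFin N') : LocFin N := by
  intro L hL
  have h1 : (L.map f).FG := md_fg_map hL f
  have := h _ h1
  exact Finite.of_equiv _ (L.equivMapOfInjective f hf).symm.toEquiv

private theorem ln_inj {N N' : Type} [Group N] [Group N'] (f : N →* N')
    (hf : Function.Injective f) (h : LocNil N') : LocNil N := by
  intro L hL
  have h1 : (L.map f).FG := md_fg_map hL f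
  have := h _ h1
  exact Group.nilpotent_of_mulEquiv (L.equivMapOfInjective f hf).symm

private theorem cyc_pre (hC : Inherits C) {G E R : Type} [Group G] [Group E] [Group R]
    (i : E →* G) (hi : Function.Injective i) (S : Subgroup G) [S.Normal] (q : E →* R)
    (hker : ∀ x, q x = 1 → i x ∈ S) (hS : ∀ v : G, C (S ⊔ Subgroup.zpowers v : Subgroup G))
    (e : E) : C ((Subgroup.zpowers (q e)).comap q) := by
  have hm : ∀ x : (Subgroup.zpowers (q e)).comap q, i x.1 ∈ S ⊔ Subgroup.zpowers (i e) := by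
    rintro ⟨x, hx⟩
    obtain ⟨n, hn⟩ := Subgroup.mem_zpowers_iff.1 (Subgroup.mem_comap.1 hx)
    have h1 : q (x * (e ^ n)⁻¹) = 1 := by
      rw [map_mul, map_inv, map_zpow, hn, mul_inv_cancel]
    have h2 := hker _ h1
    have h3 : i x = i (x * (e ^ n)⁻¹) * (i e) ^ n := by
      rw [← map_zpow, ← map_mul, inv_mul_cancel_right]
    change i x ∈ _
    rw [h3]
    exact Subgroup.mul_mem _ (Subgroup.mem_sup_left h2)
      (Subgroup.mem_sup_right (Subgroup.zpow_mem _ (Subgroup.mem_zpowers _) n))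
  refine hC.of_injective
    ((i.comp ((Subgroup.zpowers (q e)).comap q).subtype).codRestrict
      (S ⊔ Subgroup.zpowers (i e)) hm) ?_ (hS (i e))
  intro a b hab
  apply Subtype.ext
  apply hi
  exact congrArg Subtype.val hab

private theorem chain_mem (hC : Inherits C) {G : Type} [Group G] (c : Set (Subgroup G))
    (hne : c.Nonempty) (hch : IsChain (· ≤ ·) c) (hn : (sSup c).Normal)
    (hc : ∀ S ∈ c, ∀ v : G, C (S ⊔ Subgroup.zpowers v : Subgroup G)) (v : G) :
    C (sSup c ⊔ Subgroup.zpowers v : Subgroup G) := by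
  have hdir : DirectedOn (· ≤ ·) c := hch.directedOn
  have : Nonempty c := hne.to_subtype
  have : IsDirectedOrder c := ⟨fun a b => by
    obtain ⟨x, hx, h1, h2⟩ := hdir a.1 a.2 b.1 b.2
    exact ⟨⟨x, hx⟩, h1, h2⟩⟩
  refine hC.union (ι := c)
    (fun S => (S.1 ⊔ Subgroup.zpowers v).subgroupOf (sSup c ⊔ Subgroup.zpowers v)) ?_ ?_ ?_
  · intro a b hab
    exact Subgroup.subgroupOf_mono _ (sup_le_sup_right hab _)
  · rintro ⟨g, hg⟩
    obtain ⟨s, hs, t, ht, hst⟩ := Subgroup.mem_sup_of_normal_left.1 hg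
    obtain ⟨S, hS, hsS⟩ := (Subgroup.mem_sSup_of_directedOn hne hdir).1 hs
    refine ⟨⟨S, hS⟩, ?_⟩
    rw [Subgroup.mem_subgroupOf]
    change g ∈ _
    rw [← hst]
    exact Subgroup.mul_mem _ (Subgroup.mem_sup_left hsS) (Subgroup.mem_sup_right ht)
  · rintro ⟨S, hS⟩
    have hle : S ⊔ Subgroup.zpowers v ≤ sSup c ⊔ Subgroup.zpowers v :=
      sup_le_sup_right (le_sSup hS) _
    exact hC.of_injective (Subgroup.subgroupOfEquivOfLe hle).toMonoidHom
      (Subgroup.subgroupOfEquivOfLe hle).injective (hc S hS v)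

private theorem step_mem (hC : Inherits C) (hE : Extension C) (hS : Solv C) (hA : AcylTrees C)
    {G : Type} [Group G] (S : Subgroup G) [S.Normal]
    (hSC : ∀ v : G, C (S ⊔ Subgroup.zpowers v : Subgroup G)) (L : Subgroup (G ⧸ S)) [L.Normal]
    (hL : LocNil L ∨ LocFin L) (v : G) :
    C (L.comap (QuotientGroup.mk' S) ⊔ Subgroup.zpowers v : Subgroup G) := by
  obtain ⟨E, hEdef⟩ : ∃ E, E = L.comap (QuotientGroup.mk' S) ⊔ Subgroup.zpowers v := ⟨_, rfl⟩
  rw [← hEdef]
  have hvE : v ∈ E := by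
    rw [hEdef]
    exact Subgroup.mem_sup_right (Subgroup.mem_zpowers v)
  let q : E →* G ⧸ S := (QuotientGroup.mk' S).comp E.subtype
  have hR : C q.range := by
    let p : q.range →* (G ⧸ S) ⧸ L := (QuotientGroup.mk' L).comp q.range.subtype
    have hp : C p.range := by
      have hv : p ⟨q ⟨v, hvE⟩, ⟨⟨v, hvE⟩, rfl⟩⟩ ∈ p.range := ⟨_, rfl⟩
      refine cyc_mem hS (⟨_, hv⟩ : p.range) ?_
      rintro ⟨_, ⟨⟨_, ⟨⟨x, hx⟩, rfl⟩⟩, rfl⟩⟩
      have hx' := hx
      rw [hEdef] at hx'
      obtain ⟨s, hs, t, ht, hst⟩ := Subgroup.mem_sup_of_normal_left.1 hx'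
      obtain ⟨n, hn⟩ := Subgroup.mem_zpowers_iff.1 ht
      refine Subgroup.mem_zpowers_iff.2 ⟨n, ?_⟩
      apply Subtype.ext
      change ((QuotientGroup.mk' L) ((QuotientGroup.mk' S) v)) ^ n =
        (QuotientGroup.mk' L) ((QuotientGroup.mk' S) x)
      rw [← hst, ← hn, map_mul, map_mul, map_zpow, map_zpow]
      have h1 : (QuotientGroup.mk' L) ((QuotientGroup.mk' S) s) = 1 :=
        (QuotientGroup.eq_one_iff _).2 (Subgroup.mem_comap.1 hs)
      rw [h1, one_mul]
    let j : p.rangeRestrict.ker →* L :=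
      ((q.range.subtype).comp p.rangeRestrict.ker.subtype).codRestrict L (by
        rintro ⟨r, hr⟩
        rw [MonoidHom.ker_rangeRestrict] at hr
        exact (QuotientGroup.eq_one_iff _).1 hr)
    have hj : Function.Injective j := by
      intro a b hab
      have h1 : (j a).1 = (j b).1 := congrArg Subtype.val hab
      apply Subtype.ext
      apply Subtype.ext
      exact h1
    rcases hL with hL | hL
    · exact ln_ext hC hE hS hA p.rangeRestrict hp (ln_inj j hj hL)
    · exact lf_ext hC hE p.rangeRestrict hp (lf_inj j hj hL)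
  refine ext_cyc hC hE q.rangeRestrict q.rangeRestrict_surjective hR ?_
  intro w
  obtain ⟨e, rfl⟩ := q.rangeRestrict_surjective w
  refine cyc_pre hC E.subtype E.subtype_injective S q.rangeRestrict ?_ hSC e
  intro x hx
  have h1 : q x = 1 := congrArg Subtype.val hx
  exact (QuotientGroup.eq_one_iff _).1 h1

theorem main (hC : Inherits C) (hE : Extension C) (hS : Solv C) (hA : AcylTrees C)
    {G : Type} [Group G] (K : Subgroup G) [K.Normal] (hQ : C (G ⧸ K))
    (hK : ∀ (M : Subgroup G) [M.Normal], M < K → ∃ L : Subgroup (G ⧸ M), L.Normal ∧ L ≠ ⊥ ∧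
      L ≤ K.map (QuotientGroup.mk' M) ∧ (LocNil L ∨ LocFin L)) : C G := by
  have hbot : (⊥ : Subgroup G) ∈ {S : Subgroup G | S.Normal ∧ S ≤ K ∧
      ∀ v : G, C (S ⊔ Subgroup.zpowers v : Subgroup G)} := by
    refine ⟨inferInstance, bot_le, fun v => ?_⟩
    rw [bot_sup_eq]
    refine cyc_mem hS (⟨v, Subgroup.mem_zpowers v⟩ : Subgroup.zpowers v) ?_
    rintro ⟨x, hx⟩
    obtain ⟨n, hn⟩ := Subgroup.mem_zpowers_iff.1 hx
    refine Subgroup.mem_zpowers_iff.2 ⟨n, ?_⟩
    apply Subtype.ext
    exact hn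
  obtain ⟨S, -, hmax⟩ := zorn_le_nonempty₀ {S : Subgroup G | S.Normal ∧ S ≤ K ∧
      ∀ v : G, C (S ⊔ Subgroup.zpowers v : Subgroup G)} (by
    intro c hc hch y hy
    have hne : c.Nonempty := ⟨y, hy⟩
    have hdir : DirectedOn (· ≤ ·) c := hch.directedOn
    have hn : (sSup c).Normal := by
      refine ⟨fun x hx g => ?_⟩
      obtain ⟨s, hs, hxs⟩ := (Subgroup.mem_sSup_of_directedOn hne hdir).1 hx
      exact (Subgroup.mem_sSup_of_directedOn hne hdir).2
        ⟨s, hs, (hc hs).1.conj_mem x hxs g⟩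
    refine ⟨sSup c, ⟨hn, sSup_le fun s hs => (hc hs).2.1, ?_⟩, fun z hz => le_sSup hz⟩
    exact chain_mem hC c hne hch hn fun s hs => (hc hs).2.2) ⊥ hbot
  obtain ⟨hSn, hSK, hSC⟩ := hmax.prop
  have := hSn
  have hSeq : S = K := by
    by_contra hne
    obtain ⟨L, hLn, hL0, hLK, hL⟩ := hK S (lt_of_le_of_ne hSK hne)
    have := hLn
    have hSS' : S ≤ L.comap (QuotientGroup.mk' S) := by
      intro x hx
      rw [Subgroup.mem_comap]
      have h1 : (QuotientGroup.mk' S) x = 1 := (QuotientGroup.eq_one_iff _).2 hx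
      rw [h1]
      exact L.one_mem
    have hmem : L.comap (QuotientGroup.mk' S) ∈ {S : Subgroup G | S.Normal ∧ S ≤ K ∧
        ∀ v : G, C (S ⊔ Subgroup.zpowers v : Subgroup G)} := by
      refine ⟨inferInstance, ?_, fun v => step_mem hC hE hS hA S hSC L hL v⟩
      intro x hx
      obtain ⟨k, hk, hkx⟩ := Subgroup.mem_map.1 (hLK (Subgroup.mem_comap.1 hx))
      have h1 : k⁻¹ * x ∈ S := by
        apply (QuotientGroup.eq_one_iff _).1
        change (QuotientGroup.mk' S) (k⁻¹ * x) = 1
        rw [map_mul, map_inv, hkx, inv_mul_cancel]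
      have h2 : x = k * (k⁻¹ * x) := by
        rw [mul_inv_cancel_left]
      rw [h2]
      exact K.mul_mem hk (hSK h1)
    have hle := hmax.le_of_ge hmem hSS'
    apply hL0
    rw [eq_bot_iff]
    intro y hy
    obtain ⟨g, rfl⟩ := QuotientGroup.mk'_surjective S y
    have h1 : g ∈ S := hle (Subgroup.mem_comap.2 hy)
    exact (QuotientGroup.eq_one_iff _).2 h1
  subst hSeq
  refine ext_cyc hC hE (QuotientGroup.mk' S) (QuotientGroup.mk'_surjective S) hQ ?_
  intro w
  obtain ⟨g, rfl⟩ := QuotientGroup.mk'_surjective S w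
  exact cyc_pre hC (MonoidHom.id G) (fun a b h => h) S (QuotientGroup.mk' S)
    (fun x hx => (QuotientGroup.eq_one_iff _).1 hx) hSC g

end Pool.Agent.H63.RK
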