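import Pool.Agent.H63.RK.Defs

/-!
# The last term of the lower central series of a finitely generated nilpotent group

Module H63 RK FGZ (MP_2a547c_gt). Complete proof. Write `γ i = (⊤ : Subgroup H).lowerCentralSeries i`, so `γ 0 = ⊤`,
`γ (i + 1) = ⁅γ i, ⊤⁆`. Let `S0` be a finite set generating `H`. Claim: for every `i` there is a finite set `S i ⊆ γ i`
with `γ i ≤ closure (S i) ⊔ γ (i + 1)` (so there is equality). `S 0 = S0`. Step: let
`S (i + 1) = {⁅a, b⁆ | a ∈ S i, b ∈ S0}` (finite, in `γ (i + 1)`). Let `K = closure (S (i + 1)) ⊔ γ (i + 2)`; it is normal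
in `H`, because modulo the normal subgroup `γ (i + 2)` all the elements of `γ (i + 1)` are central. To show
`γ (i + 1) ≤ K` it suffices that `⁅a, b⁆ ∈ K` for `a ∈ γ i` and `b : H` (`Subgroup.commutator_le`). Work in
`Q = H ⧸ γ (i + 2)` (or with congruences): for `a ∈ γ i` the map `b ↦ ⁅a, b⁆` is a homomorphism modulo `γ (i + 2)`, since
`⁅a, b * b'⁆ = ⁅a, b⁆ * (b * ⁅a, b'⁆ * b⁻¹)` and `⁅a, b'⁆` is central modulo `γ (i + 2)`; similarly
`⁅a * a', b⁆ = (a * ⁅a', b⁆ * a⁻¹) * ⁅a, b⁆`, so `a ↦ ⁅a, b⁆` is a homomorphism on `γ i` modulo `γ (i + 2)`. If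
`a ∈ γ (i + 1)` then `⁅a, b⁆ ∈ γ (i + 2) ≤ K`. So the set of the `a ∈ γ i` with `⁅a, b⁆ ∈ K` for all `b ∈ S0` is a
subgroup containing `S i` and `γ (i + 1)`, hence it is `γ i`; and for `a ∈ γ i` the set of the `b` with `⁅a, b⁆ ∈ K` is a
subgroup containing `S0`, hence everything. Finally for `i = n`: `γ (n + 1) = ⊥`, so `γ n = closure (S n)`.
-/

set_option autoImplicit false

namespace Pool.Agent.H63.RK

open Pool.Agent.H98.FJ

open scoped commutatorElement

/-- one step: modulo `γ (i + 2)` the commutator map is bimultiplicative on `γ i × H` -/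
theorem fg_step {H : Type} [Group H] (S0 : Set H) (h0 : Subgroup.closure S0 = ⊤) (i : ℕ)
    (S : Set H) (hS : S ⊆ ((⊤ : Subgroup H).lowerCentralSeries i : Set H))
    (hcl : (⊤ : Subgroup H).lowerCentralSeries i ≤
      Subgroup.closure S ⊔ (⊤ : Subgroup H).lowerCentralSeries (i + 1)) :
    (⊤ : Subgroup H).lowerCentralSeries (i + 1) ≤
      Subgroup.closure {x | ∃ a ∈ S, ∃ b ∈ S0, ⁅a, b⁆ = x} ⊔
        (⊤ : Subgroup H).lowerCentralSeries (i + 2) := by
  set γ := (⊤ : Subgroup H).lowerCentralSeries with hγ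
  set T : Set H := {x | ∃ a ∈ S, ∃ b ∈ S0, ⁅a, b⁆ = x} with hT
  set K : Subgroup H := Subgroup.closure T ⊔ γ (i + 2) with hK
  have hsucc : ∀ j, γ (j + 1) = ⁅γ j, (⊤ : Subgroup H)⁆ := fun j => rfl
  have hmem : ∀ j, ∀ a ∈ γ j, ∀ b : H, ⁅a, b⁆ ∈ γ (j + 1) := by
    intro j a ha b
    rw [hsucc]
    exact Subgroup.commutator_mem_commutator ha (Subgroup.mem_top b)
  have hγK : γ (i + 2) ≤ K := le_sup_right
  have hTK : ∀ a ∈ S, ∀ b ∈ S0, ⁅a, b⁆ ∈ K := fun a ha b hb =>
    (le_sup_left : Subgroup.closure T ≤ K) (Subgroup.subset_closure ⟨a, ha, b, hb, rfl⟩)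
  -- conjugation of an element of `γ (i + 1)` does not change it modulo `K`
  have hconj : ∀ z ∈ γ (i + 1), ∀ b : H, z ∈ K → b * z * b⁻¹ ∈ K := by
    intro z hz b hzK
    have h1 : ⁅z, b⁆ ∈ K := hγK (hmem (i + 1) z hz b)
    have h2 : b * z * b⁻¹ = (⁅z, b⁆)⁻¹ * z := by
      rw [commutatorElement_def]; group
    rw [h2]
    exact K.mul_mem (K.inv_mem h1) hzK
  -- fix `a`: the set of the good `b` is everything
  have key1 : ∀ a ∈ γ i, (∀ b ∈ S0, ⁅a, b⁆ ∈ K) → ∀ b : H, ⁅a, b⁆ ∈ K := by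
    intro a ha hab b
    have hb : b ∈ Subgroup.closure S0 := by rw [h0]; exact Subgroup.mem_top b
    induction hb using Subgroup.closure_induction with
    | mem x hx => exact hab x hx
    | one => rw [commutatorElement_one_right]; exact K.one_mem
    | mul x y _ _ hx hy =>
      have h1 : ⁅a, x * y⁆ = ⁅a, x⁆ * (x * ⁅a, y⁆ * x⁻¹) := by
        simp only [commutatorElement_def]; group
      rw [h1]
      exact K.mul_mem hx (hconj _ (hmem i a ha y) x hy)
    | inv x _ hx =>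
      have h1 : ⁅a, x⁻¹⁆ = x⁻¹ * (⁅a, x⁆)⁻¹ * (x⁻¹)⁻¹ := by
        simp only [commutatorElement_def]; group
      rw [h1]
      exact hconj _ ((γ (i + 1)).inv_mem (hmem i a ha x)) x⁻¹ (K.inv_mem hx)
  -- fix `b ∈ S0`: the set of the good `a` is a subgroup
  have hanti : γ (i + 1) ≤ γ i := (⊤ : Subgroup H).lowerCentralSeries_antitone (Nat.le_succ i)
  have key2 : ∀ b : H, (∀ a ∈ S, ⁅a, b⁆ ∈ K) → ∀ a ∈ γ i, ⁅a, b⁆ ∈ K := by
    intro b hb a ha
    have ha' : a ∈ Subgroup.closure (S ∪ (γ (i + 1) : Set H)) := by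
      rw [Subgroup.closure_union, Subgroup.closure_eq]
      exact hcl ha
    have hle : Subgroup.closure (S ∪ (γ (i + 1) : Set H)) ≤ γ i := by
      rw [Subgroup.closure_le]
      exact Set.union_subset hS hanti
    clear ha
    induction ha' using Subgroup.closure_induction with
    | mem x hx =>
      rcases hx with hx | hx
      · exact hb x hx
      · exact hγK (hmem (i + 1) x hx b)
    | one => rw [commutatorElement_one_left]; exact K.one_mem
    | mul x y hx' hy' hx hy =>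
      have h1 : ⁅x * y, b⁆ = (x * ⁅y, b⁆ * x⁻¹) * ⁅x, b⁆ := by
        simp only [commutatorElement_def]; group
      rw [h1]
      exact K.mul_mem (hconj _ (hmem i y (hle hy') b) x hy) hx
    | inv x hx' hx =>
      have h1 : ⁅x⁻¹, b⁆ = x⁻¹ * (⁅x, b⁆)⁻¹ * (x⁻¹)⁻¹ := by
        simp only [commutatorElement_def]; group
      rw [h1]
      exact hconj _ ((γ (i + 1)).inv_mem (hmem i x (hle hx') b)) x⁻¹ (K.inv_mem hx)
  rw [hsucc, Subgroup.commutator_le]
  intro a ha b _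
  exact key1 a ha (fun b' hb' => key2 b' (fun a' ha' => hTK a' ha' b' hb') a ha) b

theorem fg_lcs {H : Type} [Group H] (hfg : Group.FG H) (n : ℕ)
    (hn : (⊤ : Subgroup H).lowerCentralSeries (n + 1) = ⊥) :
    ((⊤ : Subgroup H).lowerCentralSeries n).FG := by
  obtain ⟨S0, h0⟩ := Group.fg_def.1 hfg
  have key : ∀ i : ℕ, ∃ S : Set H, S.Finite ∧
      S ⊆ ((⊤ : Subgroup H).lowerCentralSeries i : Set H) ∧
      (⊤ : Subgroup H).lowerCentralSeries i ≤
        Subgroup.closure S ⊔ (⊤ : Subgroup H).lowerCentralSeries (i + 1) := by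
    intro i
    induction i with
    | zero =>
      refine ⟨S0, S0.finite_toSet, fun x _ => Subgroup.mem_top x, ?_⟩
      rw [h0]
      exact le_top.trans le_sup_left
    | succ i ih =>
      obtain ⟨S, hfin, hS, hcl⟩ := ih
      refine ⟨{x | ∃ a ∈ S, ∃ b ∈ (S0 : Set H), ⁅a, b⁆ = x}, ?_, ?_, fg_step _ h0 i S hS hcl⟩
      · have h1 : {x | ∃ a ∈ S, ∃ b ∈ (S0 : Set H), ⁅a, b⁆ = x} =
            Set.image2 (fun a b : H => ⁅a, b⁆) S (S0 : Set H) := rfl
        rw [h1]
        exact hfin.image2 _ S0.finite_toSet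
      · rintro x ⟨a, ha, b, _, rfl⟩
        exact Subgroup.commutator_mem_commutator (hS ha) (Subgroup.mem_top b)
  obtain ⟨S, hfin, hS, hcl⟩ := key n
  rw [hn, sup_bot_eq] at hcl
  rw [Subgroup.fg_iff]
  exact ⟨S, le_antisymm ((Subgroup.closure_le _).2 hS) hcl, hfin⟩

end Pool.Agent.H63.RK
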