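import Pool.Agent.H63.RK.Defs

/-!
# The rank function of a finitely generated commutative group

Module H63 RK RFA (MP_2a547c_gt). Complete proof: let `M = Additive A`, a finitely generated module over `ℤ`
(noetherian). `r R = Module.finrank ℤ (AddSubgroup.toIntSubmodule R.toAddSubgroup)` (the submodule of `Additive A` with
the same elements as `R`), `k = r ⊤`. Monotone: `Submodule.finrank_mono` (modules over a noetherian ring, all submodules
are finitely generated). If `R ≤ R'` have the same finrank then the quotient of the module `R'` by (the preimage of) `R`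
has finrank `0` (`Submodule.finrank_quotient_add_finrank`), and a finitely generated module over `ℤ` of finrank `0` is
torsion (`Module.finrank_eq_zero_iff_isTorsion` or `Module.finrank_eq_zero_iff`): for every `x ∈ R'` there is an integer
`m ≠ 0` with `m • x ∈ R`; take `m.natAbs`.
-/

set_option autoImplicit false

namespace Pool.Agent.H63.RK

open Pool.Agent.H98.FJ

theorem rf_comm (A : Type) [CommGroup A] (hA : Group.FG A) : ∃ k : ℕ, RF A k := by
  haveI h0 : Module.Finite ℤ (Additive A) := Module.Finite.iff_addGroup_fg.2 (GroupFG.iff_add_fg.1 hA)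
  haveI h1 : IsNoetherian ℤ (Additive A) := isNoetherian_of_isNoetherianRing_of_finite ℤ (Additive A)
  let sm : Subgroup A → Submodule ℤ (Additive A) := fun R =>
    AddSubgroup.toIntSubmodule (Subgroup.toAddSubgroup R)
  have hmem : ∀ (R : Subgroup A) (x : A), Additive.ofMul x ∈ sm R ↔ x ∈ R := fun R x => Iff.rfl
  have hmono : ∀ R R' : Subgroup A, R ≤ R' → sm R ≤ sm R' := by
    intro R R' h x hx
    exact h hx
  refine ⟨Module.finrank ℤ (sm ⊤), fun R => Module.finrank ℤ (sm R), ?_, ?_, le_rfl⟩
  · intro R R' h
    exact Submodule.finrank_mono (hmono R R' h)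
  · intro R R' h hr x hx
    simp only at hr
    let S : Submodule ℤ (sm R') := (sm R).comap (sm R').subtype
    have hS : Module.finrank ℤ S = Module.finrank ℤ (sm R) :=
      (Submodule.comapSubtypeEquivOfLe (hmono R R' h)).finrank_eq
    have h2 := S.finrank_quotient_add_finrank
    have h3 : Module.finrank ℤ ((sm R') ⧸ S) = 0 := by omega
    rw [Module.finrank_eq_zero_iff] at h3
    obtain ⟨m, hm, hm2⟩ := h3 (Submodule.Quotient.mk ⟨Additive.ofMul x, hx⟩)
    rw [← Submodule.Quotient.mk_smul, Submodule.Quotient.mk_eq_zero] at hm2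
    have h4 : m • Additive.ofMul x ∈ sm R := hm2
    refine ⟨m.natAbs, Int.natAbs_ne_zero.2 hm, ?_⟩
    rcases Int.natAbs_eq m with h5 | h5
    · rw [h5, natCast_zsmul] at h4
      exact h4
    · rw [h5, neg_smul, natCast_zsmul] at h4
      have h6 := (sm R).neg_mem h4
      rw [neg_neg] at h6
      exact h6

end Pool.Agent.H63.RK
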