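import Pool.Agent.H63.RK.Defs

/-!
# Two quotients which separate the base

Module H63 RK CASA (MP_2a547c_gt). Complete proof. `prod_mem`: `A × B` embeds in `∀ b : Bool, cond b A B` (or use
`hC.pi` with `ι = Bool` and `G = fun b => bif b then A else B`; `hC.of_injective`). `case_a`: let
`F = (dmap τ τ1 f1 h1 H (H.map f1) _).prod (dmap τ τ2 f2 h2 H (H.map f2) _) : D τ H →* D τ1 (H.map f1) × D τ2 (H.map f2)`;
`Pool.Agent.H93.TR.hnn_mem` applies: `F.comp (dof τ H)` is injective, because `F (dof x) = 1` gives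
`dof ⟨f1 x, _⟩ = 1`, so `f1 x = 1` (`HNNExtension.of_injective`), and the same for `f2`.
-/

set_option autoImplicit false

namespace Pool.Agent.H63.RK

open Pool.Agent.H98.FJ

/-- two types -/
abbrev two (A B : Type) : Bool → Type
  | true => A
  | false => B

instance twoGroup (A B : Type) [Group A] [Group B] : ∀ b, Group (two A B b)
  | true => (inferInstance : Group A)
  | false => (inferInstance : Group B)

theorem prod_mem {C : (G : Type) → [Group G] → Prop} (hC : Inherits C) {A B : Type} [Group A]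
    [Group B] (hA : C A) (hB : C B) : C (A × B) := by
  have hG : ∀ b, C (two A B b) := fun b => by
    cases b
    · exact hB
    · exact hA
  have h := hC.pi Bool inferInstance (two A B) hG
  let g : A × B → ∀ b, two A B b := fun p b => match b with
    | true => p.1
    | false => p.2
  let φ : A × B →* ∀ b, two A B b :=
    { toFun := g
      map_one' := by
        funext b
        cases b <;> rfl
      map_mul' := by
        intro p q
        funext b
        cases b <;> rfl }
  refine hC.of_injective φ ?_ h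
  intro p q hpq
  have h1 : g p = g q := hpq
  exact Prod.ext (congrFun h1 true) (congrFun h1 false)

theorem case_a {C : (G : Type) → [Group G] → Prop} (hC : Inherits C) (hE : Extension C)
    {N N1 N2 : Type} [Group N] [Group N1] [Group N2] (τ : N ≃* N) (τ1 : N1 ≃* N1) (τ2 : N2 ≃* N2)
    (f1 : N →* N1) (h1 : ∀ x, f1 (τ x) = τ1 (f1 x)) (f2 : N →* N2) (h2 : ∀ x, f2 (τ x) = τ2 (f2 x))
    (H : Subgroup N) (hinj : ∀ x ∈ H, f1 x = 1 → f2 x = 1 → x = 1) (hD1 : C (D τ1 (H.map f1)))
    (hD2 : C (D τ2 (H.map f2))) : C (D τ H) := by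
  have g1 : ∀ x ∈ H, f1 x ∈ H.map f1 := fun _ hx => Subgroup.mem_map_of_mem f1 hx
  have g2 : ∀ x ∈ H, f2 x ∈ H.map f2 := fun _ hx => Subgroup.mem_map_of_mem f2 hx
  refine Pool.Agent.H93.TR.hnn_mem hC hE (dA τ H) (dB τ H) (dphi τ H)
    ((dmap τ τ1 f1 h1 H (H.map f1) g1).prod (dmap τ τ2 f2 h2 H (H.map f2) g2)) ?_
    (prod_mem hC hD1 hD2)
  rw [injective_iff_map_eq_one]
  intro x hx
  have e1 : dmap τ τ1 f1 h1 H (H.map f1) g1 (dof τ H x) = 1 := congrArg Prod.fst hx
  have e2 : dmap τ τ2 f2 h2 H (H.map f2) g2 (dof τ H x) = 1 := congrArg Prod.snd hx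
  rw [dmap_of] at e1 e2
  have i1 : (⟨f1 x.1, g1 x.1 x.2⟩ : H.map f1) = 1 := by
    apply HNNExtension.of_injective
    rw [map_one]
    exact e1
  have i2 : (⟨f2 x.1, g2 x.1 x.2⟩ : H.map f2) = 1 := by
    apply HNNExtension.of_injective
    rw [map_one]
    exact e2
  exact Subtype.ext (hinj x.1 x.2 (congrArg Subtype.val i1) (congrArg Subtype.val i2))

end Pool.Agent.H63.RK
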