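import Pool.Agent.H63.RK.Nil

/-!
# The isolator of a normal subgroup of a locally nilpotent group

Module H63 RK ISO (MP_2a547c_gt). Complete proof of `rt_mul`: let `L = Subgroup.closure {x, y}`, a finitely generated
subgroup, nilpotent by `hN`; `S.subgroupOf L` is normal in `L`; the group `L ⧸ S.subgroupOf L` is nilpotent and generated
by the images of `x` and `y`, which have finite order; by `tors_of_gen` (Nil.lean) the image of `x * y` has finite
order, so a power of `x * y` is in `S`. The rest is bookkeeping.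
-/

set_option autoImplicit false

namespace Pool.Agent.H63.RK

open Pool.Agent.H98.FJ

theorem rt_mul {N : Type} [Group N] (hN : LocNil N) (S : Subgroup N) (hS : S.Normal) (x y : N)
    (hx : ∃ k : ℕ, k ≠ 0 ∧ x ^ k ∈ S) (hy : ∃ k : ℕ, k ≠ 0 ∧ y ^ k ∈ S) :
    ∃ k : ℕ, k ≠ 0 ∧ (x * y) ^ k ∈ S := by
  classical
  set L : Subgroup N := Subgroup.closure {x, y} with hL
  have hxL : x ∈ L := Subgroup.subset_closure (by simp)
  have hyL : y ∈ L := Subgroup.subset_closure (by simp)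
  have hnil : Group.IsNilpotent L := hN L ⟨{x, y}, by rw [Finset.coe_pair]⟩
  have hn : (S.subgroupOf L).Normal := inferInstance
  let q : L →* L ⧸ S.subgroupOf L := QuotientGroup.mk' (S.subgroupOf L)
  have hq : Function.Surjective q := QuotientGroup.mk'_surjective _
  have hnilq : Group.IsNilpotent (L ⧸ S.subgroupOf L) := Group.nilpotent_of_surjective q hq
  have hpow : ∀ (z : L) (k : ℕ), q z ^ k = 1 ↔ (z : N) ^ k ∈ S := by
    intro z k
    rw [← map_pow]
    change QuotientGroup.mk' (S.subgroupOf L) (z ^ k) = 1 ↔ _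
    rw [QuotientGroup.mk'_apply, QuotientGroup.eq_one_iff, Subgroup.mem_subgroupOf]
    rfl
  have hgen : Subgroup.closure ({q ⟨x, hxL⟩, q ⟨y, hyL⟩} : Set (L ⧸ S.subgroupOf L)) = ⊤ := by
    have h1 : (Subgroup.closure ({⟨x, hxL⟩, ⟨y, hyL⟩} : Set L)) = ⊤ := by
      have h2 := Subgroup.closure_closure_coe_preimage (k := ({x, y} : Set N))
      rw [← h2]
      congr 1
      ext z
      simp [Subtype.ext_iff]
    have h3 : Subgroup.closure ({q ⟨x, hxL⟩, q ⟨y, hyL⟩} : Set (L ⧸ S.subgroupOf L)) =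
        (Subgroup.closure ({⟨x, hxL⟩, ⟨y, hyL⟩} : Set L)).map q := by
      rw [MonoidHom.map_closure, Set.image_pair]
    rw [h3, h1, ← MonoidHom.range_eq_map, MonoidHom.range_eq_top.2 hq]
  obtain ⟨k, hk, h⟩ := tors_of_gen hnilq _ hgen (by
    rintro z (rfl | rfl)
    · obtain ⟨k, hk, h⟩ := hx
      exact ⟨k, hk, (hpow ⟨x, hxL⟩ k).2 h⟩
    · obtain ⟨k, hk, h⟩ := hy
      exact ⟨k, hk, (hpow ⟨y, hyL⟩ k).2 h⟩) (q (⟨x, hxL⟩ * ⟨y, hyL⟩))
  exact ⟨k, hk, (hpow _ k).1 h⟩

/-- the elements which have a power in the normal subgroup `S` -/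
def rt {N : Type} [Group N] (hN : LocNil N) (S : Subgroup N) (hS : S.Normal) : Subgroup N where
  carrier := {x | ∃ k : ℕ, k ≠ 0 ∧ x ^ k ∈ S}
  one_mem' := ⟨1, one_ne_zero, by rw [one_pow]; exact S.one_mem⟩
  mul_mem' := fun {x y} hx hy => rt_mul hN S hS x y hx hy
  inv_mem' := by
    rintro x ⟨k, hk, h⟩
    exact ⟨k, hk, by rw [inv_pow]; exact S.inv_mem h⟩

section

variable {N : Type} [Group N] (hN : LocNil N) (S : Subgroup N) (hS : S.Normal)

theorem mem_rt {x : N} : x ∈ rt hN S hS ↔ ∃ k : ℕ, k ≠ 0 ∧ x ^ k ∈ S := Iff.rfl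

theorem rt_normal : (rt hN S hS).Normal := by
  constructor
  rintro x ⟨k, hk, h⟩ g
  exact ⟨k, hk, by rw [conj_pow]; exact hS.conj_mem _ h g⟩

theorem rt_isol : Isol (rt hN S hS) := by
  rintro x k hk ⟨l, hl, h⟩
  exact ⟨k * l, Nat.mul_ne_zero hk hl, by rw [pow_mul]; exact h⟩

theorem le_rt : S ≤ rt hN S hS := fun x hx => ⟨1, one_ne_zero, by rw [pow_one]; exact hx⟩

theorem rt_le {T : Subgroup N} (hT : Isol T) (h : S ≤ T) : rt hN S hS ≤ T := by
  rintro x ⟨k, hk, hx⟩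
  exact hT x k hk (h hx)

end

end Pool.Agent.H63.RK
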