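import Pool.Agent.H98.FJ.P.Ext0

/-!
# Radical kernels: the definitions of the statement
-/

set_option autoImplicit false

namespace Pool.Agent.H63.RK

/-- every finitely generated subgroup is nilpotent -/
def LocNil (N : Type) [Group N] : Prop := ∀ H : Subgroup N, H.FG → Group.IsNilpotent H

/-- every finitely generated subgroup is finite -/
def LocFin (N : Type) [Group N] : Prop := ∀ H : Subgroup N, H.FG → Finite H

/-- The class contains the abelian-by-cyclic groups. -/
def AbCyc (C : (G : Type) → [Group G] → Prop) : Prop :=
  ∀ (G : Type) [Group G] (A : Subgroup G) (g : G), A.Normal → (∀ x ∈ A, ∀ y ∈ A, x * y = y * x) →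
    A ⊔ Subgroup.zpowers g = ⊤ → C G

/-- The class is closed under acylindrical actions on trees: if a countable group acts on a tree without inversions, if
for some `k` every element which fixes two vertices at distance at least `k` is trivial and if all vertex stabilisers
are in the class, then the group is in the class. -/
def AcylTrees (C : (G : Type) → [Group G] → Prop) : Prop :=
  ∀ (G V : Type) [Group G] [Countable G] [MulAction G V] (X : SimpleGraph V), X.IsTree →
    (∀ (g : G) (v w : V), X.Adj v w → X.Adj (g • v) (g • w)) →
    (∀ (g : G) (v w : V), X.Adj v w → g • v = w → g • w ≠ v) →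
    (∃ k : ℕ, ∀ (g : G) (v w : V), k ≤ X.dist v w → g • v = v → g • w = w → g = 1) →
    (∀ v : V, C (MulAction.stabilizer G v)) → C G

end Pool.Agent.H63.RK
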