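import Pool.Agent.H93.TR.Main
import Pool.Agent.H63.RK.Stmt

/-!
# Locally nilpotent kernels: definitions

Everything is multiplicative. `D τ H` is the HNN extension of a subgroup `H` of `N` along the part of the automorphism
`τ` of `N` which is defined inside `H`; `SD τ` is the semidirect product of `N` with the infinite cyclic group, acting by
`τ`.
-/

set_option autoImplicit false

namespace Pool.Agent.H63.RK

open Pool.Agent.H98.FJ

/-- torsion-free -/
def TF (N : Type) [Group N] : Prop := ∀ (x : N) (k : ℕ), k ≠ 0 → x ^ k = 1 → x = 1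

/-- isolated subgroup: it contains an element if it contains a power of it -/
def Isol {N : Type} [Group N] (S : Subgroup N) : Prop := ∀ (x : N) (k : ℕ), k ≠ 0 → x ^ k ∈ S → x ∈ S

/-- the class contains the solvable groups -/
def Solv (C : (G : Type) → [Group G] → Prop) : Prop := ∀ (G : Type) [Group G], Group.IsSolvable G → C G

section hnn

variable {N : Type} [Group N]

/-- the elements of `H` which `τ` maps to `H` -/
def dA (τ : N ≃* N) (H : Subgroup N) : Subgroup H where
  carrier := {a | τ a.1 ∈ H}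
  one_mem' := by
    change τ 1 ∈ H
    rw [map_one]
    exact H.one_mem
  mul_mem' := by
    intro a b ha hb
    change τ (a.1 * b.1) ∈ H
    rw [map_mul]
    exact H.mul_mem ha hb
  inv_mem' := by
    intro a ha
    change τ (a.1)⁻¹ ∈ H
    rw [map_inv]
    exact H.inv_mem ha

/-- the elements of `H` which come from `H` under `τ` -/
def dB (τ : N ≃* N) (H : Subgroup N) : Subgroup H where
  carrier := {a | τ.symm a.1 ∈ H}
  one_mem' := by
    change τ.symm 1 ∈ H
    rw [map_one]
    exact H.one_mem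
  mul_mem' := by
    intro a b ha hb
    change τ.symm (a.1 * b.1) ∈ H
    rw [map_mul]
    exact H.mul_mem ha hb
  inv_mem' := by
    intro a ha
    change τ.symm (a.1)⁻¹ ∈ H
    rw [map_inv]
    exact H.inv_mem ha

theorem mem_dA {τ : N ≃* N} {H : Subgroup N} {a : H} : a ∈ dA τ H ↔ τ a.1 ∈ H := Iff.rfl

theorem mem_dB {τ : N ≃* N} {H : Subgroup N} {a : H} : a ∈ dB τ H ↔ τ.symm a.1 ∈ H := Iff.rfl

/-- the restriction of `τ` -/
def dphi (τ : N ≃* N) (H : Subgroup N) : dA τ H ≃* dB τ H where
  toFun a := ⟨⟨τ a.1.1, a.2⟩, by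
    rw [mem_dB]
    simp⟩
  invFun b := ⟨⟨τ.symm b.1.1, b.2⟩, by
    rw [mem_dA]
    simp⟩
  left_inv a := by simp
  right_inv b := by simp
  map_mul' a b := by
    apply Subtype.ext
    apply Subtype.ext
    simp

theorem dphi_val (τ : N ≃* N) (H : Subgroup N) (a : dA τ H) : (dphi τ H a).1.1 = τ a.1.1 := rfl

/-- the HNN extension -/
abbrev D (τ : N ≃* N) (H : Subgroup N) : Type := HNNExtension H (dA τ H) (dB τ H) (dphi τ H)

/-- the base of the HNN extension -/
abbrev dof (τ : N ≃* N) (H : Subgroup N) : H →* D τ H := HNNExtension.of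

/-- the stable letter -/
abbrev dt (τ : N ≃* N) (H : Subgroup N) : D τ H := HNNExtension.t

/-- the semidirect product with the infinite cyclic group -/
abbrev SD (τ : N ≃* N) : Type := N ⋊[zpowersHom (MulAut N) τ] Multiplicative ℤ

/-- the generator of the infinite cyclic group -/
def st (τ : N ≃* N) : SD τ := SemidirectProduct.inr (Multiplicative.ofAdd 1)

theorem st_mul_inl (τ : N ≃* N) (x : N) :
    st τ * SemidirectProduct.inl x = SemidirectProduct.inl (τ x) * st τ := by
  have h := SemidirectProduct.inl_aut (φ := zpowersHom (MulAut N) τ) (Multiplicative.ofAdd (1 : ℤ)) x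
  have h1 : zpowersHom (MulAut N) τ (Multiplicative.ofAdd (1 : ℤ)) x = τ x := by
    simp [zpowersHom_apply]
  rw [h1] at h
  unfold st
  rw [h, map_inv, inv_mul_cancel_right]

/-- the natural homomorphism to the semidirect product -/
def dpi (τ : N ≃* N) (H : Subgroup N) : D τ H →* SD τ :=
  HNNExtension.lift (SemidirectProduct.inl.comp H.subtype) (st τ) (by
    intro a
    rw [MonoidHom.comp_apply, MonoidHom.comp_apply]
    exact st_mul_inl τ a.1.1)

theorem dpi_of (τ : N ≃* N) (H : Subgroup N) (h : H) :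
    dpi τ H (dof τ H h) = SemidirectProduct.inl h.1 := HNNExtension.lift_of _ _ _ _

theorem dpi_t (τ : N ≃* N) (H : Subgroup N) : dpi τ H (dt τ H) = st τ := HNNExtension.lift_t _ _ _

/-- the exponent sum of the stable letter -/
def dchi (τ : N ≃* N) (H : Subgroup N) : D τ H →* Multiplicative ℤ :=
  SemidirectProduct.rightHom.comp (dpi τ H)

theorem dchi_of (τ : N ≃* N) (H : Subgroup N) (h : H) : dchi τ H (dof τ H h) = 1 := by
  unfold dchi
  rw [MonoidHom.comp_apply, dpi_of, SemidirectProduct.rightHom_inl]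

theorem dchi_t (τ : N ≃* N) (H : Subgroup N) : dchi τ H (dt τ H) = Multiplicative.ofAdd 1 := by
  unfold dchi
  rw [MonoidHom.comp_apply, dpi_t]
  rfl

theorem dpi_of_injective (τ : N ≃* N) (H : Subgroup N) :
    Function.Injective ((dpi τ H).comp (dof τ H)) := by
  intro a b hab
  rw [MonoidHom.comp_apply, MonoidHom.comp_apply, dpi_of, dpi_of] at hab
  exact Subtype.ext (SemidirectProduct.inl_injective hab)

end hnn

section maps

variable {N N' : Type} [Group N] [Group N']

/-- the homomorphism of HNN extensions induced by an equivariant homomorphism which maps `H` to `H'` -/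
def dmap (τ : N ≃* N) (τ' : N' ≃* N') (f : N →* N') (hf : ∀ x, f (τ x) = τ' (f x))
    (H : Subgroup N) (H' : Subgroup N') (hH : ∀ x ∈ H, f x ∈ H') : D τ H →* D τ' H' :=
  HNNExtension.lift ((dof τ' H').comp ((f.comp H.subtype).codRestrict H' (fun x => hH x.1 x.2)))
    (dt τ' H') (by
    intro a
    rw [MonoidHom.comp_apply, MonoidHom.comp_apply]
    have ha : (⟨f a.1.1, hH a.1.1 a.1.2⟩ : H') ∈ dA τ' H' := by
      rw [mem_dA]
      change τ' (f a.1.1) ∈ H'
      rw [← hf]
      exact hH _ a.2
    have h := HNNExtension.t_mul_of (A := dA τ' H') (B := dB τ' H') (φ := dphi τ' H')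
      ⟨⟨f a.1.1, hH a.1.1 a.1.2⟩, ha⟩
    refine Eq.trans h ?_
    congr 2
    apply Subtype.ext
    change τ' (f a.1.1) = f (τ a.1.1)
    rw [hf])

theorem dmap_of (τ : N ≃* N) (τ' : N' ≃* N') (f : N →* N') (hf : ∀ x, f (τ x) = τ' (f x))
    (H : Subgroup N) (H' : Subgroup N') (hH : ∀ x ∈ H, f x ∈ H') (x : H) :
    dmap τ τ' f hf H H' hH (dof τ H x) = dof τ' H' ⟨f x.1, hH x.1 x.2⟩ :=
  HNNExtension.lift_of _ _ _ _

theorem dmap_t (τ : N ≃* N) (τ' : N' ≃* N') (f : N →* N') (hf : ∀ x, f (τ x) = τ' (f x))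
    (H : Subgroup N) (H' : Subgroup N') (hH : ∀ x ∈ H, f x ∈ H') :
    dmap τ τ' f hf H H' hH (dt τ H) = dt τ' H' :=
  HNNExtension.lift_t _ _ _

theorem equi_zpow (τ : N ≃* N) (τ' : N' ≃* N') (f : N →* N') (hf : ∀ x, f (τ x) = τ' (f x))
    (n : ℤ) (x : N) : f ((zpowersHom (MulAut N) τ (Multiplicative.ofAdd n)) x) =
      (zpowersHom (MulAut N') τ' (Multiplicative.ofAdd n)) (f x) := by
  have h1 : ∀ (n : ℕ) (x : N), f (((τ : MulAut N) ^ n) x) = ((τ' : MulAut N') ^ n) (f x) := by
    intro n
    induction n with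
    | zero => intro x; rfl
    | succ n ih =>
      intro x
      rw [pow_succ, pow_succ, MulAut.mul_apply, MulAut.mul_apply, ih, hf]
  have h2 : ∀ (n : ℕ) (x : N), f (((τ : MulAut N) ^ n)⁻¹ x) = ((τ' : MulAut N') ^ n)⁻¹ (f x) := by
    intro n x
    have h3 := h1 n (((τ : MulAut N) ^ n)⁻¹ x)
    rw [MulAut.apply_inv_self] at h3
    rw [h3, MulAut.inv_apply_self]
  rw [zpowersHom_apply, zpowersHom_apply, toAdd_ofAdd]
  cases n with
  | ofNat n =>
    rw [Int.ofNat_eq_natCast, zpow_natCast, zpow_natCast]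
    exact h1 n x
  | negSucc n =>
    rw [zpow_negSucc, zpow_negSucc]
    exact h2 (n + 1) x

/-- the homomorphism of semidirect products induced by an equivariant homomorphism -/
def smap (τ : N ≃* N) (τ' : N' ≃* N') (f : N →* N') (hf : ∀ x, f (τ x) = τ' (f x)) :
    SD τ →* SD τ' :=
  SemidirectProduct.map f (MonoidHom.id _) (by
    intro g
    ext x
    exact equi_zpow τ τ' f hf (Multiplicative.toAdd g) x)

theorem smap_dpi (τ : N ≃* N) (τ' : N' ≃* N') (f : N →* N') (hf : ∀ x, f (τ x) = τ' (f x))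
    (H : Subgroup N) (H' : Subgroup N') (hH : ∀ x ∈ H, f x ∈ H') (d : D τ H) :
    smap τ τ' f hf (dpi τ H d) = dpi τ' H' (dmap τ τ' f hf H H' hH d) := by
  have h : (smap τ τ' f hf).comp (dpi τ H) = (dpi τ' H').comp (dmap τ τ' f hf H H' hH) := by
    apply HNNExtension.hom_ext
    · ext x
      · rw [MonoidHom.comp_apply, MonoidHom.comp_apply, MonoidHom.comp_apply, MonoidHom.comp_apply,
          dpi_of, dmap_of, dpi_of]
        rfl
      · rw [MonoidHom.comp_apply, MonoidHom.comp_apply, MonoidHom.comp_apply, MonoidHom.comp_apply,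
          dpi_of, dmap_of, dpi_of]
        rfl
    · rw [MonoidHom.comp_apply, MonoidHom.comp_apply, dpi_t, dmap_t, dpi_t]
      apply SemidirectProduct.ext
      · change f 1 = 1
        exact map_one f
      · rfl
  exact DFunLike.congr_fun h d

theorem smap_left (τ : N ≃* N) (τ' : N' ≃* N') (f : N →* N') (hf : ∀ x, f (τ x) = τ' (f x))
    (g : SD τ) : (smap τ τ' f hf g).left = f g.left := rfl

theorem smap_right (τ : N ≃* N) (τ' : N' ≃* N') (f : N →* N') (hf : ∀ x, f (τ x) = τ' (f x))
    (g : SD τ) : (smap τ τ' f hf g).right = g.right := rfl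

theorem dchi_dmap (τ : N ≃* N) (τ' : N' ≃* N') (f : N →* N') (hf : ∀ x, f (τ x) = τ' (f x))
    (H : Subgroup N) (H' : Subgroup N') (hH : ∀ x ∈ H, f x ∈ H') (d : D τ H) :
    dchi τ' H' (dmap τ τ' f hf H H' hH d) = dchi τ H d := by
  unfold dchi
  rw [MonoidHom.comp_apply, MonoidHom.comp_apply, ← smap_dpi τ τ' f hf H H' hH d]
  rfl

end maps

/-- A tree with a height function on which the group acts, the height of a vertex changing by `χ g`. -/
structure HT (G : Type) [Group G] (χ : G →* Multiplicative ℤ) where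
  V : Type
  act : MulAction G V
  X : SimpleGraph V
  h : V → ℤ
  tree : X.IsTree
  adj : ∀ (g : G) (v w : V), X.Adj v w → X.Adj (g • v) (g • w)
  hadj : ∀ v w : V, X.Adj v w → h w = h v + 1 ∨ h v = h w + 1
  hact : ∀ (g : G) (v : V), h (g • v) = h v + Multiplicative.toAdd (χ g)

attribute [instance] HT.act

/-- the element fixes a vertex of height `j` -/
def Fx {G : Type} [Group G] {χ : G →* Multiplicative ℤ} (T : HT G χ) (g : G) (j : ℤ) : Prop :=
  ∃ v : T.V, g • v = v ∧ T.h v = j

/-- the restriction of the action to a subgroup -/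
def HT.res {G : Type} [Group G] {χ : G →* Multiplicative ℤ} (T : HT G χ) (E : Subgroup G) :
    HT E (χ.comp E.subtype) where
  V := T.V
  act := inferInstance
  X := T.X
  h := T.h
  tree := T.tree
  adj := fun g v w h => T.adj (g : G) v w h
  hadj := T.hadj
  hact := fun g v => T.hact (g : G) v

/-- The group `H` has a rank function on its subgroups, with value at most `k` on the whole group: it is monotone, and
if a subgroup has the same rank as a larger one then every element of the larger one has a power in the smaller one. -/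
def RF (H : Type) [Group H] (k : ℕ) : Prop :=
  ∃ r : Subgroup H → ℕ, (∀ R R' : Subgroup H, R ≤ R' → r R ≤ r R') ∧
    (∀ R R' : Subgroup H, R ≤ R' → r R = r R' → ∀ x ∈ R', ∃ m : ℕ, m ≠ 0 ∧ x ^ m ∈ R) ∧ r ⊤ ≤ k

/-- a normal, isolated subgroup which is invariant under the automorphism -/
structure Inv {N : Type} [Group N] (τ : N ≃* N) (S : Subgroup N) : Prop where
  normal : S.Normal
  isol : Isol S
  inv : ∀ x, τ x ∈ S ↔ x ∈ S

/-- a minimal nontrivial invariant subgroup -/
structure MinInv {N : Type} [Group N] (τ : N ≃* N) (I : Subgroup N) : Prop where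
  inv : Inv τ I
  ne : I ≠ ⊥
  min : ∀ J : Subgroup N, Inv τ J → J ≤ I → J = ⊥ ∨ J = I

/-- The invariant subgroup is exhausted by a descending family of normal subgroups with trivial intersection which is
shifted by the automorphism. -/
structure Drift {N : Type} [Group N] (τ : N ≃* N) (I : Subgroup N) (F : ℤ → Subgroup N) (e : ℤ) :
    Prop where
  normal : ∀ n, (F n).Normal
  isol : ∀ n, Isol (F n)
  anti : ∀ m n, m ≤ n → F n ≤ F m
  ex : ∀ x ∈ I, ∃ n, x ∈ F n
  sep : ∀ x, (∀ n, x ∈ F n) → x = 1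
  unit : e = 1 ∨ e = -1
  shift : ∀ n x, τ x ∈ F (n + e) ↔ x ∈ F n

end Pool.Agent.H63.RK
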