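import Pool.Agent.H63.RK.Exc
import Pool.Agent.H63.RK.CasA

/-!
# Abelian kernels

Module H63 RK AB (MP_2a547c_gt). Complete proof. Let `p = dmap τ τ' f hf H (H.map f) _ : D τ H →* D τ' (H.map f)` and
`F = p.prod (dpi τ H) : D τ H →* D τ' (H.map f) × SD τ`, `E = F.range` and `q : E →* D τ' (H.map f)` the first projection
restricted to `E`. If `q y = 1`, `y = F d`, then `p d = 1` and `smap τ τ' f hf (dpi τ H d) = dpi τ' _ (p d) = 1`
(`smap_dpi`), so `(dpi τ H d).right = 1` and `f (dpi τ H d).left = 1` (`smap_left`, `smap_right`), i.e. `dpi τ H d = inl x`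
with `f x = 1`. So the kernel of `q` is commutative by `hab`, and `C E` by `abx` (Exc.lean). Now `F.rangeRestrict` is
injective on the base (`dpi_of_injective`), and `Pool.Agent.H93.TR.hnn_mem` gives `C (D τ H)`.
-/

set_option autoImplicit false

namespace Pool.Agent.H63.RK

open Pool.Agent.H98.FJ

theorem ab_mem {C : (G : Type) → [Group G] → Prop} (hC : Inherits C) (hE : Extension C)
    (hS : Solv C) {N N' : Type} [Group N] [Group N'] (τ : N ≃* N) (τ' : N' ≃* N') (f : N →* N')
    (hf : ∀ x, f (τ x) = τ' (f x)) (H : Subgroup N)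
    (hab : ∀ x y : N, f x = 1 → f y = 1 → x * y = y * x) (hD : C (D τ' (H.map f))) :
    C (D τ H) := by
  have g1 : ∀ x ∈ H, f x ∈ H.map f := fun _ hx => Subgroup.mem_map_of_mem f hx
  let p : D τ H →* D τ' (H.map f) := dmap τ τ' f hf H (H.map f) g1
  let F : D τ H →* D τ' (H.map f) × SD τ := p.prod (dpi τ H)
  let q : F.range →* D τ' (H.map f) := (MonoidHom.fst _ _).comp F.range.subtype
  have key : ∀ y : F.range, q y = 1 → ∃ x : N, f x = 1 ∧
      (y : D τ' (H.map f) × SD τ) = (1, SemidirectProduct.inl x) := by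
    rintro ⟨y, d, rfl⟩ hy
    have hy1 : p d = 1 := hy
    have h2 := smap_dpi τ τ' f hf H (H.map f) g1 d
    have h3 : smap τ τ' f hf (dpi τ H d) = 1 := by
      rw [h2]
      change dpi τ' (H.map f) (p d) = 1
      rw [hy1, map_one]
    refine ⟨(dpi τ H d).left, ?_, ?_⟩
    · rw [← smap_left τ τ' f hf, h3]
      rfl
    · refine Prod.ext hy1 ?_
      apply SemidirectProduct.ext
      · rfl
      · change (dpi τ H d).right = 1
        rw [← smap_right τ τ' f hf, h3]
        rfl
  have hCE : C F.range := by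
    refine abx hC hE hS q hD ?_
    intro a b ha hb
    obtain ⟨x, hx, hax⟩ := key a ha
    obtain ⟨y, hy, hby⟩ := key b hb
    apply Subtype.ext
    change (a : D τ' (H.map f) × SD τ) * b = b * a
    rw [hax, hby, Prod.mk_mul_mk, Prod.mk_mul_mk, ← map_mul, ← map_mul, hab x y hx hy]
  refine Pool.Agent.H93.TR.hnn_mem hC hE (dA τ H) (dB τ H) (dphi τ H) F.rangeRestrict ?_ hCE
  intro a b hab1
  apply dpi_of_injective τ H
  have h4 : F (dof τ H a) = F (dof τ H b) := congrArg Subtype.val hab1
  exact congrArg Prod.snd h4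

end Pool.Agent.H63.RK
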