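import Pool.Agent.H63.RK.Iso

/-!
# Relations in a minimal invariant subgroup

Module H63 RK CHA (MP_2a547c_gt). Complete proof. `it_*`: `MulAut N` is a group, `it τ j = τ ^ j` there. `nc_mono`,
`xs_mono`: `Subgroup.closure_mono`. `it_nc`, `it_xs`: the automorphism `it τ j` maps the generators to generators
(`Subgroup.map_le_iff_le_comap`, `Subgroup.closure_le`; `it τ j (it τ i x) = it τ (j + i) x`).

`relation`: let `G (H0, P0) = ⁅Xs τ x H0 P0, Xs τ x H0 P0⁆`, for finitely generated `H0` and finite `P0 ⊆ P`. It is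
monotone in `(H0, P0)` (`xs_mono`, `Subgroup.commutator_mono`) and the pairs are directed (`H0 ⊔ H0'`, `P0 ∪ P0'`), so the
set `U` of the elements which belong to some `G (H0, P0)` is a subgroup. To show `⁅I, I⁆ ≤ U` it suffices that `⁅a, b⁆ ∈ U`
for `a, b ∈ I` (`Subgroup.commutator_le`). By `hP` there is `k ≠ 0` such that `a ^ k` is in the normal closure of
`{it τ j x | j ∈ P}`, which is the closure of the elements `h * it τ j x * h⁻¹`, `h : N`, `j ∈ P`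
(`Subgroup.normalClosure`, `Group.conjugatesOfSet`); so (closure induction, directedness) `a ^ k ∈ nc τ x H0 P0` for some
finitely generated `H0` and finite `P0 ⊆ P`, and we may enlarge `H0` so that `a ∈ H0`. So `a ∈ Xs τ x H0 P0`, the same
for `b`; take a common pair. Now `x ^ k ∈ ⁅I, I⁆` is in some `G (H0, P0)`; enlarge `H0` so that `x ∈ H0`.
-/

set_option autoImplicit false

namespace Pool.Agent.H63.RK

open Pool.Agent.H98.FJ

/-- the iterates of the automorphism -/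
def it {N : Type} [Group N] (τ : N ≃* N) (j : ℤ) : N ≃* N := ((τ : MulAut N) ^ j : MulAut N)

/-- the subgroup generated by the conjugates by elements of `H` of the elements `τ ^ j x`, `j ∈ P` -/
def nc {N : Type} [Group N] (τ : N ≃* N) (x : N) (H : Subgroup N) (P : Set ℤ) : Subgroup N :=
  Subgroup.closure {y | ∃ h ∈ H, ∃ j ∈ P, y = h * it τ j x * h⁻¹}

/-- the subgroup generated by the elements of `H` which have a power in `nc τ x H P` -/
def Xs {N : Type} [Group N] (τ : N ≃* N) (x : N) (H : Subgroup N) (P : Set ℤ) : Subgroup N :=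
  Subgroup.closure {z | z ∈ H ∧ ∃ k : ℕ, k ≠ 0 ∧ z ^ k ∈ nc τ x H P}

section

variable {N : Type} [Group N] (τ : N ≃* N)

theorem it_zero (x : N) : it τ 0 x = x := by
  change ((τ : MulAut N) ^ (0 : ℤ)) x = x
  rw [zpow_zero]
  rfl

theorem it_one (x : N) : it τ 1 x = τ x := by
  change ((τ : MulAut N) ^ (1 : ℤ)) x = τ x
  rw [zpow_one]

theorem it_add (i j : ℤ) (x : N) : it τ (i + j) x = it τ i (it τ j x) := by
  change ((τ : MulAut N) ^ (i + j)) x = ((τ : MulAut N) ^ i) (((τ : MulAut N) ^ j) x)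
  rw [zpow_add]
  rfl

theorem it_mem {S : Subgroup N} (hS : ∀ x, τ x ∈ S ↔ x ∈ S) (j : ℤ) (x : N) :
    it τ j x ∈ S ↔ x ∈ S := by
  induction j with
  | zero => rw [it_zero]
  | succ n ih =>
    have h : it τ ((n : ℤ) + 1) x = τ (it τ n x) := by
      rw [add_comm, it_add, it_one]
    rw [h, hS, ih]
  | pred n ih =>
    have h : it τ (-(n : ℤ)) x = τ (it τ (-(n : ℤ) - 1) x) := by
      rw [← it_one τ (it τ (-(n : ℤ) - 1) x), ← it_add]
      congr 1
      ring_nf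
    rw [← ih, h, hS]

theorem nc_mono (x : N) {H H' : Subgroup N} {P P' : Set ℤ} (hH : H ≤ H') (hP : P ⊆ P') :
    nc τ x H P ≤ nc τ x H' P' := by
  apply Subgroup.closure_mono
  rintro y ⟨h, hh, j, hj, rfl⟩
  exact ⟨h, hH hh, j, hP hj, rfl⟩

theorem xs_mono (x : N) {H H' : Subgroup N} {P P' : Set ℤ} (hH : H ≤ H') (hP : P ⊆ P') :
    Xs τ x H P ≤ Xs τ x H' P' := by
  apply Subgroup.closure_mono
  rintro z ⟨hz, k, hk, h⟩
  exact ⟨hH hz, k, hk, nc_mono τ x hH hP h⟩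

theorem it_nc (x : N) (H : Subgroup N) (P : Set ℤ) (j : ℤ) :
    (nc τ x H P).map (it τ j).toMonoidHom ≤
      nc τ x (H.map (it τ j).toMonoidHom) ((fun i => j + i) '' P) := by
  rw [Subgroup.map_le_iff_le_comap]
  unfold nc
  rw [Subgroup.closure_le]
  rintro y ⟨h, hh, i, hi, rfl⟩
  apply Subgroup.subset_closure
  refine ⟨it τ j h, ⟨h, hh, rfl⟩, j + i, ⟨i, hi, rfl⟩, ?_⟩
  change it τ j (h * it τ i x * h⁻¹) = _
  rw [map_mul, map_mul, map_inv, it_add]

theorem it_xs (x : N) (H : Subgroup N) (P : Set ℤ) (j : ℤ) :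
    (Xs τ x H P).map (it τ j).toMonoidHom ≤
      Xs τ x (H.map (it τ j).toMonoidHom) ((fun i => j + i) '' P) := by
  rw [Subgroup.map_le_iff_le_comap]
  conv_lhs => unfold Xs
  rw [Subgroup.closure_le]
  rintro z ⟨hz, k, hk, h⟩
  apply Subgroup.subset_closure
  refine ⟨⟨z, hz, rfl⟩, k, hk, ?_⟩
  apply it_nc τ x H P j
  refine ⟨z ^ k, h, ?_⟩
  exact map_pow (it τ j).toMonoidHom z k

theorem relation (x : N) (I : Subgroup N) (P : Set ℤ)
    (hP : ∀ y ∈ I, ∃ k : ℕ, k ≠ 0 ∧ y ^ k ∈ Subgroup.normalClosure {z | ∃ j ∈ P, z = it τ j x})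
    (hI : ∃ k : ℕ, k ≠ 0 ∧ x ^ k ∈ ⁅I, I⁆) :
    ∃ (H0 : Subgroup N) (P0 : Set ℤ), H0.FG ∧ P0.Finite ∧ P0 ⊆ P ∧ x ∈ H0 ∧
      ∃ k : ℕ, k ≠ 0 ∧ x ^ k ∈ ⁅Xs τ x H0 P0, Xs τ x H0 P0⁆ := by
  -- powers lie in some `nc`
  have hnc : ∀ y ∈ Subgroup.normalClosure {z | ∃ j ∈ P, z = it τ j x},
      ∃ (H0 : Subgroup N) (P0 : Set ℤ), H0.FG ∧ P0.Finite ∧ P0 ⊆ P ∧ y ∈ nc τ x H0 P0 := by
    intro y hy
    unfold Subgroup.normalClosure at hy
    induction hy using Subgroup.closure_induction with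
    | mem z hz =>
      rw [Group.mem_conjugatesOfSet_iff] at hz
      obtain ⟨a, ⟨j, hj, rfl⟩, hc⟩ := hz
      rw [isConj_iff] at hc
      obtain ⟨h, rfl⟩ := hc
      refine ⟨Subgroup.closure {h}, {j}, ⟨{h}, by simp⟩, Set.finite_singleton j, by simpa using hj, ?_⟩
      exact Subgroup.subset_closure
        ⟨h, Subgroup.subset_closure rfl, j, rfl, rfl⟩
    | one => exact ⟨⊥, ∅, ⟨∅, by simp⟩, Set.finite_empty, Set.empty_subset _, Subgroup.one_mem _⟩
    | mul a b _ _ iha ihb =>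
      obtain ⟨H1, P1, f1, g1, s1, m1⟩ := iha
      obtain ⟨H2, P2, f2, g2, s2, m2⟩ := ihb
      exact ⟨H1 ⊔ H2, P1 ∪ P2, f1.sup f2, g1.union g2, Set.union_subset s1 s2,
        Subgroup.mul_mem _ (nc_mono τ x le_sup_left Set.subset_union_left m1)
          (nc_mono τ x le_sup_right Set.subset_union_right m2)⟩
    | inv a _ iha =>
      obtain ⟨H1, P1, f1, g1, s1, m1⟩ := iha
      exact ⟨H1, P1, f1, g1, s1, Subgroup.inv_mem _ m1⟩
  have hxs : ∀ y ∈ I, ∃ (H0 : Subgroup N) (P0 : Set ℤ), H0.FG ∧ P0.Finite ∧ P0 ⊆ P ∧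
      y ∈ Xs τ x H0 P0 := by
    intro y hy
    obtain ⟨k, hk, h⟩ := hP y hy
    obtain ⟨H1, P1, f1, g1, s1, m1⟩ := hnc _ h
    refine ⟨H1 ⊔ Subgroup.closure {y}, P1, f1.sup ⟨{y}, by simp⟩, g1, s1, ?_⟩
    apply Subgroup.subset_closure
    refine ⟨le_sup_right (a := H1) (Subgroup.subset_closure rfl), k, hk, ?_⟩
    exact nc_mono τ x le_sup_left le_rfl m1
  let U : Subgroup N :=
    { carrier := {y | ∃ (H0 : Subgroup N) (P0 : Set ℤ), H0.FG ∧ P0.Finite ∧ P0 ⊆ P ∧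
        y ∈ ⁅Xs τ x H0 P0, Xs τ x H0 P0⁆}
      one_mem' := ⟨⊥, ∅, ⟨∅, by simp⟩, Set.finite_empty, Set.empty_subset _,
        Subgroup.one_mem _⟩
      mul_mem' := by
        rintro a b ⟨H1, P1, f1, g1, s1, m1⟩ ⟨H2, P2, f2, g2, s2, m2⟩
        have e1 := xs_mono τ x (le_sup_left : H1 ≤ H1 ⊔ H2) (Set.subset_union_left : P1 ⊆ P1 ∪ P2)
        have e2 := xs_mono τ x (le_sup_right : H2 ≤ H1 ⊔ H2) (Set.subset_union_right : P2 ⊆ P1 ∪ P2)
        exact ⟨H1 ⊔ H2, P1 ∪ P2, f1.sup f2, g1.union g2, Set.union_subset s1 s2,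
          Subgroup.mul_mem _ (Subgroup.commutator_mono e1 e1 m1)
            (Subgroup.commutator_mono e2 e2 m2)⟩
      inv_mem' := by
        rintro a ⟨H1, P1, f1, g1, s1, m1⟩
        exact ⟨H1, P1, f1, g1, s1, Subgroup.inv_mem _ m1⟩ }
  have hIU : ⁅I, I⁆ ≤ U := by
    rw [Subgroup.commutator_le]
    intro a ha b hb
    obtain ⟨H1, P1, f1, g1, s1, m1⟩ := hxs a ha
    obtain ⟨H2, P2, f2, g2, s2, m2⟩ := hxs b hb
    refine ⟨H1 ⊔ H2, P1 ∪ P2, f1.sup f2, g1.union g2, Set.union_subset s1 s2, ?_⟩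
    exact Subgroup.commutator_mem_commutator
      (xs_mono τ x le_sup_left Set.subset_union_left m1)
      (xs_mono τ x le_sup_right Set.subset_union_right m2)
  obtain ⟨k, hk, hxk⟩ := hI
  obtain ⟨H1, P1, f1, g1, s1, m1⟩ := hIU hxk
  have e1 := xs_mono τ x (le_sup_left : H1 ≤ H1 ⊔ Subgroup.closure {x}) (le_refl P1)
  refine ⟨H1 ⊔ Subgroup.closure {x}, P1, f1.sup ⟨{x}, by simp⟩, g1, s1,
    le_sup_right (a := H1) (Subgroup.subset_closure rfl), k, hk, ?_⟩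
  exact Subgroup.commutator_mono e1 e1 m1

end

end Pool.Agent.H63.RK
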