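import Pool.Agent.H63.RK.CH1

/-!
# Relations from the right and from the left are not both possible

Module H63 RK CHB (MP_2a547c_gt). Complete proof. Let `H1, P1, k1` come from the first relation and `H2, P2, k2` from the
second one. Choose `m : ℕ` with `P1 ⊆ [1, m]` and `P2 ⊆ [-m, -1]` (finite sets). Let
`H = ⨆ j ∈ [-m, m], (H1 ⊔ H2).map (it τ j)`: a finitely generated subgroup, so `H` is nilpotent (`hN`), and `H1 ≤ H`,
`H2 ≤ H`, `(Hi).map (it τ j) ≤ H` for `|j| ≤ m`. Let `P = {j | -m ≤ j ∧ j ≤ m}` and `X = Xs τ x H P`.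
Claim 1: for `-m ≤ j ≤ m` some power `(it τ j x) ^ k`, `k ≠ 0`, is in `⁅X, X⁆`. For `j ≤ 0` apply `it τ j` to the first
relation: `(it τ j x) ^ k1 ∈ ⁅(Xs τ x H1 P1).map (it τ j), ..⁆ ≤ ⁅X, X⁆` (`it_xs`, `xs_mono`, `Subgroup.map_commutator`,
`Subgroup.commutator_mono`), because `j + i ∈ [-m, m]` for `i ∈ [1, m]`; for `j > 0` apply `it τ j` to the second relation.
Claim 2: every `z ∈ X` has a power `z ^ k ∈ ⁅X, X⁆`, `k ≠ 0`. Note that all elements of `nc τ x H P` and of `X` are in `H`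
(`it τ j x ∈ H` for `|j| ≤ m`, because `x ∈ H1`). `X` is normalised by `H`: a conjugate by `h ∈ H` of a generator of
`nc τ x H P` (of `X`) is again one; so `⁅X, X⁆` is normalised by `H`. Consider the set `R` of the `z ∈ H` with a power in
`⁅X, X⁆`. Working in the nilpotent group `H` with the normal subgroup `⁅X, X⁆.subgroupOf H`, `rt` of Iso.lean shows
that `R` is a subgroup, normalised by `H`, and that `z ∈ R` if `z ∈ H` has a power in `R`. By Claim 1 `it τ j x ∈ R` for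
`|j| ≤ m`, hence `nc τ x H P ≤ R` and then `X ≤ R`.
So the group `X` is nilpotent (a subgroup of `H`: `X.subgroupOf H` or `LocNil` applied directly if convenient; a subgroup
of a nilpotent group is nilpotent and `X ≃* X.subgroupOf H`) and every element of it has a power in `commutator X`
(`⁅X, X⁆` is the image of `commutator X`: `Subgroup.map_subtype_commutator`); by `tors_of_comm` (Nil.lean) all elements of `X`
have finite order, so `X` is trivial by `hT`. But `x ∈ X` (`j = 0`, `h = 1`, `k = 1`). So `x = 1`.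
-/

set_option autoImplicit false

namespace Pool.Agent.H63.RK

open Pool.Agent.H98.FJ

private theorem fg_map {A B : Type} [Group A] [Group B] (f : A →* B) {H : Subgroup A}
    (h : H.FG) : (H.map f).FG := by
  classical
  obtain ⟨s, rfl⟩ := h
  refine ⟨s.image f, ?_⟩
  rw [Finset.coe_image, MonoidHom.map_closure]

section conj

variable {N : Type} [Group N] (τ : N ≃* N) (x : N) (H : Subgroup N) (P : Set ℤ)

private theorem conj_nc {h : N} (hh : h ∈ H) : (nc τ x H P).map (MulAut.conj h).toMonoidHom ≤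
    nc τ x H P := by
  rw [Subgroup.map_le_iff_le_comap]
  conv_lhs => unfold nc
  rw [Subgroup.closure_le]
  rintro y ⟨h', hh', j, hj, rfl⟩
  apply Subgroup.subset_closure
  refine ⟨h * h', H.mul_mem hh hh', j, hj, ?_⟩
  change h * (h' * it τ j x * h'⁻¹) * h⁻¹ = h * h' * it τ j x * (h * h')⁻¹
  group

private theorem conj_xs {h : N} (hh : h ∈ H) : (Xs τ x H P).map (MulAut.conj h).toMonoidHom ≤
    Xs τ x H P := by
  rw [Subgroup.map_le_iff_le_comap]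
  conv_lhs => unfold Xs
  rw [Subgroup.closure_le]
  rintro z ⟨hz, k, hk, hzk⟩
  apply Subgroup.subset_closure
  refine ⟨?_, k, hk, ?_⟩
  · change h * z * h⁻¹ ∈ H
    exact H.mul_mem (H.mul_mem hh hz) (H.inv_mem hh)
  · apply conj_nc τ x H P hh
    exact ⟨z ^ k, hzk, map_pow (MulAut.conj h).toMonoidHom z k⟩

private theorem conj_comm {h : N} (hh : h ∈ H) {y : N} (hy : y ∈ ⁅Xs τ x H P, Xs τ x H P⁆) :
    h * y * h⁻¹ ∈ ⁅Xs τ x H P, Xs τ x H P⁆ := by
  have h1 : (⁅Xs τ x H P, Xs τ x H P⁆).map (MulAut.conj h).toMonoidHom ≤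
      ⁅Xs τ x H P, Xs τ x H P⁆ := by
    rw [Subgroup.map_commutator]
    exact Subgroup.commutator_mono (conj_xs τ x H P hh) (conj_xs τ x H P hh)
  exact h1 ⟨y, hy, rfl⟩

private theorem xs_le : Xs τ x H P ≤ H := by
  unfold Xs
  rw [Subgroup.closure_le]
  rintro z ⟨hz, -⟩
  exact hz

end conj

theorem no_relations {N : Type} [Group N] (hN : LocNil N) (hT : TF N) (τ : N ≃* N) (x : N)
    (h1 : ∃ (H0 : Subgroup N) (P0 : Set ℤ), H0.FG ∧ P0.Finite ∧ (∀ j ∈ P0, 1 ≤ j) ∧ x ∈ H0 ∧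
      ∃ k : ℕ, k ≠ 0 ∧ x ^ k ∈ ⁅Xs τ x H0 P0, Xs τ x H0 P0⁆)
    (h2 : ∃ (H0 : Subgroup N) (P0 : Set ℤ), H0.FG ∧ P0.Finite ∧ (∀ j ∈ P0, j ≤ -1) ∧ x ∈ H0 ∧
      ∃ k : ℕ, k ≠ 0 ∧ x ^ k ∈ ⁅Xs τ x H0 P0, Xs τ x H0 P0⁆) : x = 1 := by
  obtain ⟨H1, P1, f1, g1, s1, m1, k1, hk1, r1⟩ := h1
  obtain ⟨H2, P2, f2, g2, s2, m2, k2, hk2, r2⟩ := h2
  obtain ⟨M1, hM1⟩ := g1.bddAbove
  obtain ⟨M2, hM2⟩ := g2.bddBelow
  have hM1' : ∀ j ∈ P1, j ≤ M1 := fun j hj => hM1 hj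
  have hM2' : ∀ j ∈ P2, M2 ≤ j := fun j hj => hM2 hj
  set m : ℤ := |M1| + |M2| with hm
  have hm1 : ∀ j ∈ P1, j ≤ m := fun j hj => by
    have := hM1' j hj
    have := le_abs_self M1
    have := abs_nonneg M2
    omega
  have hm2 : ∀ j ∈ P2, -m ≤ j := fun j hj => by
    have := hM2' j hj
    have := neg_abs_le M2
    have := abs_nonneg M1
    omega
  have hm0 : 0 ≤ m := add_nonneg (abs_nonneg _) (abs_nonneg _)
  let F : ℤ → Subgroup N := fun j => (H1 ⊔ H2).map (it τ j).toMonoidHom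
  let H : Subgroup N := (Finset.Icc (-m) m).sup F
  have hFH : ∀ j, -m ≤ j → j ≤ m → F j ≤ H := fun j a b =>
    Finset.le_sup (f := F) (Finset.mem_Icc.2 ⟨a, b⟩)
  have hHfg : H.FG := Subgroup.FG.finset_sup _ _ fun j _ => fg_map _ (f1.sup f2)
  have hnil : Group.IsNilpotent H := hN H hHfg
  let P : Set ℤ := {j | -m ≤ j ∧ j ≤ m}
  have hxH : ∀ j ∈ P, it τ j x ∈ H := fun j hj =>
    hFH j hj.1 hj.2 ⟨x, le_sup_left (b := H2) m1, rfl⟩
  set X := Xs τ x H P with hX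
  have hXH : X ≤ H := xs_le τ x H P
  -- claim 1
  have key : ∀ (H0 : Subgroup N) (P0 : Set ℤ) (j : ℤ), H0 ≤ H1 ⊔ H2 → -m ≤ j → j ≤ m →
      (∀ i ∈ P0, -m ≤ j + i ∧ j + i ≤ m) → ∀ k : ℕ,
      x ^ k ∈ ⁅Xs τ x H0 P0, Xs τ x H0 P0⁆ → (it τ j x) ^ k ∈ ⁅X, X⁆ := by
    intro H0 P0 j h0 a b hi k hk
    have e1 : (Xs τ x H0 P0).map (it τ j).toMonoidHom ≤ X := by
      refine (it_xs τ x H0 P0 j).trans (xs_mono τ x ?_ ?_)
      · exact (Subgroup.map_mono h0).trans (hFH j a b)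
      · rintro _ ⟨i, hi', rfl⟩
        exact hi i hi'
    have e2 : (⁅Xs τ x H0 P0, Xs τ x H0 P0⁆).map (it τ j).toMonoidHom ≤ ⁅X, X⁆ := by
      rw [Subgroup.map_commutator]
      exact Subgroup.commutator_mono e1 e1
    have e3 : (it τ j).toMonoidHom (x ^ k) ∈ ⁅X, X⁆ := e2 ⟨x ^ k, hk, rfl⟩
    rwa [map_pow] at e3
  have claim1 : ∀ j ∈ P, ∃ k : ℕ, k ≠ 0 ∧ (it τ j x) ^ k ∈ ⁅X, X⁆ := by
    rintro j ⟨a, b⟩
    rcases le_or_gt j 0 with h | h
    · refine ⟨k1, hk1, key H1 P1 j le_sup_left a b (fun i hi => ?_) k1 r1⟩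
      have := s1 i hi
      have := hm1 i hi
      omega
    · refine ⟨k2, hk2, key H2 P2 j le_sup_right a b (fun i hi => ?_) k2 r2⟩
      have := s2 i hi
      have := hm2 i hi
      omega
  -- claim 2
  have hN' : LocNil H := fun K _ => by
    haveI := hnil
    infer_instance
  have hS : ((⁅X, X⁆).subgroupOf H).Normal := by
    constructor
    intro y hy h
    rw [Subgroup.mem_subgroupOf] at hy ⊢
    exact conj_comm τ x H P h.2 hy
  let R : Subgroup H := rt hN' _ hS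
  have hnc : nc τ x H P ≤ R.map H.subtype := by
    unfold nc
    rw [Subgroup.closure_le]
    rintro y ⟨h, hh, j, hj, rfl⟩
    obtain ⟨k, hk, hjk⟩ := claim1 j hj
    have e : (⟨it τ j x, hxH j hj⟩ : H) ∈ R := ⟨k, hk, by
      rw [Subgroup.mem_subgroupOf]
      exact hjk⟩
    exact ⟨⟨h, hh⟩ * ⟨it τ j x, hxH j hj⟩ * ⟨h, hh⟩⁻¹,
      (rt_normal hN' _ hS).conj_mem _ e ⟨h, hh⟩, rfl⟩
  have hXR : X ≤ R.map H.subtype := by
    rw [hX]
    unfold Xs
    rw [Subgroup.closure_le]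
    rintro z ⟨hz, k, hk, hzk⟩
    obtain ⟨w, hw, hwz⟩ := hnc hzk
    have e : (⟨z, hz⟩ : H) ^ k ∈ R := by
      have : (⟨z, hz⟩ : H) ^ k = w := Subtype.ext hwz.symm
      rw [this]
      exact hw
    exact ⟨⟨z, hz⟩, rt_isol hN' _ hS _ k hk e, rfl⟩
  have claim2 : ∀ z ∈ X, ∃ k : ℕ, k ≠ 0 ∧ z ^ k ∈ ⁅X, X⁆ := by
    intro z hz
    obtain ⟨w, ⟨k, hk, hw⟩, rfl⟩ := hXR hz
    exact ⟨k, hk, hw⟩
  have hXnil : Group.IsNilpotent X := by
    haveI := hnil
    exact Group.nilpotent_of_mulEquiv (Subgroup.subgroupOfEquivOfLe hXH)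
  have hxX : x ∈ X := by
    apply Subgroup.subset_closure
    refine ⟨?_, 1, one_ne_zero, ?_⟩
    · have := hxH 0 ⟨by omega, hm0⟩
      rwa [it_zero] at this
    · rw [pow_one]
      apply Subgroup.subset_closure
      exact ⟨1, H.one_mem, 0, ⟨by omega, hm0⟩, by rw [it_zero]; simp⟩
  obtain ⟨k, hk, hxk⟩ := tors_of_comm hXnil (fun z => by
    obtain ⟨k, hk, h⟩ := claim2 z.1 z.2
    rw [← Subgroup.map_subtype_commutator] at h
    obtain ⟨w, hw, hwz⟩ := h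
    refine ⟨k, hk, ?_⟩
    have : z ^ k = w := Subtype.ext hwz.symm
    rw [this]
    exact hw) ⟨x, hxX⟩
  exact hT x k hk (by simpa using congrArg Subtype.val hxk)

end Pool.Agent.H63.RK
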