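import Pool.Agent.H63.RK.CH2

/-!
# Minimal invariant subgroups are abelian or drifting

Module H63 RK CHC (MP_2a547c_gt). Complete proof. Suppose `I` is not abelian; pick `x, y ∈ I` with `x * y ≠ y * x`; `x ≠ 1`.
For a set `P` of integers let `V P = rt hN (Subgroup.normalClosure {z | ∃ j ∈ P, z = it τ j x}) _`: it is normal and
isolated, `V P ≤ I` (`rt_le`, `Subgroup.normalClosure_le_normal`, `it_mem`), monotone in `P`, and
`τ z ∈ V (P + 1) ↔ z ∈ V P` (`P + 1 = {j | j - 1 ∈ P}`): the automorphism `τ` maps the normal closure of a set onto the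
normal closure of the image, `τ (it τ j x) = it τ (j + 1) x`. Let `F n = V {j | n ≤ j}` and `E n = V {j | j ≤ n}`.
(a) If `⨅ n, F n = ⊥`: the union `⋃ F n` (a directed union of normal isolated subgroups: `F` is antitone) is a subgroup
`W`, normal, isolated, `τ`-invariant, in `I`, and contains `x ≠ 1` (`x = it τ 0 x ∈ F 0`), so `W = I` by minimality. So
`Drift τ I F 1`.
(b) If `⨅ n, E n = ⊥`: in the same way `Drift τ I (fun n => E (-n)) (-1)`.
(c) Otherwise, `⨅ n, F n` and `⨅ n, E n` are normal, isolated, `τ`-invariant and in `I`, so by minimality both are equal to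
`I`. So `F 1 = I = E (-1)`. Also `rt hN ⁅I, I⁆ _` is normal, isolated, `τ`-invariant (`τ` maps `⁅I, I⁆` onto itself), in
`I` and it is not trivial (it contains `⁅x, y⁆ ≠ 1`), so it is `I`; in particular `x` has a power in `⁅I, I⁆`. By
`relation` (CH1.lean) with `P = {j | 1 ≤ j}` and with `P = {j | j ≤ -1}` the hypotheses of `no_relations` (CH2.lean) hold,
so `x = 1`, a contradiction.
-/

set_option autoImplicit false

namespace Pool.Agent.H63.RK

open Pool.Agent.H98.FJ
open scoped commutatorElement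

/-- the normal closure of some iterates -/
private def Sc {N : Type} [Group N] (τ : N ≃* N) (x : N) (P : Set ℤ) : Subgroup N :=
  Subgroup.normalClosure {z | ∃ j ∈ P, z = it τ j x}

private theorem sc_normal {N : Type} [Group N] (τ : N ≃* N) (x : N) (P : Set ℤ) :
    (Sc τ x P).Normal := Subgroup.normalClosure_normal

private theorem sc_mono {N : Type} [Group N] (τ : N ≃* N) (x : N) {P Q : Set ℤ} (h : P ⊆ Q) :
    Sc τ x P ≤ Sc τ x Q := by
  unfold Sc
  apply Subgroup.normalClosure_mono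
  rintro z ⟨j, hj, hz⟩
  exact ⟨j, h hj, hz⟩

private theorem sc_shift {N : Type} [Group N] (τ : N ≃* N) (x : N) {P Q : Set ℤ}
    (h : ∀ j, j ∈ Q ↔ j - 1 ∈ P) (z : N) : τ z ∈ Sc τ x Q ↔ z ∈ Sc τ x P := by
  have h1 : Sc τ x Q = (Sc τ x P).map τ.toMonoidHom := by
    unfold Sc
    rw [Subgroup.map_normalClosure _ _ τ.surjective]
    congr 1
    ext w
    constructor
    · rintro ⟨j, hj, rfl⟩
      refine ⟨it τ (j - 1) x, ⟨j - 1, (h j).1 hj, rfl⟩, ?_⟩
      change τ (it τ (j - 1) x) = it τ j x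
      rw [← it_one τ (it τ (j - 1) x), ← it_add]
      congr 1
      congr 1
      omega
    · rintro ⟨y, ⟨j, hj, rfl⟩, rfl⟩
      refine ⟨1 + j, (h _).2 (by
        have : (1 : ℤ) + j - 1 = j := by omega
        rw [this]
        exact hj), ?_⟩
      change τ (it τ j x) = it τ (1 + j) x
      rw [it_add, it_one]
  rw [h1]
  exact Subgroup.mem_map_iff_mem (f := τ.toMonoidHom) τ.injective

private def Vc {N : Type} [Group N] (hN : LocNil N) (τ : N ≃* N) (x : N) (P : Set ℤ) :
    Subgroup N := rt hN (Sc τ x P) (sc_normal τ x P)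

private theorem vc_mono {N : Type} [Group N] (hN : LocNil N) (τ : N ≃* N) (x : N) {P Q : Set ℤ}
    (h : P ⊆ Q) : Vc hN τ x P ≤ Vc hN τ x Q := by
  rintro y ⟨k, hk, hy⟩
  exact ⟨k, hk, sc_mono τ x h hy⟩

private theorem vc_shift {N : Type} [Group N] (hN : LocNil N) (τ : N ≃* N) (x : N) {P Q : Set ℤ}
    (h : ∀ j, j ∈ Q ↔ j - 1 ∈ P) (z : N) : τ z ∈ Vc hN τ x Q ↔ z ∈ Vc hN τ x P := by
  constructor
  · rintro ⟨k, hk, hy⟩
    refine ⟨k, hk, ?_⟩
    rw [← map_pow] at hy
    exact (sc_shift τ x h _).1 hy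
  · rintro ⟨k, hk, hy⟩
    refine ⟨k, hk, ?_⟩
    rw [← map_pow]
    exact (sc_shift τ x h _).2 hy

private theorem vc_le {N : Type} [Group N] (hN : LocNil N) (τ : N ≃* N) (x : N) (P : Set ℤ)
    {I : Subgroup N} (hI : Inv τ I) (hx : x ∈ I) : Vc hN τ x P ≤ I := by
  apply rt_le hN _ _ hI.isol
  unfold Sc
  have := hI.normal
  apply Subgroup.normalClosure_le_normal
  rintro z ⟨j, -, rfl⟩
  exact (it_mem τ hI.inv j x).2 hx

private theorem alt {N : Type} [Group N] (τ : N ≃* N) (I : Subgroup N)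
    (hI : MinInv τ I) (F : ℤ → Subgroup N) (e : ℤ) (he : e = 1 ∨ e = -1)
    (hn : ∀ n, (F n).Normal) (hi : ∀ n, Isol (F n)) (ha : ∀ m n, m ≤ n → F n ≤ F m)
    (hle : ∀ n, F n ≤ I) (hs : ∀ n x, τ x ∈ F (n + e) ↔ x ∈ F n) (x : N) (hx : x ∈ F 0)
    (hx1 : x ≠ 1) : Drift τ I F e ∨ ∀ n, F n = I := by
  have hshift : ∀ z, (∀ n, z ∈ F n) → ∀ n, τ z ∈ F n := by
    intro z hz n
    have h1 := (hs (n - e) z).2 (hz _)
    rwa [sub_add_cancel] at h1
  have hshift' : ∀ z, (∀ n, τ z ∈ F n) → ∀ n, z ∈ F n := by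
    intro z hz n
    exact (hs n z).1 (hz _)
  have hJ : Inv τ (⨅ n, F n) := by
    refine ⟨?_, ?_, ?_⟩
    · exact Subgroup.normal_iInf_normal hn
    · intro y k hk hy
      rw [Subgroup.mem_iInf] at hy ⊢
      intro n
      exact hi n y k hk (hy n)
    · intro z
      rw [Subgroup.mem_iInf, Subgroup.mem_iInf]
      exact ⟨hshift' z, hshift z⟩
  rcases hI.min _ hJ (le_trans (iInf_le _ 0) (hle 0)) with h | h
  · left
    have hdir : Directed (· ≤ ·) F := by
      intro m n
      refine ⟨min m n, ha _ _ (min_le_left _ _), ha _ _ (min_le_right _ _)⟩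
    have hmem : ∀ z, z ∈ (⨆ n, F n) ↔ ∃ n, z ∈ F n := fun z => Subgroup.mem_iSup_of_directed hdir
    have hW : Inv τ (⨆ n, F n) := by
      refine ⟨⟨?_⟩, ?_, ?_⟩
      · intro y hy g
        rw [hmem] at hy ⊢
        obtain ⟨n, hn'⟩ := hy
        exact ⟨n, (hn n).conj_mem _ hn' g⟩
      · intro y k hk hy
        rw [hmem] at hy ⊢
        obtain ⟨n, hn'⟩ := hy
        exact ⟨n, hi n y k hk hn'⟩
      · intro z
        rw [hmem, hmem]
        constructor
        · rintro ⟨n, hz⟩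
          refine ⟨n - e, ?_⟩
          have h1 := (hs (n - e) z).1
          rw [sub_add_cancel] at h1
          exact h1 hz
        · rintro ⟨n, hz⟩
          exact ⟨n + e, (hs n z).2 hz⟩
    have hWI : (⨆ n, F n) = I := by
      rcases hI.min _ hW (iSup_le hle) with h2 | h2
      · exfalso
        have h3 : x ∈ (⨆ n, F n) := (hmem x).2 ⟨0, hx⟩
        rw [h2, Subgroup.mem_bot] at h3
        exact hx1 h3
      · exact h2
    refine ⟨hn, hi, ha, ?_, ?_, he, hs⟩
    · intro y hy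
      rw [← hWI] at hy
      exact (hmem y).1 hy
    · intro y hy
      have h2 : y ∈ (⨅ n, F n) := Subgroup.mem_iInf.2 hy
      rw [h, Subgroup.mem_bot] at h2
      exact h2
  · right
    intro n
    apply le_antisymm (hle n)
    rw [← h]
    exact iInf_le _ n

private theorem der_inv {N : Type} [Group N] (hN : LocNil N) (τ : N ≃* N) (I : Subgroup N)
    (hI : Inv τ I) (hD : (⁅I, I⁆ : Subgroup N).Normal) : Inv τ (rt hN ⁅I, I⁆ hD) := by
  have hmap : I.map τ.toMonoidHom = I := by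
    ext z
    constructor
    · rintro ⟨w, hw, rfl⟩
      exact (hI.inv w).2 hw
    · intro hz
      refine ⟨τ.symm z, ?_, ?_⟩
      · apply (hI.inv _).1
        rw [MulEquiv.apply_symm_apply]
        exact hz
      · exact MulEquiv.apply_symm_apply τ z
  have hD2 : (⁅I, I⁆ : Subgroup N).map τ.toMonoidHom = ⁅I, I⁆ := by
    rw [Subgroup.map_commutator, hmap]
  have hD3 : ∀ z, τ z ∈ (⁅I, I⁆ : Subgroup N) ↔ z ∈ (⁅I, I⁆ : Subgroup N) := by
    intro z
    have h1 := Subgroup.mem_map_iff_mem (f := τ.toMonoidHom) τ.injective (K := ⁅I, I⁆) (x := z)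
    rw [hD2] at h1
    exact h1
  refine ⟨rt_normal hN _ _, rt_isol hN _ _, ?_⟩
  intro z
  constructor
  · rintro ⟨k, hk, hy⟩
    refine ⟨k, hk, ?_⟩
    rw [← map_pow] at hy
    exact (hD3 _).1 hy
  · rintro ⟨k, hk, hy⟩
    refine ⟨k, hk, ?_⟩
    rw [← map_pow]
    exact (hD3 _).2 hy

theorem chief {N : Type} [Group N] (hN : LocNil N) (hT : TF N) (τ : N ≃* N) (I : Subgroup N)
    (hI : MinInv τ I) : (∀ x ∈ I, ∀ y ∈ I, x * y = y * x) ∨
      ∃ (F : ℤ → Subgroup N) (e : ℤ), Drift τ I F e := by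
  by_cases hab : ∀ x ∈ I, ∀ y ∈ I, x * y = y * x
  · exact Or.inl hab
  right
  push Not at hab
  obtain ⟨x, hx, y, hy, hxy⟩ := hab
  have hx1 : x ≠ 1 := by
    rintro rfl
    apply hxy
    rw [one_mul, mul_one]
  have hx0 : ∀ P : Set ℤ, (0 : ℤ) ∈ P → x ∈ Vc hN τ x P := by
    intro P hP
    apply le_rt
    unfold Sc
    apply Subgroup.subset_normalClosure
    exact ⟨0, hP, (it_zero τ x).symm⟩
  have hF := alt τ I hI (fun n => Vc hN τ x {j | n ≤ j}) 1 (Or.inl rfl)
    (fun n => rt_normal hN _ _) (fun n => rt_isol hN _ _)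
    (fun m n hmn => vc_mono hN τ x (fun j (hj : n ≤ j) => (le_trans hmn hj : m ≤ j)))
    (fun n => vc_le hN τ x _ hI.inv hx)
    (fun n z => vc_shift hN τ x (fun j => by
      simp only [Set.mem_ofPred_eq]
      constructor
      · intro h
        omega
      · intro h
        omega) z) x (hx0 _ (by
      simp only [Set.mem_ofPred_eq]
      exact le_refl _)) hx1
  have hE := alt τ I hI (fun n => Vc hN τ x {j | j ≤ -n}) (-1) (Or.inr rfl)
    (fun n => rt_normal hN _ _) (fun n => rt_isol hN _ _)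
    (fun m n hmn => vc_mono hN τ x (fun j (hj : j ≤ -n) => (le_trans hj (neg_le_neg hmn) : j ≤ -m)))
    (fun n => vc_le hN τ x _ hI.inv hx)
    (fun n z => vc_shift hN τ x (fun j => by
      simp only [Set.mem_ofPred_eq]
      constructor
      · intro h
        omega
      · intro h
        omega) z) x (hx0 _ (by
      simp only [Set.mem_ofPred_eq]
      omega)) hx1
  rcases hF with hF | hF
  · exact ⟨_, _, hF⟩
  rcases hE with hE | hE
  · exact ⟨_, _, hE⟩
  exfalso
  apply hx1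
  have hnI := hI.inv.normal
  have hD : (⁅I, I⁆ : Subgroup N).Normal := inferInstance
  have hder : rt hN ⁅I, I⁆ hD = I := by
    rcases hI.min _ (der_inv hN τ I hI.inv hD) (rt_le hN _ _ hI.inv.isol (Subgroup.commutator_le_left I I))
      with h | h
    · exfalso
      have h1 : ⁅x, y⁆ ∈ rt hN ⁅I, I⁆ hD := le_rt hN _ _ (Subgroup.commutator_mem_commutator hx hy)
      rw [h, Subgroup.mem_bot, commutatorElement_eq_one_iff_mul_comm] at h1
      exact hxy h1
    · exact h
  have hpow : ∃ k : ℕ, k ≠ 0 ∧ x ^ k ∈ ⁅I, I⁆ := by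
    have h1 : x ∈ rt hN ⁅I, I⁆ hD := by
      rw [hder]
      exact hx
    exact h1
  have h1 := relation τ x I {j | 1 ≤ j} (by
    intro z hz
    have h2 := hF 1
    rw [← h2] at hz
    exact hz) hpow
  have h2 := relation τ x I {j | j ≤ -1} (by
    intro z hz
    have h2 := hE 1
    rw [← h2] at hz
    exact hz) hpow
  obtain ⟨H1, P1, a1, a2, a3, a4, a5⟩ := h1
  obtain ⟨H2, P2, b1, b2, b3, b4, b5⟩ := h2
  exact no_relations hN hT τ x ⟨H1, P1, a1, a2, fun j hj => a3 hj, a4, a5⟩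
    ⟨H2, P2, b1, b2, fun j hj => b3 hj, b4, b5⟩

end Pool.Agent.H63.RK
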