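import Pool.Agent.H63.RK.Quo
import Pool.Agent.H63.RK.CH1

/-!
# Fixed points of the elements of the kernel in the drifting case

Module H63 RK DRA (MP_2a547c_gt). Complete proof.
`drift_bounds`: let `r` be the rank function of `H` and `ρ n = r ((F n).subgroupOf H)`, antitone in `n` with values in
`ℕ` bounded by `k`. (a) Choose `n1` with `ρ n1` maximal. If `x ∈ H ⊓ I` then `x ∈ F m` for some `m`; we may take `m ≤ n1`;
`ρ m = ρ n1`, so some power of `x` is in `F n1` and `x ∈ F n1` (isolated). (b) Choose `n2` with `ρ n2` minimal. Let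
`x ∈ H ⊓ F n2`. For `m ≥ n2` `ρ m = ρ n2`, so `x ∈ F m` (isolated); for `m ≤ n2` `x ∈ F n2 ≤ F m`. So `x = 1` by `sep`.
`shift_it`: `it τ j x ∈ F (n + e * j) ↔ x ∈ F n`, induction on the integer `j` (`it_add`, `it_one`).
`fix_bound`: let `β = (n2 - n1).toNat`. Let `p g = 1` (`p = dmap ..`), `g ≠ 1`, `g • v = v`, `T.h v = j`:
`g = d * of h * d⁻¹` with `toAdd (dchi d) = j`. `dpi g = dpi d * inl h * (dpi d)⁻¹` and `dpi d = inl c * st ^ j`
(`c = (dpi d).left`), so `dpi g = inl (c * it τ j h * c⁻¹)`. As `p g = 1`, `p (of h) = 1`, so `f h = 1`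
(`dmap_of`, `HNNExtension.of_injective`): `h ∈ H ⊓ f.ker ≤ F n1`, and `h ≠ 1` since `g ≠ 1`, so `h ∉ F n2`. So
`y = (dpi g).left` satisfies `y ∈ F (n1 + e * j)` and `y ∉ F (n2 + e * j)` (`F n` is normal, `shift_it`). If also
`g • v' = v'`, `T.h v' = j'` then `y ∈ F (n1 + e * j)` and `y ∉ F (n2 + e * j')`, so `n1 + e * j < n2 + e * j'` (antitone),
and also with `j, j'` exchanged. As `e = ±1` this gives `j < j' + (n2 - n1)`.
-/

set_option autoImplicit false

namespace Pool.Agent.H63.RK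

open Pool.Agent.H98.FJ

theorem drift_bounds {N : Type} [Group N] {τ : N ≃* N} {I : Subgroup N} {F : ℤ → Subgroup N}
    {e : ℤ} (hF : Drift τ I F e) (H : Subgroup N) {k : ℕ} (hr : RF H k) :
    ∃ n1 n2 : ℤ, (∀ x ∈ H, x ∈ I → x ∈ F n1) ∧ ∀ x ∈ H, x ∈ F n2 → x = 1 := by
  classical
  obtain ⟨r, hmono, heq, hk⟩ := hr
  have hle : ∀ n, r ((F n).subgroupOf H) ≤ k := fun n => (hmono _ _ le_top).trans hk
  have hanti : ∀ m n, m ≤ n → (F n).subgroupOf H ≤ (F m).subgroupOf H := fun m n hmn x hx =>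
    hF.anti m n hmn hx
  have argmin : ∀ g : ℤ → ℕ, ∃ n, ∀ m, g n ≤ g m := by
    intro g
    have hex : ∃ t : ℕ, ∃ n, g n = t := ⟨g 0, 0, rfl⟩
    obtain ⟨n, hn⟩ := Nat.find_spec hex
    refine ⟨n, fun m => ?_⟩
    rw [hn]
    exact Nat.find_le ⟨m, rfl⟩
  -- if the ranks are equal then the members coincide
  have hmem : ∀ m n, m ≤ n → r ((F n).subgroupOf H) = r ((F m).subgroupOf H) →
      ∀ x ∈ H, x ∈ F m → x ∈ F n := by
    intro m n hmn he x hx hxm
    obtain ⟨j, hj, hj2⟩ := heq _ _ (hanti m n hmn) he ⟨x, hx⟩ hxm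
    exact hF.isol n x j hj hj2
  obtain ⟨n1, hn1⟩ := argmin fun n => k - r ((F n).subgroupOf H)
  obtain ⟨n2, hn2⟩ := argmin fun n => r ((F n).subgroupOf H)
  refine ⟨n1, n2, fun x hx hxI => ?_, fun x hx hx2 => ?_⟩
  · obtain ⟨m, hm⟩ := hF.ex x hxI
    rcases le_total n1 m with h | h
    · exact hF.anti n1 m h hm
    · have h1 := hn1 m
      have h2 := hmono _ _ (hanti m n1 h)
      have h3 := hle m
      have h4 := hle n1
      exact hmem m n1 h (by omega) x hx hm
  · apply hF.sep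
    intro m
    rcases le_total m n2 with h | h
    · exact hF.anti m n2 h hx2
    · have h1 := hn2 m
      have h2 := hmono _ _ (hanti n2 m h)
      exact hmem n2 m h (by omega) x hx hx2

theorem shift_it {N : Type} [Group N] {τ : N ≃* N} {I : Subgroup N} {F : ℤ → Subgroup N}
    {e : ℤ} (hF : Drift τ I F e) (j n : ℤ) (x : N) : it τ j x ∈ F (n + e * j) ↔ x ∈ F n := by
  have step : ∀ j : ℤ, it τ (j + 1) x ∈ F (n + e * (j + 1)) ↔ it τ j x ∈ F (n + e * j) := by
    intro j
    have h1 : n + e * (j + 1) = (n + e * j) + e := by ring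
    rw [h1, add_comm j 1, it_add, it_one]
    exact hF.shift _ _
  induction j using Int.induction_on with
  | zero => rw [it_zero, mul_zero, add_zero]
  | succ j ih => exact (step j).trans ih
  | pred j ih =>
    have h1 := step (-(j : ℤ) - 1)
    rw [sub_add_cancel] at h1
    exact h1.symm.trans ih

private theorem dra_left {N : Type} [Group N] (τ : N ≃* N) (H : Subgroup N) (d : D τ H) (h : H) :
    (dpi τ H (d * dof τ H h * d⁻¹)).left = (dpi τ H d).left *
      it τ (Multiplicative.toAdd (dchi τ H d)) h.1 * ((dpi τ H d).left)⁻¹ := by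
  rw [map_mul, map_mul, map_inv, dpi_of]
  have h1 : (dpi τ H d).right = dchi τ H d := rfl
  rw [SemidirectProduct.mul_left, SemidirectProduct.mul_left, SemidirectProduct.mul_right,
    SemidirectProduct.inv_left, SemidirectProduct.left_inl, SemidirectProduct.right_inl, mul_one,
    ← MulAut.mul_apply, ← map_mul, mul_inv_cancel, map_one, MulAut.one_apply, h1]
  rfl

theorem fix_bound {N N' : Type} [Group N] [Group N'] (τ : N ≃* N) (τ' : N' ≃* N') (f : N →* N')
    (hf : ∀ x, f (τ x) = τ' (f x)) (H : Subgroup N) {k : ℕ} (hr : RF H k) (F : ℤ → Subgroup N)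
    (e : ℤ) (hF : Drift τ f.ker F e) (T : HT (D τ H) (dchi τ H))
    (hT : ∀ v : T.V, ∃ d : D τ H, T.h v = Multiplicative.toAdd (dchi τ H d) ∧
      ∀ g : D τ H, g • v = v ↔ ∃ h : H, g = d * dof τ H h * d⁻¹) :
    ∃ β : ℕ, ∀ g : D τ H,
      dmap τ τ' f hf H (H.map f) (fun _ hx => Subgroup.mem_map_of_mem f hx) g = 1 → g ≠ 1 →
      ∀ i j : ℤ, Fx T g i → Fx T g j → i < j + β := by
  obtain ⟨n1, n2, b1, b2⟩ := drift_bounds hF H hr
  refine ⟨(n2 - n1).toNat, fun g hg hg1 => ?_⟩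
  have key : ∀ j : ℤ, Fx T g j → (dpi τ H g).left ∈ F (n1 + e * j) ∧
      (dpi τ H g).left ∉ F (n2 + e * j) := by
    rintro j ⟨v, hv, hvj⟩
    obtain ⟨d, hd, hst⟩ := hT v
    obtain ⟨h, rfl⟩ := (hst g).1 hv
    have h1 : dmap τ τ' f hf H (H.map f) (fun _ hx => Subgroup.mem_map_of_mem f hx) (dof τ H h)
        = 1 := by
      rw [map_mul, map_mul, map_inv] at hg
      exact (conj_eq_one_iff).1 hg
    rw [dmap_of] at h1
    have h2 : (⟨f h.1, Subgroup.mem_map_of_mem f h.2⟩ : (H.map f : Subgroup N')) = 1 :=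
      HNNExtension.of_injective _ (h1.trans (map_one _).symm)
    have h3 : f h.1 = 1 := congrArg Subtype.val h2
    have h4 : h.1 ≠ 1 := by
      intro h4
      apply hg1
      have h5 : h = 1 := Subtype.ext h4
      rw [h5, map_one, mul_one, mul_inv_cancel]
    have h5 : h.1 ∈ F n1 := b1 _ h.2 (MonoidHom.mem_ker.2 h3)
    have h6 : h.1 ∉ F n2 := fun h6 => h4 (b2 _ h.2 h6)
    rw [dra_left, ← hd, hvj]
    constructor
    · exact (hF.normal _).conj_mem _ ((shift_it hF j n1 _).2 h5) _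
    · intro h7
      apply h6
      rw [← shift_it hF j n2]
      have h8 := (hF.normal _).conj_mem _ h7 ((dpi τ H d).left)⁻¹
      rw [inv_inv] at h8
      have h9 : ∀ c z : N, c⁻¹ * (c * z * c⁻¹) * c = z := by
        intro c z
        group
      rw [h9] at h8
      exact h8
  intro i j hi hj
  obtain ⟨i1, i2⟩ := key i hi
  obtain ⟨j1, j2⟩ := key j hj
  have h1 : n1 + e * i < n2 + e * j := by
    by_contra hc
    exact j2 (hF.anti _ _ (by omega) i1)
  have h2 : n1 + e * j < n2 + e * i := by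
    by_contra hc
    exact i2 (hF.anti _ _ (by omega) j1)
  have h3 := Int.self_le_toNat (n2 - n1)
  rcases hF.unit with he | he
  · rw [he] at h1
    omega
  · rw [he] at h2
    omega

end Pool.Agent.H63.RK
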