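import Pool.Agent.H63.RK.Defs
import Pool.Agent.H65.HT.Main

/-!
# Trees with a height function

Module H63 RK HTREE (MP_2a547c_gt). The proof is helper65's theorem `Pool.Agent.H65.HT.height_tree`.
-/

set_option autoImplicit false

namespace Pool.Agent.H63.RK

open Pool.Agent.H98.FJ

theorem height_tree {C : (G : Type) → [Group G] → Prop} (hC : Inherits C) (hA : AcylTrees C)
    {E : Type} [Group E] [Countable E] (χ : E →* Multiplicative ℤ) (T : HT E χ) (hK : C χ.ker)
    (β : ℕ) (hb : ∀ g : E, g ≠ 1 → ∀ i j : ℤ, Fx T g i → Fx T g j → i < j + β) : C E := by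
  have hA' : Pool.Agent.H65.HT.Acyl C := by
    intro G V _ _ _ X hX hinv hk hv
    exact hA G V X hX.tree hX.adj
      (fun g v w hvw h1 h2 => hinv g (Subgroup.mem_top g) v w hvw h1 h2) hk hv
  exact Pool.Agent.H65.HT.height_tree hC hA' (V := T.V) (X := T.X) ⟨T.tree, T.adj⟩ T.h T.hadj χ
    T.hact hK β (fun g hg v w hv hw => (hb g hg (T.h v) (T.h w) ⟨v, hv, rfl⟩ ⟨w, hw, rfl⟩).le)

end Pool.Agent.H63.RK
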