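import Pool.Agent.H63.RK.Tree
import Pool.Agent.H63.RK.Exc

/-!
# The kernel of the exponent sum is in the class

Module H63 RK KER (MP_2a547c_gt). Complete proof. `countable_D`: `H` is countable (finitely generated), `D τ H` is generated
by the countable set `range of ∪ {t}`, so it is countable (`Subgroup.closure` of a countable set is countable:
`Subgroup.closure_countable` or so, or a surjection from lists).
`ker_mem`: let `K = (dchi τ H).ker`. Apply `Pool.Agent.H93.TR.main hC hE` to the action of `K` on the tree `T` of
`exists_tree`, `Q = N` (`C N` by `locNil_mem`) and `f : K →* N`, `f g = (dpi τ H g).left` (a homomorphism, since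
`(dpi τ H g).right = dchi τ H g = 1` for `g ∈ K`). Stabilisers: `g ∈ K` with `g • v = v` is `d * of h * d⁻¹`; conjugation by
`d⁻¹` embeds the stabiliser in `(dof τ H).range`, which is isomorphic to `H` (`HNNExtension.of_injective`), and `C H`
since `H` is nilpotent by `hN`, hence solvable. `EdgeFree`: if `g = d * of h * d⁻¹` and `f g = 1` then `dpi τ H g = 1`, so
`dpi τ H (of h) = 1`, `h = 1` (`dpi_of_injective`) and `g = 1`.
-/

set_option autoImplicit false

namespace Pool.Agent.H63.RK

open Pool.Agent.H98.FJ

variable {C : (G : Type) → [Group G] → Prop}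

theorem countable_cl {G : Type} [Group G] {s : Set G} (hs : s.Countable) :
    (Subgroup.closure s : Set G).Countable := by
  have h1 : (s ∪ s⁻¹).Countable := hs.union (hs.preimage inv_injective)
  have h2 : Countable (s ∪ s⁻¹ : Set G) := h1.to_subtype
  refine Set.Countable.mono ?_
    (Set.countable_range fun l : List (s ∪ s⁻¹ : Set G) => (l.map Subtype.val).prod)
  intro x hx
  have h3 : x ∈ Submonoid.closure (s ∪ s⁻¹) := by
    rw [← Subgroup.closure_toSubmonoid]
    exact hx
  obtain ⟨l, hl, hp⟩ := Submonoid.exists_list_of_mem_closure h3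
  lift l to List (s ∪ s⁻¹ : Set G) using hl
  exact ⟨l, hp⟩

theorem countable_D {N : Type} [Group N] (τ : N ≃* N) (H : Subgroup N) (hH : H.FG) :
    Countable (D τ H) := by
  obtain ⟨S, hS⟩ := hH
  have h1 : Countable H := by
    have h2 := countable_cl S.countable_toSet
    rw [hS] at h2
    exact h2.to_subtype
  have h3 : (Set.range (dof τ H) ∪ {dt τ H}).Countable :=
    (Set.countable_range _).union (Set.countable_singleton _)
  have h4 := countable_cl h3
  have h5 : (Subgroup.closure (Set.range (dof τ H) ∪ {dt τ H}) : Set (D τ H)) = Set.univ := by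
    apply Set.eq_univ_of_forall
    intro x
    induction x using HNNExtension.induction_on with
    | of g => exact Subgroup.subset_closure (Or.inl ⟨g, rfl⟩)
    | t => exact Subgroup.subset_closure (Or.inr rfl)
    | mul x y hx hy => exact Subgroup.mul_mem _ hx hy
    | inv x hx => exact Subgroup.inv_mem _ hx
  rw [h5] at h4
  exact Set.countable_univ_iff.mp h4

theorem ker_mem (hC : Inherits C) (hE : Extension C) (hS : Solv C) {N : Type} [Group N]
    (hN : LocNil N) (τ : N ≃* N) (H : Subgroup N) (hH : H.FG) : C (dchi τ H).ker := by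
  obtain ⟨T, hT⟩ := exists_tree τ H
  have hCN : C N := locNil_mem hC hS hN
  have hCH : C H := by
    have h1 : Group.IsNilpotent H := hN H hH
    exact hS H inferInstance
  have hCR : C (dof τ H).range :=
    hC.iso H (dof τ H).range (MonoidHom.ofInjective (HNNExtension.of_injective _)) hCH
  have hright : ∀ g : (dchi τ H).ker, (dpi τ H g.1).right = 1 := fun g => g.2
  let f : (dchi τ H).ker →* N :=
    { toFun := fun g => (dpi τ H g.1).left
      map_one' := by
        change (dpi τ H 1).left = 1
        rw [map_one]
        rfl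
      map_mul' := by
        intro g g'
        change (dpi τ H (g.1 * g'.1)).left = _
        rw [map_mul, SemidirectProduct.mul_left, hright g, map_one]
        rfl }
  have hX : Pool.Agent.H93.TR.OnTree (dchi τ H).ker T.X :=
    ⟨T.tree, fun g v w h => T.adj g.1 v w h⟩
  refine Pool.Agent.H93.TR.main hC hE (V := T.V) (Q := N) hX ?_ hCN f ?_
  · intro v
    obtain ⟨d, -, hd⟩ := hT v
    let c : MulAction.stabilizer (dchi τ H).ker v →* D τ H :=
      (MulAut.conj d⁻¹).toMonoidHom.comp
        ((dchi τ H).ker.subtype.comp (MulAction.stabilizer (dchi τ H).ker v).subtype)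
    have hc : ∀ s, c s ∈ (dof τ H).range := by
      intro s
      obtain ⟨h, hh⟩ := (hd s.1.1).mp s.2
      refine ⟨h, ?_⟩
      change dof τ H h = d⁻¹ * s.1.1 * d⁻¹⁻¹
      rw [hh]
      group
    refine hC.of_injective (c.codRestrict (dof τ H).range hc) ?_ hCR
    intro a b hab
    have h1 : c a = c b := congrArg Subtype.val hab
    have h2 : a.1.1 = b.1.1 := (MulAut.conj d⁻¹).injective h1
    exact Subtype.ext (Subtype.ext h2)
  · intro n hn v w _ hv _
    obtain ⟨d, -, hd⟩ := hT v
    obtain ⟨h, hh⟩ := (hd n.1).mp hv
    have h1 : dpi τ H n.1 = 1 := SemidirectProduct.ext hn (hright n)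
    have h2 : dpi τ H (dof τ H h) = 1 := by
      rw [hh, map_mul, map_mul, map_inv] at h1
      have h3 := congrArg (fun z => (dpi τ H d)⁻¹ * z * dpi τ H d) h1
      simpa [mul_assoc] using h3
    have h4 : h = 1 := by
      apply dpi_of_injective τ H
      rw [MonoidHom.comp_apply, h2, map_one]
    apply Subtype.ext
    rw [hh, h4, map_one, mul_one, mul_inv_cancel]
    rfl

end Pool.Agent.H63.RK
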