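import Pool.Agent.H63.RK.DR1
import Pool.Agent.H63.RK.Ker
import Pool.Agent.H63.RK.HTree

/-!
# The drifting case

Module H63 RK DRB (MP_2a547c_gt). Complete proof. Let `p = dmap τ τ' f hf H (H.map f) _ : D τ H →* D τ' (H.map f)`; it is
surjective (`HNNExtension.induction_on`: `dmap_of`, `dmap_t`). By `ext_cyc` (Exc.lean) it suffices that
`E = (Subgroup.zpowers v).comap p` is in the class for every `v : D τ' (H.map f)`. Let `m = toAdd (dchi τ' _ v)`.
If `m = 0` then `E ≤ (dchi τ H).ker` (`dchi_dmap`; `dchi τ' _` is trivial on `zpowers v`), so `hC.of_injective` (inclusion)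
and `ker_mem` apply. Let `m ≠ 0`. Let `T1` be the tree of `exists_tree` and `T0 = T1.res E`, a tree for the group `E` with
the homomorphism `(dchi τ H).comp E.subtype`. If `g ∈ E` fixes a vertex of `T1` then `dchi τ H g = 1` (`hact`), and
`p g = v ^ i` with `i * m = 0`, so `i = 0` and `p g = 1`. Let `β` be as in `fix_bound` for `T1`. Now `height_tree` applies:
`E` is countable (`countable_D`), the kernel of the restricted `dchi` embeds in `(dchi τ H).ker` (`ker_mem`).
-/

set_option autoImplicit false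

namespace Pool.Agent.H63.RK

open Pool.Agent.H98.FJ

variable {C : (G : Type) → [Group G] → Prop}

/-- the induced homomorphism is surjective -/
theorem dmap_surj {N N' : Type} [Group N] [Group N'] (τ : N ≃* N) (τ' : N' ≃* N') (f : N →* N')
    (hf : ∀ x, f (τ x) = τ' (f x)) (H : Subgroup N) :
    Function.Surjective
      (dmap τ τ' f hf H (H.map f) (fun _ hx => Subgroup.mem_map_of_mem f hx)) := by
  intro y
  induction y using HNNExtension.induction_on with
  | of x =>
    obtain ⟨y, z, hz, rfl⟩ := x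
    exact ⟨dof τ H ⟨z, hz⟩, dmap_of τ τ' f hf H _ _ ⟨z, hz⟩⟩
  | t => exact ⟨dt τ H, dmap_t τ τ' f hf H _ _⟩
  | mul x y hx hy =>
    obtain ⟨a, rfl⟩ := hx
    obtain ⟨b, rfl⟩ := hy
    exact ⟨a * b, map_mul _ _ _⟩
  | inv x hx =>
    obtain ⟨a, rfl⟩ := hx
    exact ⟨a⁻¹, map_inv _ _⟩

theorem dr_mem (hC : Inherits C) (hE : Extension C) (hS : Solv C) (hA : AcylTrees C)
    {N N' : Type} [Group N] [Group N'] (hN : LocNil N) (τ : N ≃* N) (τ' : N' ≃* N') (f : N →* N')
    (hf : ∀ x, f (τ x) = τ' (f x)) (H : Subgroup N) (hH : H.FG) {k : ℕ} (hr : RF H k)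
    (F : ℤ → Subgroup N) (e : ℤ) (hF : Drift τ f.ker F e) (hD : C (D τ' (H.map f))) :
    C (D τ H) := by
  have hker : C (dchi τ H).ker := ker_mem hC hE hS hN τ H hH
  obtain ⟨T1, hT1⟩ := exists_tree τ H
  obtain ⟨β, hβ⟩ := fix_bound τ τ' f hf H hr F e hF T1 hT1
  set p := dmap τ τ' f hf H (H.map f) (fun _ hx => Subgroup.mem_map_of_mem f hx) with hp
  have hχ : ∀ d, dchi τ' (H.map f) (p d) = dchi τ H d := fun d => dchi_dmap τ τ' f hf H _ _ d
  refine ext_cyc hC hE p (dmap_surj τ τ' f hf H) hD ?_
  intro v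
  set E : Subgroup (D τ H) := (Subgroup.zpowers v).comap p with hEdef
  by_cases hm : dchi τ' (H.map f) v = 1
  · -- the exponent sum is trivial on `E`
    have hle : E ≤ (dchi τ H).ker := by
      intro g hg
      have h1 : p g ∈ Subgroup.zpowers v := hg
      obtain ⟨i, hi⟩ := Subgroup.mem_zpowers_iff.1 h1
      change dchi τ H g = 1
      rw [← hχ, ← hi, map_zpow, hm, one_zpow]
    exact hC.of_injective (Subgroup.inclusion hle) (Subgroup.inclusion_injective hle) hker
  · have : Countable (D τ H) := countable_D τ H hH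
    refine height_tree hC hA ((dchi τ H).comp E.subtype) (T1.res E) ?_ β ?_
    · let ψ : ((dchi τ H).comp E.subtype).ker →* (dchi τ H).ker :=
        { toFun := fun g => ⟨(g.1 : D τ H), g.2⟩
          map_one' := rfl
          map_mul' := fun _ _ => rfl }
      refine hC.of_injective ψ ?_ hker
      intro a b hab
      have h1 : ((a.1 : E) : D τ H) = b.1 :=
        congrArg (fun z : (dchi τ H).ker => (z : D τ H)) hab
      exact Subtype.ext (Subtype.ext h1)
    · intro g hg i j hi hj
      obtain ⟨w, hw1, hw2⟩ : Fx T1 (g : D τ H) i := hi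
      obtain ⟨w', hw1', hw2'⟩ : Fx T1 (g : D τ H) j := hj
      have h1 : dchi τ H (g : D τ H) = 1 := by
        have h2 := T1.hact (g : D τ H) (w : T1.V)
        have h3 : (g : D τ H) • (w : T1.V) = w := hw1
        rw [h3] at h2
        have h4 : Multiplicative.toAdd (dchi τ H (g : D τ H)) = 0 := by linarith
        exact Multiplicative.toAdd.injective h4
      have h5 : p (g : D τ H) = 1 := by
        have h6 : p (g : D τ H) ∈ Subgroup.zpowers v := g.2
        obtain ⟨n, hn⟩ := Subgroup.mem_zpowers_iff.1 h6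
        have h7 : (dchi τ' (H.map f) v) ^ n = 1 := by
          rw [← map_zpow, hn, hχ, h1]
        have h8 : n * Multiplicative.toAdd (dchi τ' (H.map f) v) = 0 := by
          have h9 := congrArg Multiplicative.toAdd h7
          rw [toAdd_zpow, toAdd_one, smul_eq_mul] at h9
          exact h9
        rcases mul_eq_zero.1 h8 with h10 | h10
        · rw [← hn, h10, zpow_zero]
        · exact absurd (Multiplicative.toAdd.injective h10) hm
      have h11 : (g : D τ H) ≠ 1 := fun h => hg (Subtype.ext h)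
      exact hβ g h5 h11 i j ⟨w, hw1, hw2⟩ ⟨w', hw1', hw2'⟩

end Pool.Agent.H63.RK
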