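import Pool.Agent.H63.RK.RFA
import Pool.Agent.H63.RK.FGZ

/-!
# The rank function of a finitely generated nilpotent group

Module H63 RK RFN (MP_2a547c_gt). Complete proof. Induct on `n` with `(⊤ : Subgroup H).lowerCentralSeries n = ⊥`, for all
`H` (`Subgroup.nilpotent_iff_lowerCentralSeries`). For `n = 0` the group is trivial: `r = 0`. For `n + 1`: let
`Z = (⊤ : Subgroup H).lowerCentralSeries n`: it is normal, finitely generated (`fg_lcs`) and central
(`⁅Z, ⊤⁆ = lowerCentralSeries (n + 1) = ⊥`). Let `rZ` be the rank function of the commutative group `Z` (`rf_comm`) and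
`rQ` the one of `H ⧸ Z` (induction: `H ⧸ Z` is finitely generated and its `lowerCentralSeries n` is trivial by
`Subgroup.map_lowerCentralSeries`). Put `r R = rQ (R.map (QuotientGroup.mk' Z)) + rZ (R.subgroupOf Z)`. It is monotone.
Let `R ≤ R'` with `r R = r R'`; by monotonicity both summands are equal. Let `x ∈ R'`. Then `mk x ^ k ∈ R.map mk'` for some
`k ≠ 0`, so `x ^ k = y * z` with `y ∈ R`, `z ∈ Z` (`mk (x ^ k) = mk y`); `z = y⁻¹ * x ^ k ∈ R'`, so `z` is in
`R'.subgroupOf Z` and some power `z ^ l`, `l ≠ 0`, is in `R`. As `z` is central `x ^ (k * l) = y ^ l * z ^ l ∈ R`.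
-/

set_option autoImplicit false

namespace Pool.Agent.H63.RK

open Pool.Agent.H98.FJ

/-- induction on the length of the lower central series -/
theorem rfn_aux (n : ℕ) : ∀ (H : Type) [Group H], Group.FG H →
    (⊤ : Subgroup H).lowerCentralSeries n = ⊥ → ∃ k : ℕ, RF H k := by
  induction n with
  | zero =>
    intro H _ _ hn
    have htop : (⊤ : Subgroup H) = ⊥ := hn
    refine ⟨0, fun _ => 0, fun _ _ _ => le_refl _, fun R R' _ _ x _ => ⟨1, one_ne_zero, ?_⟩,
      le_refl _⟩
    have h1 : x ∈ (⊤ : Subgroup H) := Subgroup.mem_top x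
    rw [htop, Subgroup.mem_bot] at h1
    rw [h1, one_pow]
    exact R.one_mem
  | succ n ih =>
    intro H _ hfg hn
    have hZfg := fg_lcs hfg n hn
    have hZn : ((⊤ : Subgroup H).lowerCentralSeries n).Normal := inferInstance
    have hZm := Subgroup.map_lowerCentralSeries (⊤ : Subgroup H)
      (QuotientGroup.mk' ((⊤ : Subgroup H).lowerCentralSeries n)) n
    have hZc : ∀ z ∈ (⊤ : Subgroup H).lowerCentralSeries n, ∀ x : H, z * x = x * z := by
      intro z hz x
      have h1 := Subgroup.commutator_mem_commutator hz (Subgroup.mem_top x)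
      rw [← Subgroup.lowerCentralSeries_succ, hn, Subgroup.mem_bot] at h1
      exact commutatorElement_eq_one_iff_mul_comm.1 h1
    generalize (⊤ : Subgroup H).lowerCentralSeries n = Z at hZfg hZn hZm hZc
    have hZfg' : Group.FG Z := (Group.fg_iff_subgroup_fg Z).2 hZfg
    letI : CommGroup Z :=
      { (inferInstance : Group Z) with
        mul_comm := fun a b => Subtype.ext (hZc a.1 a.2 b.1) }
    obtain ⟨kZ, rZ, mZ, eZ, tZ⟩ := rf_comm Z hZfg'
    have hQfg : Group.FG (H ⧸ Z) := inferInstance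
    have hQ : (⊤ : Subgroup (H ⧸ Z)).lowerCentralSeries n = ⊥ := by
      rw [Subgroup.map_top_of_surjective _ (QuotientGroup.mk'_surjective Z)] at hZm
      rw [← hZm, Subgroup.map_eq_bot_iff, QuotientGroup.ker_mk']
    obtain ⟨kQ, rQ, mQ, eQ, tQ⟩ := ih (H ⧸ Z) hQfg hQ
    refine ⟨kQ + kZ, fun R => rQ (R.map (QuotientGroup.mk' Z)) + rZ (R.subgroupOf Z), ?_, ?_, ?_⟩
    · intro R R' hR
      exact Nat.add_le_add (mQ _ _ (Subgroup.map_mono hR))
        (mZ _ _ (Subgroup.comap_mono hR))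
    · intro R R' hR hr x hx
      have h1 := mQ _ _ (Subgroup.map_mono (f := QuotientGroup.mk' Z) hR)
      have h2 := mZ (R.subgroupOf Z) (R'.subgroupOf Z) (Subgroup.comap_mono hR)
      have hr' : rQ (R.map (QuotientGroup.mk' Z)) + rZ (R.subgroupOf Z) =
        rQ (R'.map (QuotientGroup.mk' Z)) + rZ (R'.subgroupOf Z) := hr
      have h3 : rQ (R.map (QuotientGroup.mk' Z)) = rQ (R'.map (QuotientGroup.mk' Z)) := by omega
      have h4 : rZ (R.subgroupOf Z) = rZ (R'.subgroupOf Z) := by omega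
      obtain ⟨k, hk, hk2⟩ := eQ _ _ (Subgroup.map_mono hR) h3 (QuotientGroup.mk' Z x)
        (Subgroup.mem_map_of_mem _ hx)
      obtain ⟨y, hy, hyx⟩ := Subgroup.mem_map.1 hk2
      have hz : y⁻¹ * x ^ k ∈ Z := by
        rw [← map_pow] at hyx
        exact QuotientGroup.eq.1 hyx
      have hzR : (⟨y⁻¹ * x ^ k, hz⟩ : Z) ∈ R'.subgroupOf Z := by
        rw [Subgroup.mem_subgroupOf]
        exact R'.mul_mem (R'.inv_mem (hR hy)) (R'.pow_mem hx k)
      obtain ⟨l, hl, hl2⟩ := eZ _ _ (Subgroup.comap_mono hR) h4 _ hzR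
      have hl3 : (y⁻¹ * x ^ k) ^ l ∈ R := hl2
      refine ⟨k * l, Nat.mul_ne_zero hk hl, ?_⟩
      have hcomm : Commute y (y⁻¹ * x ^ k) := (hZc _ hz y).symm
      have h5 : x ^ (k * l) = y ^ l * (y⁻¹ * x ^ k) ^ l := by
        rw [← hcomm.mul_pow, mul_inv_cancel_left, pow_mul]
      rw [h5]
      exact R.mul_mem (R.pow_mem hy l) hl3
    · refine Nat.add_le_add ?_ ?_
      · exact (mQ _ _ le_top).trans tQ
      · exact (mZ _ _ le_top).trans tZ

theorem rf_exists {H : Type} [Group H] (hH : Group.IsNilpotent H) (hfg : Group.FG H) :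
    ∃ k : ℕ, RF H k := by
  obtain ⟨n, hn⟩ := Subgroup.nilpotent_iff_lowerCentralSeries.1 hH
  exact rfn_aux n H hfg hn

end Pool.Agent.H63.RK
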