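import Pool.Agent.H63.RK.MD
import Pool.Agent.H63.RK.LFX
import Pool.Agent.H63.RK.RFN
import Pool.Agent.H63.RK.TFin
import Pool.Agent.H63.RK.Iso

/-!
# Locally nilpotent kernels

Module H63 RK LNX (MP_2a547c_gt). Complete proof. `sd_mem`: let `S = rt hN ⊥ _`, the torsion subgroup; it is normal and
isolated and `τ x ∈ S ↔ x ∈ S`. Let `N', τ', f` be the quotient (`exists_quot`); `N'` is locally nilpotent and
torsion-free. `C (SD τ')` by `col`, `main_D` and `rf_exists` (a finitely generated subgroup `H` of `N'` is nilpotent and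
finitely generated). Now `lf_ext` for `smap τ τ' f hf : SD τ →* SD τ'`: its kernel consists of the elements `inl x`,
`x ∈ S`; it is locally finite: a finitely generated subgroup `L` of the kernel is mapped injectively by `left` to a
finitely generated subgroup of `N` (nilpotent) all of whose elements have finite order; `finite_of_torsion`.
`ln_ext`: `ext_sd` with `locNil_mem` and `sd_mem`.
-/

set_option autoImplicit false

namespace Pool.Agent.H63.RK

open Pool.Agent.H98.FJ

variable {C : (G : Type) → [Group G] → Prop}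

/-- the kernel of the induced homomorphism of semidirect products is locally finite -/
private theorem ker_lf {N N' : Type} [Group N] [Group N'] (hN : LocNil N) (τ : N ≃* N)
    (τ' : N' ≃* N') (f : N →* N') (hf : ∀ x, f (τ x) = τ' (f x))
    (ht : ∀ x : N, f x = 1 → ∃ k : ℕ, k ≠ 0 ∧ x ^ k = 1) : LocFin (smap τ τ' f hf).ker := by
  classical
  have hr : ∀ g : SD τ, g ∈ (smap τ τ' f hf).ker → g.right = 1 ∧ f g.left = 1 := by
    intro g hg
    rw [MonoidHom.mem_ker] at hg
    constructor
    · rw [← smap_right τ τ' f hf g, hg]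
      rfl
    · rw [← smap_left τ τ' f hf g, hg]
      rfl
  let π : (smap τ τ' f hf).ker →* N :=
    { toFun := fun g => g.1.left
      map_one' := rfl
      map_mul' := by
        intro a b
        have h1 := (hr a.1 a.2).1
        change (a.1 * b.1).left = a.1.left * b.1.left
        rw [SemidirectProduct.mul_left, h1, map_one]
        rfl }
  have hinj : Function.Injective π := by
    intro a b hab
    apply Subtype.ext
    apply SemidirectProduct.ext
    · exact hab
    · rw [(hr a.1 a.2).1, (hr b.1 b.2).1]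
  intro L hL
  have h1 : (L.map π).FG := md_fg_map hL π
  have h2 : Group.IsNilpotent (L.map π) := hN _ h1
  have h3 : Group.FG (L.map π) := (Group.fg_iff_subgroup_fg _).2 h1
  have h4 : Finite (L.map π) := by
    refine finite_of_torsion h2 h3 ?_
    rintro ⟨x, hx⟩
    obtain ⟨g, hg, rfl⟩ := Subgroup.mem_map.1 hx
    obtain ⟨k, hk, hk1⟩ := ht (π g) (hr g.1 g.2).2
    exact ⟨k, hk, Subtype.ext hk1⟩
  haveI := h4
  exact Finite.of_equiv _ (L.equivMapOfInjective π hinj).symm.toEquiv

theorem sd_mem (hC : Inherits C) (hE : Extension C) (hS : Solv C) (hA : AcylTrees C)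
    {N : Type} [Group N] (hN : LocNil N) (τ : N ≃* N) : C (SD τ) := by
  have hbn : (⊥ : Subgroup N).Normal := inferInstance
  have hInv : Inv τ (rt hN ⊥ hbn) := by
    refine ⟨rt_normal hN ⊥ hbn, rt_isol hN ⊥ hbn, ?_⟩
    intro x
    rw [mem_rt, mem_rt]
    constructor
    · rintro ⟨k, hk, h⟩
      refine ⟨k, hk, ?_⟩
      rw [Subgroup.mem_bot] at h ⊢
      rw [← map_pow] at h
      exact (map_eq_one_iff τ τ.injective).1 h
    · rintro ⟨k, hk, h⟩
      refine ⟨k, hk, ?_⟩
      rw [Subgroup.mem_bot] at h ⊢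
      rw [← map_pow, h, map_one]
  obtain ⟨N', _, τ', f, hs, hf, hker⟩ := exists_quot τ _ hInv
  have hN' : LocNil N' := LocNil.of_surj f hN hs
  have hT' : TF N' := TF.of_surj f hs (by
    rw [hker]
    exact rt_isol hN ⊥ hbn)
  have hSD : C (SD τ') := by
    refine col hC τ' fun H hH => ?_
    obtain ⟨k, hk⟩ := rf_exists (hN' H hH) ((Group.fg_iff_subgroup_fg H).2 hH)
    exact main_D hC hE hS hA k N' τ' H hN' hT' hH hk
  refine lf_ext hC hE (smap τ τ' f hf) hSD (ker_lf hN τ τ' f hf ?_)
  intro x hx
  have h1 : x ∈ f.ker := hx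
  rw [hker, mem_rt] at h1
  obtain ⟨k, hk, h⟩ := h1
  exact ⟨k, hk, h⟩

theorem ln_ext (hC : Inherits C) (hE : Extension C) (hS : Solv C) (hA : AcylTrees C)
    {G Q : Type} [Group G] [Group Q] (p : G →* Q) (hQ : C Q) (hK : LocNil p.ker) : C G :=
  ext_sd hC hE p hQ (locNil_mem hC hS hK) fun τ => sd_mem hC hE hS hA hK τ

end Pool.Agent.H63.RK
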