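import Pool.Agent.H63.RK.Defs

/-!
# The choice of an invariant section

Module H63 RK SEL (MP_2a547c_gt). Complete proof. Let `𝒮` be the set of the `S` with `Inv τ S` and `H ⊓ S ≠ ⊥`; `⊤ ∈ 𝒮`.
Suppose that the first alternative is false: so `S1 ⊓ S2 ∈ 𝒮` for `S1, S2 ∈ 𝒮` (an intersection of two normal isolated
invariant subgroups is one). Let `r` be the rank function of `H` and choose `S ∈ 𝒮` with `r (S.subgroupOf H)` minimal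
(`WellFounded.min` or `Nat.find`). For `S' ∈ 𝒮`: `S ⊓ S' ∈ 𝒮`, so `r ((S ⊓ S').subgroupOf H) = r (S.subgroupOf H)`, so every
`x ∈ H ⊓ S` has a power in `S ⊓ S' ≤ S'`, hence `x ∈ S'` since `S'` is isolated. So `H ⊓ S ≤ S'` for all `S' ∈ 𝒮`. Let
`I = sInf 𝒮`: it is normal, isolated, invariant, and `H ⊓ S ≤ H ⊓ I`, so `I ∈ 𝒮`. Let `𝒥` be the set of the `J` with
`Inv τ J` and `J < I`. Every `J ∈ 𝒥` has `H ⊓ J = ⊥` (otherwise `J ∈ 𝒮` and `I ≤ J`). `⊥ ∈ 𝒥` (isolated by `hT`;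
`I ≠ ⊥`). If `c ⊆ 𝒥` is a nonempty chain, then the union `W = sSup c` (`Subgroup.mem_sSup_of_directedOn`) is normal,
isolated, invariant, `W ≤ I`, and `H ⊓ W = ⊥` as every element of `W` is in a member of `c`; so `W ≠ I` and `W ∈ 𝒥`. By
Zorn's lemma (`zorn_le_nonempty₀` or `zorn_subset`) there is a maximal `J ∈ 𝒥`. If `Inv τ J'`, `J ≤ J' ≤ I` and `J' ≠ I`
then `J' ∈ 𝒥` and so `J' = J`.
-/

set_option autoImplicit false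

namespace Pool.Agent.H63.RK

open Pool.Agent.H98.FJ

theorem sel_inf {N : Type} [Group N] {τ : N ≃* N} {S1 S2 : Subgroup N} (h1 : Inv τ S1)
    (h2 : Inv τ S2) : Inv τ (S1 ⊓ S2) := by
  refine ⟨⟨?_⟩, ?_, ?_⟩
  · intro n hn g
    exact ⟨h1.normal.conj_mem n hn.1 g, h2.normal.conj_mem n hn.2 g⟩
  · intro x k hk hx
    exact ⟨h1.isol x k hk hx.1, h2.isol x k hk hx.2⟩
  · intro x
    exact ⟨fun h => ⟨(h1.inv x).1 h.1, (h2.inv x).1 h.2⟩, fun h => ⟨(h1.inv x).2 h.1, (h2.inv x).2 h.2⟩⟩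

theorem sel_top {N : Type} [Group N] (τ : N ≃* N) : Inv τ (⊤ : Subgroup N) :=
  ⟨inferInstance, fun _ _ _ _ => Subgroup.mem_top _, fun _ =>
    ⟨fun _ => Subgroup.mem_top _, fun _ => Subgroup.mem_top _⟩⟩

theorem sel_bot {N : Type} [Group N] (hT : TF N) (τ : N ≃* N) : Inv τ (⊥ : Subgroup N) := by
  refine ⟨inferInstance, ?_, ?_⟩
  · intro x k hk hx
    rw [Subgroup.mem_bot] at hx ⊢
    exact hT x k hk hx
  · intro x
    rw [Subgroup.mem_bot, Subgroup.mem_bot]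
    exact ⟨fun h => τ.injective (by rw [h, map_one]), fun h => by rw [h, map_one]⟩

theorem sel_sInf {N : Type} [Group N] {τ : N ≃* N} {c : Set (Subgroup N)}
    (h : ∀ S ∈ c, Inv τ S) : Inv τ (sInf c) := by
  refine ⟨⟨?_⟩, ?_, ?_⟩
  · intro n hn g
    rw [Subgroup.mem_sInf] at hn ⊢
    exact fun S hS => (h S hS).normal.conj_mem n (hn S hS) g
  · intro x k hk hx
    rw [Subgroup.mem_sInf] at hx ⊢
    exact fun S hS => (h S hS).isol x k hk (hx S hS)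
  · intro x
    rw [Subgroup.mem_sInf, Subgroup.mem_sInf]
    exact ⟨fun hx S hS => ((h S hS).inv x).1 (hx S hS), fun hx S hS => ((h S hS).inv x).2 (hx S hS)⟩

theorem sel_sSup {N : Type} [Group N] {τ : N ≃* N} {c : Set (Subgroup N)} (hne : c.Nonempty)
    (hc : IsChain (· ≤ ·) c) (h : ∀ S ∈ c, Inv τ S) : Inv τ (sSup c) := by
  have hd : DirectedOn (· ≤ ·) c := hc.directedOn
  have hm : ∀ x, x ∈ sSup c ↔ ∃ S ∈ c, x ∈ S := fun x => Subgroup.mem_sSup_of_directedOn hne hd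
  refine ⟨⟨?_⟩, ?_, ?_⟩
  · intro n hn g
    rw [hm] at hn ⊢
    obtain ⟨S, hS, hx⟩ := hn
    exact ⟨S, hS, (h S hS).normal.conj_mem n hx g⟩
  · intro x k hk hx
    rw [hm] at hx ⊢
    obtain ⟨S, hS, hx⟩ := hx
    exact ⟨S, hS, (h S hS).isol x k hk hx⟩
  · intro x
    rw [hm, hm]
    exact ⟨fun ⟨S, hS, hx⟩ => ⟨S, hS, ((h S hS).inv x).1 hx⟩,
      fun ⟨S, hS, hx⟩ => ⟨S, hS, ((h S hS).inv x).2 hx⟩⟩

theorem sel {N : Type} [Group N] (hT : TF N) (τ : N ≃* N) (H : Subgroup N) {k : ℕ}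
    (hr : RF H k) (hH : H ≠ ⊥) :
    (∃ S1 S2 : Subgroup N, Inv τ S1 ∧ Inv τ S2 ∧ H ⊓ S1 ≠ ⊥ ∧ H ⊓ S2 ≠ ⊥ ∧ H ⊓ (S1 ⊓ S2) = ⊥) ∨
    ∃ I J : Subgroup N, Inv τ I ∧ Inv τ J ∧ J < I ∧ H ⊓ I ≠ ⊥ ∧ H ⊓ J = ⊥ ∧
      ∀ J' : Subgroup N, Inv τ J' → J ≤ J' → J' ≤ I → J' = J ∨ J' = I := by
  classical
  by_cases hA : ∃ S1 S2 : Subgroup N, Inv τ S1 ∧ Inv τ S2 ∧ H ⊓ S1 ≠ ⊥ ∧ H ⊓ S2 ≠ ⊥ ∧
      H ⊓ (S1 ⊓ S2) = ⊥
  · exact Or.inl hA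
  right
  obtain ⟨r, hmono, hpow, -⟩ := hr
  have hcl : ∀ S1 S2 : Subgroup N, (Inv τ S1 ∧ H ⊓ S1 ≠ ⊥) → (Inv τ S2 ∧ H ⊓ S2 ≠ ⊥) →
      (Inv τ (S1 ⊓ S2) ∧ H ⊓ (S1 ⊓ S2) ≠ ⊥) := by
    intro S1 S2 h1 h2
    refine ⟨sel_inf h1.1 h2.1, fun h => hA ⟨S1, S2, h1.1, h2.1, h1.2, h2.2, h⟩⟩
  have hex : ∃ n : ℕ, ∃ S : Subgroup N, (Inv τ S ∧ H ⊓ S ≠ ⊥) ∧ r (S.subgroupOf H) = n :=
    ⟨_, ⊤, ⟨sel_top τ, by rw [inf_top_eq]; exact hH⟩, rfl⟩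
  obtain ⟨S, hS, hSr⟩ := Nat.find_spec hex
  have hmin : ∀ S' : Subgroup N, (Inv τ S' ∧ H ⊓ S' ≠ ⊥) →
      r (S.subgroupOf H) ≤ r (S'.subgroupOf H) := by
    intro S' hS'
    rw [hSr]
    exact Nat.find_min' hex ⟨S', hS', rfl⟩
  have hle : ∀ S' : Subgroup N, (Inv τ S' ∧ H ⊓ S' ≠ ⊥) → H ⊓ S ≤ S' := by
    intro S' hS' x hx
    have h1 := hcl S S' hS hS'
    have hm : (S ⊓ S').subgroupOf H ≤ S.subgroupOf H := by
      intro y hy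
      rw [Subgroup.mem_subgroupOf] at hy ⊢
      exact hy.1
    have he : r ((S ⊓ S').subgroupOf H) = r (S.subgroupOf H) :=
      le_antisymm (hmono _ _ hm) (hmin _ h1)
    obtain ⟨m, hm0, hmx⟩ := hpow _ _ hm he ⟨x, hx.1⟩ (by
      rw [Subgroup.mem_subgroupOf]
      exact hx.2)
    rw [Subgroup.mem_subgroupOf] at hmx
    exact hS'.1.isol x m hm0 hmx.2
  set I : Subgroup N := sInf {S' | Inv τ S' ∧ H ⊓ S' ≠ ⊥} with hI
  have hIinv : Inv τ I := sel_sInf (fun S' hS' => hS'.1)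
  have hSI : H ⊓ S ≤ H ⊓ I := by
    refine le_inf inf_le_left ?_
    rw [hI]
    exact le_sInf (fun S' hS' => hle S' hS')
  have hIne : H ⊓ I ≠ ⊥ := by
    intro h
    apply hS.2
    rw [h] at hSI
    exact le_bot_iff.1 hSI
  have hIle : ∀ S' : Subgroup N, Inv τ S' → H ⊓ S' ≠ ⊥ → I ≤ S' := fun S' h1 h2 =>
    sInf_le ⟨h1, h2⟩
  have hJ : ∀ J : Subgroup N, Inv τ J → J < I → H ⊓ J = ⊥ := by
    intro J h1 h2
    by_contra h3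
    exact absurd (hIle J h1 h3) (not_le_of_gt h2)
  have hbI : (⊥ : Subgroup N) < I := by
    refine lt_of_le_of_ne bot_le (fun h => hIne ?_)
    rw [← h, inf_bot_eq]
  obtain ⟨J, -, hJm⟩ := zorn_le_nonempty₀ {J : Subgroup N | Inv τ J ∧ J < I} (by
    intro c hc hch y hy
    refine ⟨sSup c, ?_, fun z hz => le_sSup hz⟩
    have hW : Inv τ (sSup c) := sel_sSup ⟨y, hy⟩ hch (fun S' hS' => (hc hS').1)
    refine ⟨hW, lt_of_le_of_ne (sSup_le (fun S' hS' => (hc hS').2.le)) ?_⟩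
    intro he
    apply hIne
    rw [eq_bot_iff, ← he]
    intro x hx
    obtain ⟨hx1, hx2⟩ := hx
    have hx2' : x ∈ sSup c := hx2
    rw [Subgroup.mem_sSup_of_directedOn ⟨y, hy⟩ hch.directedOn] at hx2'
    obtain ⟨S', hS', hxS⟩ := hx2'
    have h4 := hJ S' (hc hS').1 (hc hS').2
    rw [← h4]
    exact ⟨hx1, hxS⟩) ⊥ ⟨sel_bot hT τ, hbI⟩
  have hJs : Inv τ J ∧ J < I := hJm.prop
  refine ⟨I, J, hIinv, hJs.1, hJs.2, hIne, hJ J hJs.1 hJs.2, ?_⟩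
  intro J' h1 h2 h3
  by_cases h4 : J' = I
  · exact Or.inr h4
  · left
    have h5 : J' ≤ J := hJm.2 ⟨h1, lt_of_le_of_ne h3 h4⟩ h2
    exact le_antisymm h5 h2

end Pool.Agent.H63.RK
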