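import Pool.Agent.H63.RK.DR2
import Pool.Agent.H63.RK.AB
import Pool.Agent.H63.RK.Sel
import Pool.Agent.H63.RK.CH3

/-!
# The HNN extensions of finitely generated subgroups of locally nilpotent groups

Module H63 RK MD (MP_2a547c_gt). Complete proof. Strong induction on `k`, for all `N`, `τ`, `H`. If `H = ⊥` then `case_a` is
not needed: `Pool.Agent.H93.TR.hnn_mem` with the trivial homomorphism to the trivial group (the base is trivial). Let
`H ≠ ⊥`; then `k ≠ 0` (`RF.zero`; `TF H`), `k = j + 1`.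
(Q) If `Inv τ S` and `H ⊓ S ≠ ⊥`, then for `N', τ', f` as in `exists_quot` for `S`: `C (D τ' (H.map f))` by the induction
hypothesis for `j` (`LocNil.of_surj`, `TF.of_surj`, `Subgroup.FG.map`, `rf_map_succ`).
Apply `sel`. First alternative: `S1, S2` with quotients `f1, f2`; `case_a` with (Q) for both; `hinj`: `x ∈ H`, `f1 x = 1`,
`f2 x = 1` gives `x ∈ H ⊓ (S1 ⊓ S2) = ⊥`. Second alternative: `I, J`; let `N1, τ1, f1` be the quotient by `J`. By `case_a`
with `f1 = f2` (`hinj` by `H ⊓ J = ⊥`) it suffices to show `C (D τ1 H1)`, `H1 = H.map f1`. `N1` is locally nilpotent and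
torsion-free, `H1` is finitely generated, `RF H1 k` (`rf_map`). `I1 = I.map f1` is a minimal invariant subgroup
(`MinInv τ1 I1`): `Inv.map`; not trivial as `J < I`; if `Inv τ1 J'`, `J' ≤ I1` then `J'.comap f1` is invariant
(`Inv.comap`), contains `J = f1.ker` and is contained in `I` (`Subgroup.comap_map_eq`, `f1.ker ≤ I`), so it is `J` or `I`
and `J' = (J'.comap f1).map f1` is `⊥` or `I1`. `H1 ⊓ I1 ≠ ⊥`: take `x ∈ H ⊓ I`, `x ≠ 1`; `f1 x ≠ 1` as `H ⊓ J = ⊥`. Let
`N2, τ2, f2` be the quotient of `N1` by `I1`. `C (D τ2 (H1.map f2))` by (Q) for `N1`. By `chief` either `I1 = f2.ker` is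
commutative, then use `ab_mem`, or there is a drift for `I1 = f2.ker`, then use `dr_mem`.
-/

set_option autoImplicit false

namespace Pool.Agent.H63.RK

open Pool.Agent.H98.FJ

variable {C : (G : Type) → [Group G] → Prop}

theorem md_exists_ne {N : Type} [Group N] {S : Subgroup N} (h : S ≠ ⊥) :
    ∃ x ∈ S, x ≠ 1 := by
  by_contra hc
  push Not at hc
  exact h ((Subgroup.eq_bot_iff_forall S).2 hc)

theorem md_fg_map {N N' : Type} [Group N] [Group N'] {H : Subgroup N} (h : H.FG) (f : N →* N') :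
    (H.map f).FG := by
  classical
  obtain ⟨s, hs⟩ := h
  exact ⟨s.image f, by rw [Finset.coe_image, ← MonoidHom.map_closure, hs]⟩

/-- the trivial base -/
theorem bot_D (hC : Inherits C) (hE : Extension C) {N : Type} [Group N] (τ : N ≃* N) :
    C (D τ (⊥ : Subgroup N)) := by
  refine Pool.Agent.H93.TR.hnn_mem hC hE (Q := PUnit) _ _ _ 1 ?_ (hC.fin _ inferInstance)
  intro a b _
  exact Subsingleton.elim a b

theorem main_D (hC : Inherits C) (hE : Extension C) (hS : Solv C) (hA : AcylTrees C) :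
    ∀ (k : ℕ) (N : Type) [Group N] (τ : N ≃* N) (H : Subgroup N), LocNil N → TF N → H.FG →
      RF H k → C (D τ H) := by
  intro k
  induction k with
  | zero =>
    intro N _ τ H hN hT hH hr
    have h0 : H = ⊥ := by
      rw [Subgroup.eq_bot_iff_forall]
      intro x hx
      exact congrArg Subtype.val (RF.zero hr (TF.subgroup hT H) ⟨x, hx⟩)
    subst h0
    exact bot_D hC hE τ
  | succ j ih =>
    -- the quotients
    have hQ : ∀ (N N' : Type) [Group N] [Group N'] (τ : N ≃* N) (τ' : N' ≃* N') (f : N →* N')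
        (H : Subgroup N), LocNil N → TF N → H.FG → RF H (j + 1) → Function.Surjective f →
        Isol f.ker → H ⊓ f.ker ≠ ⊥ → C (D τ' (H.map f)) := by
      intro N N' _ _ τ τ' f H hN hT hH hr hs hi hk
      exact ih N' τ' (H.map f) (LocNil.of_surj f hN hs) (TF.of_surj f hs hi)
        (md_fg_map hH f) (rf_map_succ f hT H hr hk)
    intro N _ τ H hN hT hH hr
    by_cases hb : H = ⊥
    · subst hb
      exact bot_D hC hE τ
    rcases sel hT τ H hr hb with ⟨S1, S2, h1, h2, h3, h4, h5⟩ | ⟨I, J, hI, hJ, hJI, hHI, hHJ, hmax⟩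
    · obtain ⟨N1, _, τ1, f1, hs1, he1, rfl⟩ := exists_quot τ S1 h1
      obtain ⟨N2, _, τ2, f2, hs2, he2, rfl⟩ := exists_quot τ S2 h2
      refine case_a hC hE τ τ1 τ2 f1 he1 f2 he2 H ?_
        (hQ N N1 τ τ1 f1 H hN hT hH hr hs1 h1.isol h3) (hQ N N2 τ τ2 f2 H hN hT hH hr hs2 h2.isol h4)
      intro x hx h6 h7
      have h8 : x ∈ H ⊓ (f1.ker ⊓ f2.ker) := ⟨hx, h6, h7⟩
      rw [h5] at h8
      exact h8
    · obtain ⟨N1, _, τ1, f1, hs1, he1, rfl⟩ := exists_quot τ J hJ
      have hinj : ∀ x ∈ H, f1 x = 1 → x = 1 := by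
        intro x hx h6
        have h8 : x ∈ H ⊓ f1.ker := ⟨hx, h6⟩
        rw [hHJ] at h8
        exact h8
      have hN1 : LocNil N1 := LocNil.of_surj f1 hN hs1
      have hT1 : TF N1 := TF.of_surj f1 hs1 hJ.isol
      have hH1 : (H.map f1).FG := md_fg_map hH f1
      have hr1 : RF (H.map f1) (j + 1) := rf_map f1 H hr
      have hcm : (I.map f1).comap f1 = I := by
        rw [Subgroup.comap_map_eq, sup_eq_left]
        exact hJI.le
      have hI1 : Inv τ1 (I.map f1) := hI.map f1 he1 hs1 hJI.le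
      have hmin : MinInv τ1 (I.map f1) := by
        refine ⟨hI1, ?_, ?_⟩
        · intro h
          have h6 : I ≤ f1.ker := (Subgroup.map_eq_bot_iff I).1 h
          exact absurd h6 (not_le_of_gt hJI)
        · intro J' hJ' hle
          have h6 : f1.ker ≤ J'.comap f1 := fun x hx => by
            have hx' : f1 x = 1 := hx
            change f1 x ∈ J'
            rw [hx']
            exact J'.one_mem
          have h7 : J'.comap f1 ≤ I := by
            rw [← hcm]
            exact Subgroup.comap_mono hle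
          have h8 : (J'.comap f1).map f1 = J' := Subgroup.map_comap_eq_self_of_surjective hs1 J'
          rcases hmax _ (hJ'.comap f1 he1) h6 h7 with h9 | h9
          · left
            rw [← h8, h9]
            exact (Subgroup.map_eq_bot_iff _).2 le_rfl
          · right
            rw [← h8, h9]
      have hne : H.map f1 ⊓ I.map f1 ≠ ⊥ := by
        obtain ⟨x, hx, hx1⟩ := md_exists_ne hHI
        intro h
        have h6 : f1 x ∈ H.map f1 ⊓ I.map f1 :=
          ⟨Subgroup.mem_map_of_mem f1 hx.1, Subgroup.mem_map_of_mem f1 hx.2⟩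
        rw [h] at h6
        exact hx1 (hinj x hx.1 h6)
      have hmain : C (D τ1 (H.map f1)) := by
        obtain ⟨N2, _, τ2, f2, hs2, he2, hk2⟩ := exists_quot τ1 (I.map f1) hI1
        have hD2 : C (D τ2 ((H.map f1).map f2)) := by
          refine hQ N1 N2 τ1 τ2 f2 (H.map f1) hN1 hT1 hH1 hr1 hs2 ?_ ?_
          · rw [hk2]
            exact hI1.isol
          · rw [hk2]
            exact hne
        rcases chief hN1 hT1 τ1 (I.map f1) hmin with hab | ⟨F, e, hF⟩
        · refine ab_mem hC hE hS τ1 τ2 f2 he2 (H.map f1) ?_ hD2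
          intro x y hx hy
          refine hab x ?_ y ?_
          · rw [← hk2]
            exact hx
          · rw [← hk2]
            exact hy
        · rw [← hk2] at hF
          exact dr_mem hC hE hS hA hN1 τ1 τ2 f2 he2 (H.map f1) hH1 hr1 F e hF hD2
      exact case_a hC hE τ τ1 τ1 f1 he1 f1 he1 H (fun x hx h6 _ => hinj x hx h6) hmain hmain

end Pool.Agent.H63.RK
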