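import Pool.Agent.H63.RK.Defs

/-!
# HNN extensions of finite groups

Module H63 RK PF (MP_2a547c_gt). Complete proof. `exists_perm`: let `A, B` be isomorphic subgroups of the finite group `H`,
`φ : A ≃* B`. There is a permutation `σ` of `H` with `σ (a * x) = φ a * σ x` for `a ∈ A`, `x : H`. The group `A` acts freely
on `H` by left multiplication, so `H ≃ A × (the set of right cosets)`; similarly for `B`; the numbers of cosets are equal
since `A` and `B` have the same number of elements. Explicitly: `Subgroup.groupEquivQuotientProdSubgroup :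
H ≃ (H ⧸ A) × A` satisfies (with inverses, to pass to right cosets) ...; choose a bijection `(H ⧸ A) ≃ (H ⧸ B)` by
cardinality (`Fintype.equivOfCardEq`/`Finite.equivOfCardEq`, `Subgroup.card_mul_index`) and let
`σ` be the composition `H ≃ (H ⧸ A) × A ≃ (H ⧸ B) × B ≃ H`, for the inverses of the elements.
`fin_hnn`: `f = HNNExtension.lift (MulAction.toPermHom H H) σ _ : HNNExtension H A B φ →* Equiv.Perm H`, relation
`σ ∘ (a * ·) = (φ a * ·) ∘ σ`; injective on `H` (the regular action is faithful); `Equiv.Perm H` is finite, so it is in the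
class; `Pool.Agent.H93.TR.hnn_mem`.
-/

set_option autoImplicit false

namespace Pool.Agent.H63.RK

open Pool.Agent.H98.FJ

variable {C : (G : Type) → [Group G] → Prop}

theorem exists_perm {H : Type} [Group H] [Finite H] (A B : Subgroup H) (φ : A ≃* B) :
    ∃ σ : Equiv.Perm H, ∀ (a : A) (x : H), σ (a * x) = φ a * σ x := by
  classical
  have hcard : Nat.card (H ⧸ A) = Nat.card (H ⧸ B) := by
    have h1 := A.card_mul_index
    have h2 := B.card_mul_index
    have h3 : Nat.card A = Nat.card B := Nat.card_congr φ.toEquiv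
    have h4 : 0 < Nat.card A := Nat.card_pos
    rw [← h1, ← h3] at h2
    exact (Nat.eq_of_mul_eq_mul_left h4 h2).symm
  obtain ⟨e⟩ : Nonempty (H ⧸ A ≃ H ⧸ B) := Finite.card_eq.1 hcard
  have hm : ∀ x : H, x * (QuotientGroup.mk x⁻¹ : H ⧸ A).out ∈ A := by
    intro x
    have h1 : (QuotientGroup.mk (QuotientGroup.mk x⁻¹ : H ⧸ A).out : H ⧸ A) =
        QuotientGroup.mk x⁻¹ := QuotientGroup.out_eq' _
    rw [eq_comm, QuotientGroup.eq, inv_inv] at h1
    exact h1
  let s : H → H := fun x => (φ ⟨x * (QuotientGroup.mk x⁻¹ : H ⧸ A).out, hm x⟩ : H) *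
    (e (QuotientGroup.mk x⁻¹)).out⁻¹
  have hs : ∀ x, s x = (φ ⟨x * (QuotientGroup.mk x⁻¹ : H ⧸ A).out, hm x⟩ : H) *
    (e (QuotientGroup.mk x⁻¹)).out⁻¹ := fun _ => rfl
  have hq : ∀ x, (QuotientGroup.mk (s x)⁻¹ : H ⧸ B) = e (QuotientGroup.mk x⁻¹) := by
    intro x
    have h1 : (QuotientGroup.mk (s x)⁻¹ : H ⧸ B) =
        QuotientGroup.mk (e (QuotientGroup.mk x⁻¹)).out := by
      rw [QuotientGroup.eq, hs, inv_inv, mul_assoc, inv_mul_cancel, mul_one]
      exact (φ _).2
    rw [h1]
    exact QuotientGroup.out_eq' _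
  have hinj : Function.Injective s := by
    intro x y hxy
    have h1 : (QuotientGroup.mk x⁻¹ : H ⧸ A) = QuotientGroup.mk y⁻¹ := by
      apply e.injective
      rw [← hq, ← hq, hxy]
    have hs' : ∀ x, (φ ⟨x * (QuotientGroup.mk x⁻¹ : H ⧸ A).out, hm x⟩ : H) =
        s x * (e (QuotientGroup.mk x⁻¹)).out := by
      intro x
      rw [hs, inv_mul_cancel_right]
    have h2 : (⟨x * (QuotientGroup.mk x⁻¹ : H ⧸ A).out, hm x⟩ : A) =
        ⟨y * (QuotientGroup.mk y⁻¹ : H ⧸ A).out, hm y⟩ := by
      apply φ.injective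
      apply Subtype.ext
      rw [hs', hs', hxy, h1]
    have h3 := congrArg Subtype.val h2
    simp only at h3
    rw [h1] at h3
    exact mul_right_cancel h3
  refine ⟨Equiv.ofBijective s (Finite.injective_iff_bijective.1 hinj), fun a x => ?_⟩
  rw [Equiv.ofBijective_apply, Equiv.ofBijective_apply, hs, hs]
  have h1 : (QuotientGroup.mk ((a : H) * x)⁻¹ : H ⧸ A) = QuotientGroup.mk x⁻¹ := by
    rw [QuotientGroup.eq, inv_inv, mul_inv_cancel_right]
    exact a.2
  have h2 : (⟨(a : H) * x * (QuotientGroup.mk ((a : H) * x)⁻¹ : H ⧸ A).out, hm _⟩ : A) =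
      a * ⟨x * (QuotientGroup.mk x⁻¹ : H ⧸ A).out, hm x⟩ := by
    apply Subtype.ext
    change (a : H) * x * _ = (a : H) * (x * _)
    rw [h1, mul_assoc]
  rw [h2, map_mul, h1, Subgroup.coe_mul, mul_assoc]

theorem fin_hnn (hC : Inherits C) (hE : Extension C) {N : Type} [Group N] (τ : N ≃* N)
    (H : Subgroup N) (hH : Finite H) : C (D τ H) := by
  obtain ⟨σ, hσ⟩ := exists_perm (dA τ H) (dB τ H) (dphi τ H)
  have hrel : ∀ a : dA τ H, σ * (MulAction.toPermHom H H) (a : H) =
      (MulAction.toPermHom H H) (dphi τ H a : H) * σ := by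
    intro a
    ext x
    rw [Equiv.Perm.mul_apply, Equiv.Perm.mul_apply]
    exact congrArg Subtype.val (hσ a x)
  refine Pool.Agent.H93.TR.hnn_mem hC hE (Q := Equiv.Perm H) _ _ _
    (HNNExtension.lift (MulAction.toPermHom H H) σ hrel) ?_ (hC.fin _ inferInstance)
  intro a b hab
  rw [MonoidHom.comp_apply, MonoidHom.comp_apply, HNNExtension.lift_of,
    HNNExtension.lift_of] at hab
  exact MulAction.toPerm_injective hab

end Pool.Agent.H63.RK
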