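import Pool.Agent.H63.RK.Defs

/-!
# Rank functions of quotients

Module H63 RK RQ (MP_2a547c_gt). Complete proof. `of_surj`: `r' R' = r (R'.comap f)`. `of_surj_succ`: let
`r' R' = r (R'.comap f) - 1`; one has `1 ≤ r f.ker`, since otherwise `r ⊥ = r f.ker = 0` and every element of the kernel
has a power equal to `1`, so it is trivial; `f.ker ≤ R'.comap f`. `zero`: `r ⊥ = r ⊤ = 0`.
-/

set_option autoImplicit false

namespace Pool.Agent.H63.RK

open Pool.Agent.H98.FJ

theorem RF.of_surj {H H' : Type} [Group H] [Group H'] {k : ℕ} (hr : RF H k) (f : H →* H')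
    (hf : Function.Surjective f) : RF H' k := by
  obtain ⟨r, h1, h2, h3⟩ := hr
  refine ⟨fun R' => r (R'.comap f), ?_, ?_, ?_⟩
  · intro R R' hR
    exact h1 _ _ (Subgroup.comap_mono hR)
  · intro R R' hR he x hx
    obtain ⟨h, rfl⟩ := hf x
    obtain ⟨m, hm, hm2⟩ := h2 _ _ (Subgroup.comap_mono hR) he h hx
    refine ⟨m, hm, ?_⟩
    rw [← map_pow]
    exact hm2
  · change r (Subgroup.comap f ⊤) ≤ k
    rw [Subgroup.comap_top]
    exact h3

theorem RF.of_surj_succ {H H' : Type} [Group H] [Group H'] {k : ℕ} (hr : RF H (k + 1))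
    (hT : TF H) (f : H →* H') (hf : Function.Surjective f) (hk : f.ker ≠ ⊥) : RF H' k := by
  obtain ⟨r, h1, h2, h3⟩ := hr
  have hker : 1 ≤ r f.ker := by
    by_contra hc
    have h0 : r f.ker = 0 := by omega
    have h4 : r ⊥ = r f.ker := by
      have := h1 ⊥ f.ker bot_le
      omega
    apply hk
    rw [eq_bot_iff]
    intro x hx
    obtain ⟨m, hm, hm2⟩ := h2 ⊥ f.ker bot_le h4 x hx
    rw [Subgroup.mem_bot] at hm2 ⊢
    exact hT x m hm hm2
  have hge : ∀ R' : Subgroup H', 1 ≤ r (R'.comap f) := by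
    intro R'
    refine hker.trans (h1 _ _ ?_)
    intro x hx
    rw [MonoidHom.mem_ker] at hx
    rw [Subgroup.mem_comap, hx]
    exact R'.one_mem
  refine ⟨fun R' => r (R'.comap f) - 1, ?_, ?_, ?_⟩
  · intro R R' hR
    have := h1 _ _ (Subgroup.comap_mono (f := f) hR)
    change r (R.comap f) - 1 ≤ r (R'.comap f) - 1
    omega
  · intro R R' hR he x hx
    have he' : r (R.comap f) - 1 = r (R'.comap f) - 1 := he
    have g1 := hge R
    have g2 := hge R'
    obtain ⟨h, rfl⟩ := hf x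
    obtain ⟨m, hm, hm2⟩ := h2 _ _ (Subgroup.comap_mono hR) (by omega) h hx
    refine ⟨m, hm, ?_⟩
    rw [← map_pow]
    exact hm2
  · change r (Subgroup.comap f ⊤) - 1 ≤ k
    rw [Subgroup.comap_top]
    omega

theorem RF.zero {H : Type} [Group H] (hr : RF H 0) (hT : TF H) (x : H) : x = 1 := by
  obtain ⟨r, h1, h2, h3⟩ := hr
  have h4 : r ⊥ = r ⊤ := by
    have := h1 ⊥ ⊤ bot_le
    omega
  obtain ⟨m, hm, hm2⟩ := h2 ⊥ ⊤ bot_le h4 x (Subgroup.mem_top x)
  rw [Subgroup.mem_bot] at hm2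
  exact hT x m hm hm2

end Pool.Agent.H63.RK
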