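import Pool.Agent.H63.RK.Defs

/-!
# The Bass-Serre tree of the HNN extension

Module H63 RK TREE (MP_2a547c_gt). Complete proof. Let `B = (dof τ H).range`, `t = dt τ H`. `V = D τ H ⧸ B` with the action by
left multiplication; `h (d B) = toAdd (dchi τ H d)` (well defined by `dchi_of`); `v, w` are adjacent if there is `d` with
`{v, w} = {d B, d t B}`; the heights of `d B` and `d t B` differ by one, so the graph is loopless. `g • d B = d B` iff
`d⁻¹ * g * d ∈ B`.

Connected: the set of the `d` such that `d B` is reachable from `B` is a subgroup (translate walks), it contains `t` and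
`B`, so it is everything (`HNNExtension.induction_on`).

Acyclic: by `SimpleGraph.isAcyclic_iff_forall_adj_isBridge` (or similar) and translation it suffices that the edge
`{B, t B}` is a bridge. We need a function `σ : D τ H → Bool` with (i) `σ (d * b) = σ d` for `b ∈ B`; (ii)
`σ (d * t) = σ d` unless `d ∈ B` and `d t B = t B`, `d B = B`, i.e. unless `d = of b` with `b ∈ dB τ H`; (iii)
`σ (t) ≠ σ (1)`. Then `σ` descends to `V` and is constant along walks which do not use the edge `{B, t B}`. Choose a
transversal pair (`HNNExtension.NormalWord.TransversalPair.nonempty`, transversals containing `1`) and let `w(y)` be the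
normal word of `y` (`HNNExtension.NormalWord.equiv`); `y = head * t ^ u1 * g1 * ... * t ^ un * gn`. Put `σ d = true` iff the
word of `d⁻¹` is not of length `0` and its last letter is `(-1, 1)`. (i) `w (b * y)` for `b ∈ B` has the same list of
letters as `w y` (only the head changes). (ii) `w (t⁻¹ * y)`: if the list of `y` begins with `(1, g1)` and the head is in
`dB τ H` the first letter is cancelled; otherwise a letter `(-1, g)` is added at the beginning, where `g` is the
representative of the head. If the list of `y` has length at least `2` the last letter does not change; if it has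
length `1` and the letter is cancelled, it was `(1, g1)`, so `σ` was `false` and it is `false` for the empty word; if it
has length `1` and a letter is added the last letter does not change; if it is empty then `y = of b`, and the last letter
becomes `(-1, g)`, `g` the representative of `b`, which is `1` iff `b ∈ dB τ H`. (iii) the word of `t⁻¹` is `(-1, 1)`.
(See Mathlib, `Mathlib/GroupTheory/HNNExtension.lean`: `unitsSMul`, `unitsSMulWithCancel`, `t_smul_eq_unitsSMul`,
`of_smul_eq_smul`, `not_cancels_of_cons_hyp`.) Another way: the proof of `Pool.Agent.H93.TR.hnn_mem` embeds an HNN extension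
in `FreeGroup (Q ⧸ C1) ⋊ Q`, which acts on the Cayley tree of the free group.
-/

set_option autoImplicit false

namespace Pool.Agent.H63.RK

open Pool.Agent.H98.FJ

section side

open HNNExtension HNNExtension.NormalWord

variable {G : Type*} [Group G] {A B : Subgroup G} (φ : A ≃* B)

/-- the letters of `unitsSMul` if there is no cancellation -/
private theorem list_add {d : TransversalPair G A B} (u : ℤˣ) (w : NormalWord d)
    (h : ¬ Cancels u w) :
    (unitsSMul φ u w).toList = (u, (((d.compl u).equiv w.head).2 : G)) :: w.toList := by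
  unfold unitsSMul
  rw [dif_neg h]
  simp only [cons_toList, group_smul_head, group_smul_toList, inv_mul_cancel_right]
  rw [unitsSMulGroup_snd]

/-- the letters of `unitsSMul` if there is a cancellation -/
private theorem list_can {d : TransversalPair G A B} (u : ℤˣ) (w : NormalWord d)
    (h : Cancels u w) : ∃ g : G, w.toList = (-u, g) :: (unitsSMul φ u w).toList := by
  have h' := h
  unfold unitsSMul
  rw [dif_pos h]
  induction w using consRecOn with
  | ofGroup g => exact absurd h'.2 (by simp)
  | cons g u' w h1 h2 _ =>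
    have h3 : u' = -u := by
      have := h'.2
      simpa using this
    subst h3
    refine ⟨w.head, ?_⟩
    simp [unitsSMulWithCancel]

/-- the side function -/
private theorem side (A B : Subgroup G) (φ : A ≃* B) :
    ∃ σ : HNNExtension G A B φ → Prop, (∀ (d : HNNExtension G A B φ) (b : G), σ (d * of b) ↔ σ d) ∧
      (∀ d : HNNExtension G A B φ, (¬ ∃ b ∈ B, d = of b) → (σ (d * t) ↔ σ d)) ∧ σ t ∧ ¬ σ 1 := by
  classical
  choose T hT using fun u : ℤˣ => (toSubgroup A B u).exists_isComplement_right 1
  obtain ⟨D, hD⟩ : ∃ D : TransversalPair G A B, ∀ u, (1 : G) ∈ D.set u :=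
    ⟨⟨T, fun u => (hT u).1⟩, fun u => (hT u).2⟩
  have hone : ∀ (u : ℤˣ) (g : G), (((D.compl u).equiv g).2 : G) = 1 ↔ g ∈ toSubgroup A B u := by
    intro u g
    constructor
    · intro h
      have h1 := (D.compl u).equiv_fst_mul_equiv_snd g
      rw [h, mul_one] at h1
      rw [← h1]
      exact ((D.compl u).equiv g).1.2
    · intro h
      exact (D.compl u).coe_equiv_snd_eq_one_iff_mem (hD u) |>.2 h
  let W : HNNExtension G A B φ → NormalWord D := fun x => x • (empty : NormalWord D)
  refine ⟨fun x => (W x⁻¹).toList.getLast? = some ((-1 : ℤˣ), (1 : G)), ?_, ?_, ?_, ?_⟩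
  · intro x b
    show (W (x * of b)⁻¹).toList.getLast? = _ ↔ (W x⁻¹).toList.getLast? = _
    have e : W (x * of b)⁻¹ = (b⁻¹ : G) • W x⁻¹ := by
      show (x * of b)⁻¹ • (empty : NormalWord D) = _
      rw [mul_inv_rev, mul_smul, ← map_inv, of_smul_eq_smul]
    rw [e, group_smul_toList]
  · intro x hx
    show (W (x * t)⁻¹).toList.getLast? = _ ↔ (W x⁻¹).toList.getLast? = _
    have e : W (x * t)⁻¹ = unitsSMul φ (-1) (W x⁻¹) := by
      show (x * t)⁻¹ • (empty : NormalWord D) = _
      rw [mul_inv_rev, mul_smul, ← t_pow_smul_eq_unitsSMul]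
      simp
      rfl
    rw [e]
    by_cases hc : Cancels (-1 : ℤˣ) (W x⁻¹)
    · obtain ⟨g, hg⟩ := list_can φ (-1) (W x⁻¹) hc
      rw [hg]
      cases hl : (unitsSMul φ (-1) (W x⁻¹)).toList with
      | nil => simp
      | cons a l => simp [List.getLast?_cons_cons]
    · rw [list_add φ (-1) (W x⁻¹) hc]
      cases hl : (W x⁻¹).toList with
      | cons a l => simp [List.getLast?_cons_cons]
      | nil =>
        have hne : ((((D.compl (-1 : ℤˣ)).equiv (W x⁻¹).head).2 : G)) ≠ 1 := by
          intro h1
          rw [hone] at h1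
          apply hx
          refine ⟨(W x⁻¹).head⁻¹, inv_mem h1, ?_⟩
          have h2 : (W x⁻¹).prod φ = x⁻¹ := by
            show (x⁻¹ • (empty : NormalWord D)).prod φ = x⁻¹
            rw [prod_smul, prod_empty, mul_one]
          have h3 : (W x⁻¹).prod φ = of (W x⁻¹).head := by
            unfold ReducedWord.prod
            rw [hl]
            simp
          rw [map_inv, ← h3, h2, inv_inv]
        simp only [List.getLast?_singleton, Option.some.injEq, Prod.mk.injEq, true_and,
          List.getLast?_nil, reduceCtorEq, iff_false]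
        exact hne
  · show (W t⁻¹).toList.getLast? = _
    have e : W t⁻¹ = unitsSMul φ (-1) (empty : NormalWord D) := by
      show t⁻¹ • (empty : NormalWord D) = _
      rw [← t_pow_smul_eq_unitsSMul]
      simp
    have hc : ¬ Cancels (-1 : ℤˣ) (empty : NormalWord D) := by
      intro h
      have := h.2
      simp at this
    rw [e, list_add φ (-1) _ hc]
    simp only [empty_toList, List.getLast?_singleton, Option.some.injEq, Prod.mk.injEq, true_and]
    exact (hone _ _).2 (one_mem _)
  · show ¬ (W (1 : HNNExtension G A B φ)⁻¹).toList.getLast? = _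
    have e : W (1 : HNNExtension G A B φ)⁻¹ = empty := by
      show (1 : HNNExtension G A B φ)⁻¹ • (empty : NormalWord D) = _
      rw [inv_one, one_smul]
    rw [e]
    simp

end side

theorem exists_tree {N : Type} [Group N] (τ : N ≃* N) (H : Subgroup N) :
    ∃ T : HT (D τ H) (dchi τ H), ∀ v : T.V, ∃ d : D τ H,
      T.h v = Multiplicative.toAdd (dchi τ H d) ∧
      ∀ g : D τ H, g • v = v ↔ ∃ h : H, g = d * dof τ H h * d⁻¹ := by
  classical
  obtain ⟨σ, hσ1, hσ2, hσ3, hσ4⟩ := side (dA τ H) (dB τ H) (dphi τ H)
  -- vertices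
  let K : Subgroup (D τ H) := (dof τ H).range
  have hK : ∀ a b : D τ H, (QuotientGroup.mk a : D τ H ⧸ K) = QuotientGroup.mk b ↔
      ∃ x : H, b = a * dof τ H x := by
    intro a b
    rw [QuotientGroup.eq]
    constructor
    · rintro ⟨x, hx⟩
      exact ⟨x, by rw [hx, mul_inv_cancel_left]⟩
    · rintro ⟨x, hx⟩
      exact ⟨x, by rw [hx, inv_mul_cancel_left]⟩
  let ht : D τ H ⧸ K → ℤ := Quotient.lift (fun d => Multiplicative.toAdd (dchi τ H d)) (by
    intro a b hab
    have h1 : (QuotientGroup.mk a : D τ H ⧸ K) = QuotientGroup.mk b := Quotient.sound hab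
    obtain ⟨x, hx⟩ := (hK a b).1 h1
    show Multiplicative.toAdd (dchi τ H a) = Multiplicative.toAdd (dchi τ H b)
    rw [hx, map_mul, dchi_of, mul_one])
  have hht : ∀ d : D τ H, ht (QuotientGroup.mk d) = Multiplicative.toAdd (dchi τ H d) :=
    fun d => rfl
  let sgV : D τ H ⧸ K → Prop := Quotient.lift σ (by
    intro a b hab
    have h1 : (QuotientGroup.mk a : D τ H ⧸ K) = QuotientGroup.mk b := Quotient.sound hab
    obtain ⟨x, hx⟩ := (hK a b).1 h1
    rw [hx]
    exact propext (hσ1 a x).symm)
  have hsg : ∀ d : D τ H, sgV (QuotientGroup.mk d) = σ d := fun d => rfl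
  have hhtt : ∀ d : D τ H, ht (QuotientGroup.mk (d * dt τ H)) = ht (QuotientGroup.mk d) + 1 := by
    intro d
    rw [hht, hht, map_mul, dchi_t, toAdd_mul, toAdd_ofAdd]
  have hsm : ∀ g d : D τ H, g • (QuotientGroup.mk d : D τ H ⧸ K) = QuotientGroup.mk (g * d) :=
    fun g d => rfl
  let X : SimpleGraph (D τ H ⧸ K) :=
    { Adj := fun v w => (∃ d : D τ H, v = QuotientGroup.mk d ∧ w = QuotientGroup.mk (d * dt τ H)) ∨
        (∃ d : D τ H, w = QuotientGroup.mk d ∧ v = QuotientGroup.mk (d * dt τ H))
      symm := ⟨fun v w h => h.symm⟩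
      loopless := ⟨by
        rintro v (⟨d, h1, h2⟩ | ⟨d, h1, h2⟩) <;>
        · have h3 := hhtt d
          rw [← h1, ← h2] at h3
          omega⟩ }
  have hXadj : ∀ v w, X.Adj v w ↔
      (∃ d : D τ H, v = QuotientGroup.mk d ∧ w = QuotientGroup.mk (d * dt τ H)) ∨
        (∃ d : D τ H, w = QuotientGroup.mk d ∧ v = QuotientGroup.mk (d * dt τ H)) :=
    fun v w => Iff.rfl
  have hXact : ∀ (g : D τ H) (v w : D τ H ⧸ K), X.Adj v w → X.Adj (g • v) (g • w) := by
    intro g v w h
    rw [hXadj] at h ⊢
    rcases h with ⟨d, h1, h2⟩ | ⟨d, h1, h2⟩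
    · left
      exact ⟨g * d, by rw [h1, hsm], by rw [h2, hsm, mul_assoc]⟩
    · right
      exact ⟨g * d, by rw [h1, hsm], by rw [h2, hsm, mul_assoc]⟩
  have hreach : ∀ (g : D τ H) (v w : D τ H ⧸ K), X.Reachable v w → X.Reachable (g • v) (g • w) := by
    intro g v w h
    let f : X →g X := ⟨fun v => g • v, fun {a b} hab => hXact g a b hab⟩
    exact h.map f
  have hconn : ∀ d : D τ H, X.Reachable (QuotientGroup.mk 1) (QuotientGroup.mk d) := by
    intro d
    induction d using HNNExtension.induction_on with
    | of g =>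
      have h1 : (QuotientGroup.mk 1 : D τ H ⧸ K) = QuotientGroup.mk (dof τ H g) :=
        (hK _ _).2 ⟨g, by rw [one_mul]⟩
      rw [← h1]
    | t =>
      refine SimpleGraph.Adj.reachable ?_
      rw [hXadj]
      left
      exact ⟨1, rfl, by rw [one_mul]⟩
    | mul x y hx hy =>
      have h1 := hreach x _ _ hy
      rw [hsm, hsm, mul_one] at h1
      exact hx.trans h1
    | inv x hx =>
      have h1 := hreach x⁻¹ _ _ hx
      rw [hsm, hsm, mul_one, inv_mul_cancel] at h1
      exact h1.symm
  have hbridge : ∀ d : D τ H, ¬ (X.deleteEdges {s((QuotientGroup.mk d : D τ H ⧸ K),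
      QuotientGroup.mk (d * dt τ H))}).Reachable (QuotientGroup.mk d)
      (QuotientGroup.mk (d * dt τ H)) := by
    intro d hr
    have key : ∀ x y, (X.deleteEdges {s((QuotientGroup.mk d : D τ H ⧸ K),
        QuotientGroup.mk (d * dt τ H))}).Reachable x y → (sgV (d⁻¹ • x) ↔ sgV (d⁻¹ • y)) := by
      intro x y hxy
      obtain ⟨p⟩ := hxy
      induction p with
      | nil => rfl
      | cons hadj _ ih =>
        refine Iff.trans ?_ ih
        rw [SimpleGraph.deleteEdges_adj, Set.mem_singleton_iff] at hadj
        obtain ⟨h1, h2⟩ := hadj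
        have hstep : ∀ e : D τ H, s((QuotientGroup.mk e : D τ H ⧸ K),
            QuotientGroup.mk (e * dt τ H)) ≠ s((QuotientGroup.mk d : D τ H ⧸ K),
            QuotientGroup.mk (d * dt τ H)) →
            (sgV (d⁻¹ • (QuotientGroup.mk e : D τ H ⧸ K)) ↔
              sgV (d⁻¹ • (QuotientGroup.mk (e * dt τ H) : D τ H ⧸ K))) := by
          intro e he
          rw [hsm, hsm, hsg, hsg, ← mul_assoc]
          refine (hσ2 (d⁻¹ * e) ?_).symm
          rintro ⟨b, hb, hbe⟩
          apply he
          have e1 : e = d * dof τ H b := by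
            rw [← hbe, mul_inv_cancel_left]
          have h3 := HNNExtension.of_mul_t (A := dA τ H) (B := dB τ H) (φ := dphi τ H) ⟨b, hb⟩
          have e2 : e * dt τ H = d * dt τ H * dof τ H (((dphi τ H).symm ⟨b, hb⟩ : dA τ H) : H) := by
            rw [e1, mul_assoc, mul_assoc]
            congr 1
          have e3 : (QuotientGroup.mk e : D τ H ⧸ K) = QuotientGroup.mk d :=
            ((hK _ _).2 ⟨b, e1⟩).symm
          have e4 : (QuotientGroup.mk (e * dt τ H) : D τ H ⧸ K) = QuotientGroup.mk (d * dt τ H) :=
            ((hK _ _).2 ⟨_, e2⟩).symm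
          rw [e3, e4]
        rw [hXadj] at h1
        rcases h1 with ⟨e, h3, h4⟩ | ⟨e, h3, h4⟩
        · rw [h3, h4] at h2 ⊢
          exact hstep e h2
        · rw [h3, h4] at h2 ⊢
          rw [Sym2.eq_swap] at h2
          exact (hstep e h2).symm
    have h1 := key _ _ hr
    rw [hsm, hsm, hsg, hsg, inv_mul_cancel, inv_mul_cancel_left] at h1
    exact hσ4 (h1.2 hσ3)
  have htree : X.IsTree := by
    refine ⟨?_, ?_⟩
    · have : Nonempty (D τ H ⧸ K) := ⟨QuotientGroup.mk 1⟩
      refine SimpleGraph.Connected.mk ?_
      intro v w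
      induction v using QuotientGroup.induction_on with
      | H a =>
        induction w using QuotientGroup.induction_on with
        | H b => exact (hconn a).symm.trans (hconn b)
    · rw [SimpleGraph.isAcyclic_iff_forall_adj_isBridge]
      intro v w hvw
      rw [SimpleGraph.isBridge_iff]
      rw [hXadj] at hvw
      rcases hvw with ⟨d, h1, h2⟩ | ⟨d, h1, h2⟩
      · rw [h1, h2]
        exact hbridge d
      · rw [h1, h2, Sym2.eq_swap]
        intro h3
        exact hbridge d h3.symm
  refine ⟨⟨D τ H ⧸ K, inferInstance, X, ht, htree, hXact, ?_, ?_⟩, ?_⟩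
  · intro v w h
    rw [hXadj] at h
    rcases h with ⟨d, h1, h2⟩ | ⟨d, h1, h2⟩
    · left
      rw [h1, h2]
      exact hhtt d
    · right
      rw [h1, h2]
      exact hhtt d
  · intro g v
    induction v using QuotientGroup.induction_on with
    | H a =>
      rw [hsm, hht, hht, map_mul, toAdd_mul, add_comm]
  · intro v
    induction v using QuotientGroup.induction_on with
    | H a =>
      refine ⟨a, hht a, fun g => ?_⟩
      constructor
      · intro h
        have h1 : (QuotientGroup.mk (g * a) : D τ H ⧸ K) = QuotientGroup.mk a := h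
        obtain ⟨x, hx⟩ := (hK _ _).1 h1.symm
        exact ⟨x, by rw [← hx, mul_inv_cancel_right]⟩
      · rintro ⟨x, hx⟩
        show (QuotientGroup.mk (g * a) : D τ H ⧸ K) = QuotientGroup.mk a
        exact ((hK _ _).2 ⟨x, by rw [hx, inv_mul_cancel_right]⟩).symm

end Pool.Agent.H63.RK
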